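import Pool.Agent.P.MP_358d01_co.Fur.Base0

set_option autoImplicit false

namespace Pool.Agent.Fur

open Classical

namespace GENA

open MeasureTheory

theorem span_ne_top (U : Finset (EuclideanSpace ℝ (Fin 3))) (hU : U.card ≤ 3) :
    affineSpan ℝ (U : Set (EuclideanSpace ℝ (Fin 3))) ≠ ⊤ := by
  intro h
  rcases U.eq_empty_or_nonempty with rfl | hne
  · rw [Finset.coe_empty, AffineSubspace.span_empty] at h
    exact bot_ne_top h
  · obtain ⟨n, hn⟩ : ∃ n, U.card = n + 1 := ⟨U.card - 1, by have := hne.card_pos; omega⟩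
    have h1 := finrank_vectorSpan_image_finset_le ℝ (id : EuclideanSpace ℝ (Fin 3) → _) U hn
    rw [Finset.image_id, ← direction_affineSpan, h, AffineSubspace.direction_top, finrank_top,
      finrank_euclideanSpace, Fintype.card_fin] at h1
    omega

theorem exists_new (A : Finset (EuclideanSpace ℝ (Fin 3))) (c : EuclideanSpace ℝ (Fin 3)) {δ : ℝ}
    (hδ : 0 < δ) : ∃ p ∈ Metric.ball c δ, ∀ U ⊆ A, U.card ≤ 3 →
      p ∉ affineSpan ℝ (U : Set (EuclideanSpace ℝ (Fin 3))) := by
  by_contra hn
  push Not at hn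
  have h0 : volume (⋃ U ∈ A.powerset.filter (fun U => U.card ≤ 3),
      (affineSpan ℝ (U : Set (EuclideanSpace ℝ (Fin 3))) : Set (EuclideanSpace ℝ (Fin 3)))) = 0 :=
    (measure_biUnion_null_iff (Finset.countable_toSet _)).2 fun U hU =>
      Measure.addHaar_affineSubspace _ _ (span_ne_top U (Finset.mem_filter.1 hU).2)
  refine (Metric.measure_ball_pos volume c hδ).ne' (measure_mono_null (fun p hp => ?_) h0)
  obtain ⟨U, h1, h2, h3⟩ := hn p hp
  exact Set.mem_biUnion (Finset.mem_coe.2 (Finset.mem_filter.2 ⟨Finset.mem_powerset.2 h1, h2⟩)) h3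

theorem step {E : Type} [AddCommGroup E] [Module ℝ E] [DecidableEq E] {T : Finset E} {p : E}
    (hp : p ∈ T)
    (h1 : AffineIndependent ℝ fun x : ((T.erase p : Finset E) : Set E) => (x : E))
    (h2 : p ∉ affineSpan ℝ ((T.erase p : Finset E) : Set E)) :
    AffineIndependent ℝ fun x : (T : Set E) => (x : E) := by
  refine AffineIndependent.affineIndependent_of_notMem_span (i := ⟨p, hp⟩) ?_ fun h => h2 ?_
  · let f : {y : (T : Set E) // y ≠ ⟨p, hp⟩} ↪ ((T.erase p : Finset E) : Set E) :=
      ⟨fun x => ⟨x.1.1, Finset.mem_coe.2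
        (Finset.mem_erase.2 ⟨fun e => x.2 (Subtype.ext e), x.1.2⟩)⟩,
        fun x y e => Subtype.ext (Subtype.ext (Subtype.mk.inj e))⟩
    exact h1.comp_embedding f
  · refine affineSpan_mono ℝ ?_ h
    rintro _ ⟨x, hx, rfl⟩
    exact Finset.mem_coe.2 (Finset.mem_erase.2 ⟨fun e => hx (Subtype.ext e), x.2⟩)

theorem main {α : Type} (P : α → EuclideanSpace ℝ (Fin 3)) {δ : ℝ} (hδ : 0 < δ) (s : Finset α) :
    ∃ P' : α → EuclideanSpace ℝ (Fin 3), (∀ z, P' z ∈ Metric.ball (P z) δ) ∧ Set.InjOn P' s ∧
      ∀ T ⊆ s.image P', T.card ≤ 4 → AffineIndependent ℝ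
        fun x : (T : Set (EuclideanSpace ℝ (Fin 3))) => (x : EuclideanSpace ℝ (Fin 3)) := by
  induction s using Finset.induction_on with
  | empty =>
    refine ⟨P, fun z => Metric.mem_ball_self hδ, by simp, fun T hT _ => ?_⟩
    obtain rfl : T = ∅ := by simpa using hT
    have : IsEmpty ((∅ : Finset (EuclideanSpace ℝ (Fin 3))) : Set (EuclideanSpace ℝ (Fin 3))) := by
      simp only [Finset.coe_empty]; infer_instance
    exact affineIndependent_of_subsingleton _ _
  | insert a s ha ih =>
    obtain ⟨Q, h1, h2, h3⟩ := ih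
    obtain ⟨p, hp, hn⟩ := exists_new (s.image Q) (P a) hδ
    have hu : ∀ z ∈ s, Function.update Q a p z = Q z := fun z hz =>
      Function.update_of_ne (fun e : z = a => ha (e ▸ hz)) _ _
    have hpn : ∀ z ∈ s, Q z ≠ p := fun z hz e =>
      hn {Q z} (by simpa using ⟨z, hz, rfl⟩) (by simp) (mem_affineSpan ℝ (by simp [e]))
    have him : (insert a s).image (Function.update Q a p) = insert p (s.image Q) := by
      rw [Finset.image_insert, Function.update_self, Finset.image_congr fun z hz => hu z hz]
    refine ⟨Function.update Q a p, fun z => ?_, fun x hx y hy e => ?_, fun T hT hc => ?_⟩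
    · by_cases e : z = a
      · rw [e, Function.update_self]
        exact hp
      · rw [Function.update_of_ne e]
        exact h1 z
    · rcases Finset.mem_insert.1 (Finset.mem_coe.1 hx) with hx | hx <;>
        rcases Finset.mem_insert.1 (Finset.mem_coe.1 hy) with hy | hy
      · rw [hx, hy]
      · rw [hx, Function.update_self, hu y hy] at e
        exact absurd e.symm (hpn y hy)
      · rw [hy, Function.update_self, hu x hx] at e
        exact absurd e (hpn x hx)
      · rw [hu x hx, hu y hy] at e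
        exact h2 hx hy e
    · rw [him] at hT
      by_cases e : p ∈ T
      · have hs : T.erase p ⊆ s.image Q := Finset.subset_insert_iff.1 hT
        have := Finset.card_erase_of_mem e
        exact step e (h3 _ hs (by omega)) (hn _ hs (by omega))
      · exact h3 T ((Finset.subset_insert_iff_of_notMem e).1 hT) hc

end GENA

theorem p_GEN : S_GEN := by
  intro α _ P δ hδ
  obtain ⟨P', h1, h2, h3⟩ := GENA.main (fun z => WithLp.toLp 2 (P z)) hδ Finset.univ
  refine ⟨P', fun z i => ?_, fun x y e => h2 (by simp) (by simp) e, fun T hT hc =>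
    h3 T (fun p hp => by simpa using hT p hp) hc⟩
  have := PiLp.norm_apply_le (P' z - WithLp.toLp 2 (P z)) i
  have h := mem_ball_iff_norm.1 (h1 z)
  simp only [PiLp.sub_apply, Real.norm_eq_abs] at this
  exact this.trans h.le

end Pool.Agent.Fur
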