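import Pool.Agent.P.MP_358d01_co.Fur.Base0

set_option autoImplicit false

namespace Pool.Agent.Fur

open Classical

namespace THKA

/-- The rank of a coordinate. -/
noncomputable def rk {κ : Type} [Fintype κ] [LinearOrder κ] (c : κ) : ℕ :=
  (Finset.univ.filter fun c' => c' < c).card

theorem rk_le {κ : Type} [Fintype κ] [LinearOrder κ] (c : κ) : rk c ≤ Fintype.card κ := by
  unfold rk
  exact Finset.card_le_univ _

theorem rk_lt {κ : Type} [Fintype κ] [LinearOrder κ] {c c' : κ} (h : c < c') : rk c + 1 ≤ rk c' := by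
  unfold rk
  apply Finset.card_lt_card
  refine ⟨fun a ha => ?_, fun hsub => ?_⟩
  · simp only [Finset.mem_filter, Finset.mem_univ, true_and] at ha ⊢
    exact ha.trans h
  · have := hsub (show c ∈ Finset.univ.filter fun a => a < c' by simpa using h)
    simp at this

/-- The points of the tree. -/
noncomputable def pt {κ : Type} [Fintype κ] [LinearOrder κ] (u : κ → Fin 3 → ℝ) (lam : ℝ)
    (z : κ → Bool) (i : Fin 3) : ℝ :=
  ∑ c, if z c = true then lam ^ rk c * u c i else 0

theorem key {κ : Type} [Fintype κ] [LinearOrder κ] (u : κ → Fin 3 → ℝ) (lam U γ : ℝ)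
    (h0 : 0 < lam) (h1 : lam ≤ 1) (hU : ∀ c i, |u c i| ≤ U)
    (hl : (Fintype.card κ : ℝ) * lam * U ≤ γ / 2)
    (z z' : κ → Bool) (c : κ) (h : FD z z' c) (i : Fin 3) :
    |pt u lam z i - pt u lam z' i - sg (z c) * (lam ^ rk c * u c i)| ≤ lam ^ rk c * (γ / 2) := by
  have hU0 : 0 ≤ U := (abs_nonneg _).trans (hU c i)
  set f : κ → ℝ := fun a => (if z a = true then lam ^ rk a * u a i else 0) -
    (if z' a = true then lam ^ rk a * u a i else 0) with hf
  have e1 : pt u lam z i - pt u lam z' i = ∑ a, f a := by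
    unfold pt
    rw [← Finset.sum_sub_distrib]
  have e2 : f c = sg (z c) * (lam ^ rk c * u c i) := by
    have hne := h.1
    simp only [hf, sg]
    cases hz : z c <;> cases hz' : z' c <;> simp_all
  have e3 : ∑ a, f a = f c + ∑ a ∈ Finset.univ.erase c, f a :=
    (Finset.add_sum_erase _ _ (Finset.mem_univ c)).symm
  have hb : ∀ a ∈ Finset.univ.erase c, |f a| ≤ lam ^ (rk c + 1) * U := by
    intro a ha
    have hac : a ≠ c := (Finset.mem_erase.mp ha).1
    have hpos : 0 ≤ lam ^ (rk c + 1) * U := mul_nonneg (pow_pos h0 _).le hU0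
    rcases lt_or_gt_of_ne hac with hlt | hgt
    · have := h.2 a hlt
      simp only [hf, this, sub_self, abs_zero]
      exact hpos
    · have hw : |lam ^ rk a * u a i| ≤ lam ^ (rk c + 1) * U := by
        rw [abs_mul, abs_of_pos (pow_pos h0 _)]
        exact mul_le_mul (pow_le_pow_of_le_one h0.le h1 (rk_lt hgt)) (hU a i) (abs_nonneg _)
          (pow_pos h0 _).le
      simp only [hf]
      split_ifs
      · rw [sub_self, abs_zero]; exact hpos
      · rw [sub_zero]; exact hw
      · rw [zero_sub, abs_neg]; exact hw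
      · rw [sub_self, abs_zero]; exact hpos
  rw [e1, e3, e2, add_sub_cancel_left]
  calc |∑ a ∈ Finset.univ.erase c, f a| ≤ ∑ a ∈ Finset.univ.erase c, |f a| :=
        Finset.abs_sum_le_sum_abs _ _
    _ ≤ ∑ _a ∈ Finset.univ.erase c, lam ^ (rk c + 1) * U := Finset.sum_le_sum hb
    _ ≤ ∑ _a : κ, lam ^ (rk c + 1) * U :=
        Finset.sum_le_sum_of_subset_of_nonneg (Finset.subset_univ _)
          fun _ _ _ => mul_nonneg (pow_pos h0 _).le hU0
    _ = lam ^ rk c * ((Fintype.card κ : ℝ) * lam * U) := by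
        rw [Finset.sum_const, Finset.card_univ, nsmul_eq_mul, pow_succ]; ring
    _ ≤ lam ^ rk c * (γ / 2) := mul_le_mul_of_nonneg_left hl (pow_pos h0 _).le

end THKA

theorem p_THK : S_THK := by
  intro κ _ _ u γ hγ
  set U : ℝ := 1 + ∑ c, ∑ i, |u c i| with hUdef
  have hU : ∀ c i, |u c i| ≤ U := by
    intro c i
    have a1 : |u c i| ≤ ∑ j, |u c j| :=
      Finset.single_le_sum (f := fun j => |u c j|) (fun _ _ => abs_nonneg _) (Finset.mem_univ i)
    have a2 : ∑ j, |u c j| ≤ ∑ c', ∑ j, |u c' j| :=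
      Finset.single_le_sum (f := fun c' => ∑ j, |u c' j|)
        (fun _ _ => Finset.sum_nonneg fun _ _ => abs_nonneg _) (Finset.mem_univ c)
    linarith
  have hU1 : 1 ≤ U := by
    have : 0 ≤ ∑ c, ∑ i, |u c i| :=
      Finset.sum_nonneg fun _ _ => Finset.sum_nonneg fun _ _ => abs_nonneg _
    linarith
  set N : ℝ := (Fintype.card κ : ℝ) with hN
  have hN0 : 0 ≤ N := Nat.cast_nonneg _
  have hden : 0 < 2 * (N + 1) * U := by positivity
  set lam : ℝ := min 1 (γ / (2 * (N + 1) * U)) with hlam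
  have h0 : 0 < lam := lt_min one_pos (div_pos hγ hden)
  have h1 : lam ≤ 1 := min_le_left _ _
  have h2 : lam * (2 * (N + 1) * U) ≤ γ := (le_div_iff₀ hden).mp (min_le_right _ _)
  have hl : N * lam * U ≤ γ / 2 := by
    have : 0 ≤ lam * U := mul_nonneg h0.le (by linarith)
    nlinarith
  refine ⟨THKA.pt u lam, lam ^ Fintype.card κ * γ / 4, by positivity, ?_⟩
  intro P' hP z z' c θ hfd hpos
  have hp : 0 < lam ^ THKA.rk c := pow_pos h0 _
  have hle : lam ^ Fintype.card κ ≤ lam ^ THKA.rk c :=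
    pow_le_pow_of_le_one h0.le h1 (THKA.rk_le c)
  have hle' : lam ^ Fintype.card κ * γ ≤ lam ^ THKA.rk c * γ :=
    mul_le_mul_of_nonneg_right hle hγ.le
  have hb : ∀ i, |P' z i - P' z' i - sg (z c) * (lam ^ THKA.rk c * u c i)| ≤
      lam ^ THKA.rk c * γ := by
    intro i
    have k1 := abs_le.mp (THKA.key u lam U γ h0 h1 hU hl z z' c hfd i)
    have k2 := abs_le.mp (hP z i)
    have k3 := abs_le.mp (hP z' i)
    rw [abs_le]
    constructor <;> linarith [k1.1, k1.2, k2.1, k2.2, k3.1, k3.2]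
  have hs : ∑ i, θ i * (P' z i - P' z' i) ≤
      lam ^ THKA.rk c * (sg (z c) * ∑ i, θ i * u c i + γ * ∑ i, |θ i|) := by
    rw [Finset.mul_sum, Finset.mul_sum, ← Finset.sum_add_distrib, Finset.mul_sum]
    refine Finset.sum_le_sum fun i _ => ?_
    have k1 : θ i * (P' z i - P' z' i - sg (z c) * (lam ^ THKA.rk c * u c i)) ≤
        |θ i| * (lam ^ THKA.rk c * γ) := by
      refine (le_abs_self _).trans ?_
      rw [abs_mul]
      exact mul_le_mul_of_nonneg_left (hb i) (abs_nonneg _)
    nlinarith [k1]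
  have hq : 0 < sg (z c) * ∑ i, θ i * u c i + γ * ∑ i, |θ i| :=
    (mul_pos_iff_of_pos_left hp).mp (hpos.trans_le hs)
  constructor
  · intro hz
    rw [hz] at hq
    simpa [sg] using hq
  · intro hz
    rw [hz] at hq
    simp only [sg, Bool.false_eq_true, if_false] at hq
    linarith

end Pool.Agent.Fur
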