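import Pool.Agent.P.MP_358d01_co.Fur.Base0

set_option autoImplicit false

/-! Tools about the abstract system. -/

namespace Pool.Agent.Fur

open Classical

theorem sg_sq (b : Bool) : sg b * sg b = 1 := by cases b <;> simp [sg]

theorem abs_sg (b : Bool) : |sg b| = 1 := by cases b <;> simp [sg]

theorem sg_not (b : Bool) : sg (!b) = -sg b := by cases b <;> simp [sg]

theorem sg_mul_of_ne {o b : Bool} (h : b ≠ o) : sg o * sg b = -1 := by
  cases o <;> cases b <;> simp_all [sg]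

theorem abs_step_le (D r y : ℕ) : |step D r y| ≤ 1 / 2 := by
  unfold step
  split_ifs with h h1 h2
  · have hr : (1 : ℝ) ≤ r := by exact_mod_cast h.1
    rw [abs_of_nonneg (by positivity)]
    exact one_div_le_one_div_of_le (by norm_num) (by linarith)
  · have hr : (r : ℝ) + 1 + 1 ≤ D := by exact_mod_cast h.2
    have : (0 : ℝ) < 2 * ((D : ℝ) - 1 - r) := by linarith
    rw [abs_neg, abs_of_nonneg (by positivity)]
    exact one_div_le_one_div_of_le (by norm_num) (by linarith)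
  · simp
  · simp

theorem sum_step_lt {D r : ℕ} (h0 : 0 < r) (h1 : r + 1 < D) :
    ∑ y ∈ Finset.range D, (if y < r then step D r y else 0) = 1 / 2 := by
  have hr : (0 : ℝ) < r := by exact_mod_cast h0
  rw [← Finset.sum_filter]
  have e : (Finset.range D).filter (fun y => y < r) = Finset.range r := by
    ext y; simp only [Finset.mem_filter, Finset.mem_range]; omega
  rw [e, Finset.sum_congr rfl (g := fun _ => 1 / (2 * (r : ℝ)))]
  · simp only [Finset.sum_const, Finset.card_range, nsmul_eq_mul]; field_simp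
  · intro y hy
    have := Finset.mem_range.1 hy
    simp [step, h0, h1, this]

theorem sum_step_gt {D r : ℕ} (h0 : 0 < r) (h1 : r + 1 < D) :
    ∑ y ∈ Finset.range D, (if r < y then step D r y else 0) = -(1 / 2) := by
  have hr : (r : ℝ) + 1 + 1 ≤ D := by exact_mod_cast h1
  have hp : (0 : ℝ) < (D : ℝ) - 1 - r := by linarith
  rw [← Finset.sum_filter]
  have e : (Finset.range D).filter (fun y => r < y) = Finset.Ico (r + 1) D := by
    ext y; simp only [Finset.mem_filter, Finset.mem_range, Finset.mem_Ico]; omega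
  rw [e, Finset.sum_congr rfl (g := fun _ => -(1 / (2 * ((D : ℝ) - 1 - r))))]
  · simp only [Finset.sum_const, Nat.card_Ico, nsmul_eq_mul]
    rw [Nat.cast_sub (by omega)]
    push_cast
    have : (D : ℝ) - (r + 1) = D - 1 - r := by ring
    rw [this]; field_simp
  · intro y hy
    have := Finset.mem_Ico.1 hy
    have h2 : ¬ y < r := by omega
    have h3 : r < y := by omega
    simp [step, h0, h1, h2, h3]

theorem step_self (D r : ℕ) : step D r r = 0 := by simp [step]

theorem sum_step {D r : ℕ} : ∑ y ∈ Finset.range D, step D r y = 0 := by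
  by_cases h : 0 < r ∧ r + 1 < D
  · have e : ∀ y, step D r y =
        (if y < r then step D r y else 0) + (if r < y then step D r y else 0) := by
      intro y
      rcases lt_trichotomy y r with hl | rfl | hl
      · simp [hl, not_lt.2 hl.le]
      · simp [step_self]
      · simp [hl, not_lt.2 hl.le]
    rw [Finset.sum_congr rfl (fun y _ => e y), Finset.sum_add_distrib, sum_step_lt h.1 h.2,
      sum_step_gt h.1 h.2]
    norm_num
  · simp [step, h]

/-- Without branching the drops add up to a number that is not negative. -/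
theorem sum_dec_nonneg (o b : Bool) (D r : ℕ) : 0 ≤ ∑ y ∈ Finset.range D, dec o b D r y := by
  unfold dec
  split_ifs with h
  · exact Finset.sum_nonneg fun y _ => by split_ifs <;> norm_num
  · rw [← Finset.mul_sum, sum_step, mul_zero]

/-- With branching the drops add up to one. -/
theorem sum_dec_branch {o b : Bool} (hb : b ≠ o) {D r : ℕ} (hr : r < D) :
    ∑ y ∈ Finset.range D, (if y ≤ r then dec o o D r y else dec o b D r y) = 1 := by
  by_cases h : r = 0 ∨ r + 1 = D
  · simp only [dec, h, if_true, ite_self]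
    rw [Finset.sum_ite_eq' (Finset.range D) r (fun _ => (1 : ℝ))]
    simp [hr]
  · have h0 : 0 < r := by omega
    have h1 : r + 1 < D := by omega
    have e : ∀ y, (if y ≤ r then dec o o D r y else dec o b D r y) =
        (if y < r then step D r y else 0) - (if r < y then step D r y else 0) := by
      intro y
      simp only [dec, h, if_false, sg_sq, sg_mul_of_ne hb]
      rcases lt_trichotomy y r with hl | rfl | hl
      · simp [hl, hl.le, not_lt.2 hl.le]
      · simp [step_self]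
      · simp [hl, not_lt.2 hl.le, not_le.2 hl]
    rw [Finset.sum_congr rfl (fun y _ => e y), Finset.sum_sub_distrib, sum_step_lt h0 h1,
      sum_step_gt h0 h1]
    norm_num

/-- Averaging over one digit: if `I` does not see the digit `i`, the digit can be summed out. -/
theorem sum_digit {R D : ℕ} (i : Fin R) (I : (Fin R → Fin D) → ℝ)
    (hI : ∀ g y, I (Function.update g i y) = I g) (F : ℕ → ℝ) :
    (D : ℝ) * ∑ g : Fin R → Fin D, I g * F (g i) =
      (∑ y ∈ Finset.range D, F y) * ∑ g : Fin R → Fin D, I g := by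
  have e1 : (D : ℝ) * ∑ g : Fin R → Fin D, I g * F (g i) =
      ∑ p : (Fin R → Fin D) × Fin D, I p.1 * F (p.1 i) := by
    rw [Fintype.sum_prod_type, Finset.mul_sum]
    refine Finset.sum_congr rfl fun g _ => ?_
    simp
  have e2 : (∑ y ∈ Finset.range D, F y) * ∑ g : Fin R → Fin D, I g =
      ∑ p : (Fin R → Fin D) × Fin D, I p.1 * F p.2 := by
    rw [Fintype.sum_prod_type, Finset.mul_sum, ← Fin.sum_univ_eq_sum_range (fun y => F y) D]
    refine Finset.sum_congr rfl fun g _ => ?_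
    rw [Finset.sum_mul]
    exact Finset.sum_congr rfl fun y _ => mul_comm _ _
  rw [e1, e2]
  let σ : (Fin R → Fin D) × Fin D → (Fin R → Fin D) × Fin D :=
    fun p => (Function.update p.1 i p.2, p.1 i)
  have hσ : Function.Involutive σ := by
    intro p
    simp [σ]
  rw [← Equiv.sum_comp hσ.toPerm]
  refine Finset.sum_congr rfl fun p _ => ?_
  simp [σ, hI]

namespace Sys

variable {Γ : Type} [AddCommGroup Γ] (s : Sys Γ)

theorem cand_eta (c : s.Cand) : ∃ (β : Fin s.B) (ζ : Γ), c = toLex (β, ζ) := ⟨(ofLex c).1, (ofLex c).2, rfl⟩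

@[simp] theorem bt_mk (β : Fin s.B) (ζ : Γ) : s.bt (toLex (β, ζ)) = β := rfl

@[simp] theorem bl_mk (β : Fin s.B) (ζ : Γ) : s.bl (toLex (β, ζ)) = ζ := rfl

theorem bt_lt (c : s.Cand) : s.bt c < s.B := (ofLex c).1.2

theorem cand_ext {c c' : s.Cand} (h1 : s.bt c = s.bt c') (h2 : s.bl c = s.bl c') : c = c' := by
  obtain ⟨β, ζ, rfl⟩ := s.cand_eta c
  obtain ⟨β', ζ', rfl⟩ := s.cand_eta c'
  have e1 : β = β' := Fin.ext h1
  have e2 : ζ = ζ' := h2
  rw [e1, e2]

theorem run_lt {β : ℕ} (h : β < s.B) : β / s.Tb < s.R :=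
  Nat.div_lt_of_lt_mul (by rw [Nat.mul_comm]; exact h)

theorem cn_bt (ω : s.Coin) (c : s.Cand) : s.cn ω (s.bt c) (s.bl c) = ω c := by
  unfold cn
  rw [dif_pos (s.bt_lt c)]
  rfl

theorem cn_mk (ω : s.Coin) {β : ℕ} (h : β < s.B) (ζ : Γ) :
    s.cn ω β ζ = ω (toLex (⟨β, h⟩, ζ)) := by
  unfold cn
  rw [dif_pos h]

theorem yv_fin (g : s.Tm) (i : Fin s.R) : s.yv g i = g i := by
  unfold yv
  rw [dif_pos i.2]

theorem yv_lt (hD : 0 < s.D) (g : s.Tm) (ρ : ℕ) : s.yv g ρ < s.D := by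
  unfold yv
  split_ifs
  · exact (g _).2
  · exact hD

theorem yv_agree {ρ ρ' : ℕ} {g g' : s.Tm} (h : s.agree ρ g g') (hρ : ρ' < ρ) :
    s.yv g ρ' = s.yv g' ρ' := by
  unfold yv
  split_ifs with h1
  · rw [h ⟨ρ', h1⟩ hρ]
  · rfl

theorem agree_mono {ρ ρ' : ℕ} {g g' : s.Tm} (h : s.agree ρ g g') (hρ : ρ' ≤ ρ) :
    s.agree ρ' g g' := fun i hi => h i (lt_of_lt_of_le hi hρ)

theorem agree_symm {ρ : ℕ} {g g' : s.Tm} (h : s.agree ρ g g') : s.agree ρ g' g :=
  fun i hi => (h i hi).symm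

theorem agree_update (g : s.Tm) (i : Fin s.R) (y : Fin s.D) :
    s.agree i (Function.update g i y) g := by
  intro i' hi
  have : i' ≠ i := fun e => by rw [e] at hi; exact lt_irrefl _ hi
  rw [Function.update_of_ne this]

theorem S_zero (ω : s.Coin) (ζ : Γ) (r : ℕ) (g : s.Tm) : s.S ω 0 ζ r g = 0 := rfl

theorem U_zero (ω : s.Coin) (ζ : Γ) (g : s.Tm) : ¬ s.U ω 0 ζ g := fun h => h

theorem S_succ (ω : s.Coin) (β : ℕ) (ζ : Γ) (r : ℕ) (g : s.Tm) :
    s.S ω (β + 1) ζ r g = s.S ω β ζ r g +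
      if s.play ω β (ζ - s.sh β g) then
        sg (s.cn ω β (ζ - s.sh β g)) * step s.D r (s.yv g (β / s.Tb)) else 0 := rfl

theorem U_succ (ω : s.Coin) (β : ℕ) (ζ : Γ) (g : s.Tm) :
    s.U ω (β + 1) ζ g ↔
      (β + 1) / s.Tb = β / s.Tb ∧ (s.U ω β ζ g ∨ s.play ω β (ζ - s.sh β g)) := Iff.rfl

theorem play_iff (ω : s.Coin) (β : ℕ) (ζ : Γ) :
    s.play ω β ζ ↔ ∀ g : s.Tm, ¬ s.U ω β (ζ + s.sh β g) g ∧
      ∀ r, r < s.D → |s.S ω β (ζ + s.sh β g) r g| ≤ s.φ := Iff.rfl

theorem S_eq_sum (ω : s.Coin) (β : ℕ) (ζ : Γ) (r : ℕ) (g : s.Tm) :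
    s.S ω β ζ r g = ∑ β' ∈ Finset.range β, if s.play ω β' (ζ - s.sh β' g) then
      sg (s.cn ω β' (ζ - s.sh β' g)) * step s.D r (s.yv g (β' / s.Tb)) else 0 := by
  induction β with
  | zero => simp [S_zero]
  | succ β ih => rw [S_succ, Finset.sum_range_succ, ih]

theorem U_iff (ω : s.Coin) (β : ℕ) (ζ : Γ) (g : s.Tm) :
    s.U ω β ζ g ↔ ∃ β', β' < β ∧ β' / s.Tb = β / s.Tb ∧ s.play ω β' (ζ - s.sh β' g) := by
  induction β with
  | zero => simp [U_zero]
  | succ β ih =>
    rw [U_succ, ih]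
    constructor
    · rintro ⟨h, ⟨β', h1, h2, h3⟩ | h3⟩
      · exact ⟨β', by omega, by rw [h2, h], h3⟩
      · exact ⟨β, by omega, h.symm, h3⟩
    · rintro ⟨β', h1, h2, h3⟩
      have m1 : β' / s.Tb ≤ β / s.Tb := Nat.div_le_div_right (by omega)
      have m2 : β / s.Tb ≤ (β + 1) / s.Tb := Nat.div_le_div_right (by omega)
      refine ⟨by omega, ?_⟩
      rcases Nat.lt_succ_iff_lt_or_eq.1 h1 with hl | rfl
      · exact Or.inl ⟨β', hl, by omega, h3⟩
      · exact Or.inr h3

/-- In one run a block is met at most once at a given time. -/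
theorem once {ω : s.Coin} {β β' : ℕ} {ζ : Γ} {g : s.Tm} (hr : β' / s.Tb = β / s.Tb)
    (h : s.play ω β (ζ - s.sh β g)) (h' : s.play ω β' (ζ - s.sh β' g)) : β = β' := by
  have key : ∀ {b b' : ℕ}, b' < b → b' / s.Tb = b / s.Tb → s.play ω b (ζ - s.sh b g) →
      s.play ω b' (ζ - s.sh b' g) → False := by
    intro b b' hl hr h h'
    have := ((s.play_iff ω b _).1 h g).1
    rw [sub_add_cancel] at this
    exact this ((s.U_iff ω b ζ g).2 ⟨b', hl, hr, h'⟩)
  rcases lt_trichotomy β β' with hl | he | hl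
  · exact (key hl hr.symm h' h).elim
  · exact he
  · exact (key hl hr h h').elim

/-- Two played candidates of one run that meet the same block at some time are equal. -/
theorem eq_of_blk {ω : s.Coin} {c c' : s.Cand} {g : s.Tm}
    (hr : s.bt c' / s.Tb = s.bt c / s.Tb) (h : s.play ω (s.bt c) (s.bl c))
    (h' : s.play ω (s.bt c') (s.bl c')) (hb : s.blk c g = s.blk c' g) : c = c' := by
  have e1 : s.bl c = s.blk c g - s.sh (s.bt c) g := by simp [blk]
  have e2 : s.bl c' = s.blk c g - s.sh (s.bt c') g := by rw [hb]; simp [blk]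
  have e : s.bt c = s.bt c' := s.once hr (e1 ▸ h) (e2 ▸ h')
  exact s.cand_ext e (by rw [e1, e2, e])

theorem abs_S_le (hφ : 0 < s.φ) (ω : s.Coin) (β : ℕ) (ζ : Γ) {r : ℕ} (hr : r < s.D) (g : s.Tm) :
    |s.S ω β ζ r g| ≤ s.φ + 1 / 2 := by
  induction β with
  | zero => rw [S_zero, abs_zero]; linarith
  | succ β ih =>
    rw [S_succ]
    split_ifs with h
    · have h1 := ((s.play_iff ω β _).1 h g).2 r hr
      rw [sub_add_cancel] at h1
      refine (abs_add_le _ _).trans (add_le_add h1 ?_)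
      rw [abs_mul, abs_sg, one_mul]
      exact abs_step_le _ _ _
    · rwa [add_zero]

/-- Locality: the state on a coset of `H'` depends only on the earlier coins on that coset. -/
theorem loc (H' : AddSubgroup Γ) (ζ0 : Γ) (ω ω' : s.Coin) (β : ℕ)
    (hsh : ∀ β', β' < β → ∀ g, s.sh β' g ∈ H')
    (hω : ∀ β', β' < β → ∀ ζ', ζ' - ζ0 ∈ H' → s.cn ω β' ζ' = s.cn ω' β' ζ') :
    ∀ ζ, ζ - ζ0 ∈ H' → (∀ r g, s.S ω β ζ r g = s.S ω' β ζ r g) ∧
      (∀ g, s.U ω β ζ g ↔ s.U ω' β ζ g) := by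
  induction β with
  | zero => exact fun ζ _ => ⟨fun _ _ => rfl, fun _ => Iff.rfl⟩
  | succ β ih =>
    have ih' := ih (fun β' h => hsh β' (by omega)) (fun β' h => hω β' (by omega))
    have hp : ∀ ζ, ζ - ζ0 ∈ H' → (s.play ω β ζ ↔ s.play ω' β ζ) := by
      intro ζ hζ
      rw [play_iff, play_iff]
      refine forall_congr' fun g => ?_
      have hm : ζ + s.sh β g - ζ0 ∈ H' := by
        have := H'.add_mem hζ (hsh β (by omega) g)
        rwa [sub_add_eq_add_sub] at this
      rw [(ih' _ hm).2 g]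
      simp only [(ih' _ hm).1]
    intro ζ hζ
    have hm : ∀ g, ζ - s.sh β g - ζ0 ∈ H' := by
      intro g
      have := H'.sub_mem hζ (hsh β (by omega) g)
      rwa [sub_right_comm] at this
    refine ⟨fun r g => ?_, fun g => ?_⟩
    · rw [S_succ, S_succ, (ih' ζ hζ).1, hω β (by omega) _ (hm g)]
      simp only [hp _ (hm g)]
    · rw [U_succ, U_succ, (ih' ζ hζ).2, hp _ (hm g)]

/-- Only the coins of played candidates matter. -/
theorem ign (ω ω' : s.Coin) (β : ℕ)
    (hω : ∀ β', β' < β → ∀ ζ', s.play ω β' ζ' → s.cn ω β' ζ' = s.cn ω' β' ζ') :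
    s.st ω β = s.st ω' β := by
  induction β with
  | zero => rfl
  | succ β ih =>
    have ih' := ih (fun β' h => hω β' (by omega))
    have hp : ∀ ζ, s.play ω' β ζ ↔ s.play ω β ζ := fun ζ => by unfold play; rw [ih']
    refine Prod.ext ?_ ?_
    · funext ζ r g
      change s.S ω (β + 1) ζ r g = s.S ω' (β + 1) ζ r g
      have e : s.S ω β ζ r g = s.S ω' β ζ r g := by unfold S; rw [ih']
      rw [S_succ, S_succ, e]
      by_cases h : s.play ω β (ζ - s.sh β g)
      · rw [if_pos h, if_pos ((hp _).2 h), hω β (by omega) _ h]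
      · rw [if_neg h, if_neg (fun h' => h ((hp _).1 h'))]
    · funext ζ g
      change s.U ω (β + 1) ζ g = s.U ω' (β + 1) ζ g
      have e : s.U ω β ζ g = s.U ω' β ζ g := by unfold U; rw [ih']
      rw [U_succ, U_succ, e, hp]

theorem play_ign (ω ω' : s.Coin) (β : ℕ)
    (hω : ∀ β', β' < β → ∀ ζ', s.play ω β' ζ' → s.cn ω β' ζ' = s.cn ω' β' ζ') (ζ : Γ) :
    s.play ω β ζ ↔ s.play ω' β ζ := by
  unfold play
  rw [s.ign ω ω' β hω]

/-- The state before `β` depends only on the coins of the batches below `β`. -/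
theorem st_congr (ω ω' : s.Coin) (β : ℕ) (hω : ∀ c : s.Cand, s.bt c < β → ω c = ω' c) :
    s.st ω β = s.st ω' β := by
  refine s.ign ω ω' β fun β' h ζ' _ => ?_
  unfold cn
  split_ifs with h1
  · exact hω _ h
  · rfl

theorem play_congr (ω ω' : s.Coin) (β : ℕ) (hω : ∀ c : s.Cand, s.bt c < β → ω c = ω' c) (ζ : Γ) :
    s.play ω β ζ ↔ s.play ω' β ζ := by
  unfold play
  rw [s.st_congr ω ω' β hω]

theorem S_congr (ω ω' : s.Coin) (β : ℕ) (hω : ∀ c : s.Cand, s.bt c < β → ω c = ω' c) (ζ : Γ)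
    (r : ℕ) (g : s.Tm) : s.S ω β ζ r g = s.S ω' β ζ r g := by
  unfold S
  rw [s.st_congr ω ω' β hω]

/-- Translation of a coin vector. -/
def tr (γ : Γ) (ω : s.Coin) : s.Coin := fun c => ω (toLex ((ofLex c).1, (ofLex c).2 + γ))

theorem cn_tr (γ : Γ) (ω : s.Coin) (β : ℕ) (ζ : Γ) :
    s.cn (s.tr γ ω) β ζ = s.cn ω β (ζ + γ) := by
  unfold cn
  split_ifs
  · rfl
  · rfl

theorem st_tr (γ : Γ) (ω : s.Coin) (β : ℕ) : ∀ ζ,
    (∀ r g, s.S (s.tr γ ω) β ζ r g = s.S ω β (ζ + γ) r g) ∧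
      (∀ g, s.U (s.tr γ ω) β ζ g ↔ s.U ω β (ζ + γ) g) := by
  induction β with
  | zero => exact fun ζ => ⟨fun _ _ => rfl, fun _ => Iff.rfl⟩
  | succ β ih =>
    have hp : ∀ ζ, s.play (s.tr γ ω) β ζ ↔ s.play ω β (ζ + γ) := by
      intro ζ
      rw [play_iff, play_iff]
      refine forall_congr' fun g => ?_
      rw [(ih _).2 g, add_right_comm]
      simp only [(ih _).1, add_right_comm ζ (s.sh β g) γ]
    intro ζ
    refine ⟨fun r g => ?_, fun g => ?_⟩
    · rw [S_succ, S_succ, (ih ζ).1, cn_tr]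
      simp only [hp, sub_add_eq_add_sub]
    · rw [U_succ, U_succ, (ih ζ).2, hp, sub_add_eq_add_sub]

theorem play_tr (γ : Γ) (ω : s.Coin) (β : ℕ) (ζ : Γ) :
    s.play (s.tr γ ω) β ζ ↔ s.play ω β (ζ + γ) := by
  rw [play_iff, play_iff]
  refine forall_congr' fun g => ?_
  rw [(s.st_tr γ ω β _).2 g, add_right_comm]
  simp only [(s.st_tr γ ω β _).1, add_right_comm ζ (s.sh β g) γ]

theorem tr_tr (γ : Γ) (ω : s.Coin) : s.tr (-γ) (s.tr γ ω) = ω := by
  funext c
  simp [tr]

/-- The number of coin vectors for which a candidate is played depends only on the batch. -/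
theorem np_eq (β : ℕ) (ζ : Γ) : s.np β ζ = s.np β 0 := by
  unfold np
  refine Set.ncard_congr (fun ω _ => s.tr ζ ω) ?_ ?_ ?_
  · intro ω h
    have h' : s.play ω β ζ := h
    change s.play (s.tr ζ ω) β 0
    rwa [play_tr, zero_add]
  · intro ω ω' _ _ h
    rw [← s.tr_tr ζ ω, h, tr_tr]
  · intro ω h
    have h' : s.play ω β 0 := h
    refine ⟨s.tr (-ζ) ω, ?_, ?_⟩
    · change s.play (s.tr (-ζ) ω) β ζ
      rwa [play_tr, add_neg_cancel]
    · have := s.tr_tr (-ζ) ω
      rwa [neg_neg] at this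

/-- The invariants: the used mark depends on the digits below the run, the walk on the digits up to
the run, and on the digits below the run while the block is unused. -/
theorem inv (hG : s.Good) (ω : s.Coin) (β : ℕ) : ∀ (ζ : Γ) (g g' : s.Tm),
    (s.agree (β / s.Tb) g g' → (s.U ω β ζ g ↔ s.U ω β ζ g')) ∧
    (s.agree (β / s.Tb + 1) g g' → ∀ r, s.S ω β ζ r g = s.S ω β ζ r g') ∧
    (s.agree (β / s.Tb) g g' → ¬ s.U ω β ζ g → ∀ r, s.S ω β ζ r g = s.S ω β ζ r g') := by
  induction β with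
  | zero => exact fun ζ g g' => ⟨fun _ => Iff.rfl, fun _ _ => rfl, fun _ _ _ => rfl⟩
  | succ β ih =>
    intro ζ g g'
    have m2 : β / s.Tb ≤ (β + 1) / s.Tb := Nat.div_le_div_right (by omega)
    have two : s.agree (β / s.Tb + 1) g g' → ∀ r, s.S ω (β + 1) ζ r g = s.S ω (β + 1) ζ r g' := by
      intro h r
      rw [S_succ, S_succ, (ih ζ g g').2.1 h r, hG.sh_agree β g g' (s.agree_mono h (by omega)),
        s.yv_agree h (Nat.lt_succ_self _)]
    refine ⟨fun h => ?_, fun h => two (s.agree_mono h (by omega)), fun h hU r => ?_⟩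
    · have h' := s.agree_mono h m2
      rw [U_succ, U_succ, (ih ζ g g').1 h', hG.sh_agree β g g' h']
    · by_cases he : (β + 1) / s.Tb = β / s.Tb
      · have h' := s.agree_mono h m2
        rw [U_succ] at hU
        have h1 : ¬ s.U ω β ζ g := fun x => hU ⟨he, Or.inl x⟩
        have h2 : ¬ s.play ω β (ζ - s.sh β g) := fun x => hU ⟨he, Or.inr x⟩
        rw [S_succ, S_succ, ← hG.sh_agree β g g' h', if_neg h2, if_neg h2, (ih ζ g g').2.2 h' h1 r]
      · exact two (s.agree_mono h (by omega)) r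

section order

variable [LinearOrder Γ]

theorem bt_le_of_lt {c c' : s.Cand} (h : c' < c) : s.bt c' ≤ s.bt c := by
  obtain ⟨β, ζ, rfl⟩ := s.cand_eta c
  obtain ⟨β', ζ', rfl⟩ := s.cand_eta c'
  rcases (lex_lt_iff _ _ _ _).1 h with hl | ⟨rfl, -⟩
  · exact le_of_lt hl
  · exact le_rfl

theorem lt_of_bt_lt {c c' : s.Cand} (h : s.bt c' < s.bt c) : c' < c := by
  obtain ⟨β, ζ, rfl⟩ := s.cand_eta c
  obtain ⟨β', ζ', rfl⟩ := s.cand_eta c'
  exact (lex_lt_iff _ _ _ _).2 (Or.inl h)

/-- Two coin vectors that agree below `c` play the same candidates in the batches up to that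
of `c`. -/
theorem play_below {x x' : s.Coin} {c : s.Cand} (h : ∀ c', c' < c → x c' = x' c') {β : ℕ}
    (hβ : β ≤ s.bt c) (ζ : Γ) : s.play x β ζ ↔ s.play x' β ζ :=
  s.play_congr x x' β (fun c' hc => h c' (s.lt_of_bt_lt (lt_of_lt_of_le hc hβ))) ζ

omit [LinearOrder Γ] in
theorem mem_leaves [Fintype Γ] {v x : s.Coin} : x ∈ s.leaves v ↔ ∀ c : s.Cand,
    (¬ s.real (s.bt c) (s.bl c) → x c = v c) ∧
    (s.real (s.bt c) (s.bl c) → ¬ s.play x (s.bt c) (s.bl c) → x c = true) := by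
  unfold leaves
  simp

/-- Two leaves first differ at a real candidate that is played. -/
theorem fd_real_play [Fintype Γ] {v x y : s.Coin} (hx : x ∈ s.leaves v) (hy : y ∈ s.leaves v)
    {c : s.Cand} (h : FD x y c) :
    s.real (s.bt c) (s.bl c) ∧ s.play x (s.bt c) (s.bl c) := by
  have hx' := s.mem_leaves.1 hx c
  have hy' := s.mem_leaves.1 hy c
  have hr : s.real (s.bt c) (s.bl c) := by
    by_contra hn
    exact h.1 ((hx'.1 hn).trans (hy'.1 hn).symm)
  refine ⟨hr, ?_⟩
  by_contra hn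
  have hn' : ¬ s.play y (s.bt c) (s.bl c) := fun hp => hn ((s.play_below h.2 le_rfl _).2 hp)
  exact h.1 ((hx'.2 hr hn).trans (hy'.2 hr hn').symm)

end order

end Sys

end Pool.Agent.Fur
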