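import Pool.Agent.P.MP_358d01_co.Fur.Iface

set_option autoImplicit false

/-! Small tools about first differences and counting. -/

namespace Pool.Agent.Fur

open Classical

theorem FD.symm {ι : Type} [LinearOrder ι] {x y : ι → Bool} {c : ι} (h : FD x y c) : FD y x c :=
  ⟨h.1.symm, fun c' hc => (h.2 c' hc).symm⟩

theorem FD.ne {ι : Type} [LinearOrder ι] {x y : ι → Bool} {c : ι} (h : FD x y c) : x ≠ y :=
  fun e => h.1 (by rw [e])

theorem FD.unique {ι : Type} [LinearOrder ι] {x y : ι → Bool} {c c' : ι} (h : FD x y c)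
    (h' : FD x y c') : c = c' := by
  rcases lt_trichotomy c c' with hl | he | hl
  · exact absurd (h'.2 c hl) h.1
  · exact he
  · exact absurd (h.2 c' hl) h'.1

/-- If two vectors differ at `c0`, they first differ at some `c ≤ c0`. -/
theorem exists_FD_le {ι : Type} [Finite ι] [LinearOrder ι] {x y : ι → Bool} {c0 : ι}
    (h : x c0 ≠ y c0) : ∃ c, c ≤ c0 ∧ FD x y c := by
  have hne : ({c | x c ≠ y c} : Set ι).Nonempty := ⟨c0, h⟩
  obtain ⟨c, hc, hmin⟩ := (Set.toFinite _).exists_minimal hne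
  refine ⟨c, ?_, hc, fun c' hc' => ?_⟩
  · by_contra hlt
    have hlt' : c0 < c := not_le.mp hlt
    exact absurd (hmin h hlt'.le) (not_le.mpr hlt')
  · by_contra hne'
    exact absurd (hmin hne' hc'.le) (not_le.mpr hc')

theorem exists_FD {ι : Type} [Finite ι] [LinearOrder ι] {x y : ι → Bool} (h : x ≠ y) :
    ∃ c, FD x y c := by
  obtain ⟨c0, hc0⟩ := Function.ne_iff.mp h
  obtain ⟨c, -, hc⟩ := exists_FD_le hc0
  exact ⟨c, hc⟩

theorem ncard_eq_filter {α : Type} [Fintype α] (p : α → Prop) [DecidablePred p] :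
    Set.ncard {a | p a} = (Finset.univ.filter p).card := by
  rw [← Set.ncard_coe_finset]
  congr 1
  ext a
  simp

theorem lex_lt_iff {α β : Type} [LinearOrder α] [LinearOrder β] (a a' : α) (b b' : β) :
    toLex (a, b) < toLex (a', b') ↔ a < a' ∨ (a = a' ∧ b < b') :=
  Prod.Lex.toLex_lt_toLex

/-- A first difference of two leaves of the whole tree is a first difference inside its stage, and
the earlier stages agree. -/
theorem FD_stage_iff {ι : Type} [LinearOrder ι] {T : ℕ} (z z' : Lex (Fin T × ι) → Bool)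
    (i : Fin T) (c : ι) :
    FD z z' (toLex (i, c)) ↔
      (∀ i', i' < i → stage z i' = stage z' i') ∧ FD (stage z i) (stage z' i) c := by
  constructor
  · intro h
    refine ⟨fun i' hi => funext fun c' => h.2 _ ((lex_lt_iff _ _ _ _).2 (Or.inl hi)), h.1,
      fun c' hc => h.2 _ ((lex_lt_iff _ _ _ _).2 (Or.inr ⟨rfl, hc⟩))⟩
  · rintro ⟨h1, h2⟩
    refine ⟨h2.1, fun e he => ?_⟩
    obtain ⟨i', c'⟩ := e
    rcases (lex_lt_iff i' i c' c).1 he with hl | ⟨rfl, hl⟩
    · exact congrFun (h1 i' hl) c'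
    · exact h2.2 c' hl

theorem eq_of_stage {ι : Type} {T : ℕ} {z z' : Lex (Fin T × ι) → Bool}
    (h : ∀ i, stage z i = stage z' i) : z = z' := by
  funext e
  obtain ⟨i, c⟩ := e
  exact congrFun (h i) c

end Pool.Agent.Fur
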