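import Mathlib

set_option autoImplicit false

/-! Definitions for the construction of large point sets in dimension three with few points in
convex position. -/

namespace Pool.Agent.Fur

open Classical

/-- `c` is the first coordinate where `x` and `y` differ. -/
def FD {ι : Type} [LinearOrder ι] (x y : ι → Bool) (c : ι) : Prop :=
  x c ≠ y c ∧ ∀ c', c' < c → x c' = y c'

/-- One stage of the construction: a set `X` of leaves, a line `a c + b c * t` for every coordinate,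
integer times `tm g`, and the three counting properties that the stage has to have. -/
structure Gad (ι G : Type) [LinearOrder ι] where
  X : Finset (ι → Bool)
  key : ι → G → ℤ
  a : ι → ℝ
  b : ι → ℝ
  tm : G → ℤ
  tol : ℝ
  Tb : ℕ
  k : ℕ
  Φ : ℕ
  Ns : ℕ
  tm_inj : Function.Injective tm
  tol_pos : 0 < tol
  tol_le : tol ≤ 1 / 2
  Tb_pos : 0 < Tb
  card_ge : 2 ^ k ≤ X.card
  line : ∀ x ∈ X, ∀ y ∈ X, ∀ c, FD x y c → ∀ (g : G) (t : ℝ), (tm g : ℝ) ≤ t → t ≤ tm g + tol →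
    (key c g : ℝ) ≤ a c + b c * t ∧ a c + b c * t ≤ key c g + 1 / 2
  slots : ∀ g, ∃ Z : Finset ℤ, Z.card ≤ Ns ∧
    ∀ x ∈ X, ∀ y ∈ X, ∀ c, FD x y c → key c g / (Tb : ℤ) ∈ Z
  slot_ne : ∀ g, ∀ x ∈ X, ∀ y ∈ X, ∀ y' ∈ X, ∀ c c', FD x y c → FD x y' c' → c ≠ c' →
    key c g / (Tb : ℤ) ≠ key c' g / (Tb : ℤ)
  cert : ∀ (o : Bool) (W : Finset ((ι → Bool) × G)) (q : (ι → Bool) × G → ℤ),
    (∀ w ∈ W, w.1 ∈ X) →
    (∀ w ∈ W, ∀ w' ∈ W, ∀ c, FD w.1 w'.1 c →
      (w.1 c = o → key c w.2 ≤ q w) ∧ (w.1 c ≠ o → q w ≤ key c w.2)) →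
    W.card ≤ Φ

/-- The sign of a coin. -/
def sg (b : Bool) : ℝ := if b = true then 1 else -1

/-- The step of the price walk in the zone `r` at the sibling time `y`. -/
noncomputable def step (D r y : ℕ) : ℝ :=
  if 0 < r ∧ r + 1 < D then
    (if y < r then 1 / (2 * (r : ℝ)) else if r < y then -(1 / (2 * ((D : ℝ) - 1 - r))) else 0)
  else 0

/-- The drop of the price for the orientation `o` after the coin `b`. -/
noncomputable def dec (o b : Bool) (D r y : ℕ) : ℝ :=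
  if r = 0 ∨ r + 1 = D then (if y = r then 1 else 0) else sg o * sg b * step D r y

/-- The abstract system behind one stage. -/
structure Sys (Γ : Type) [AddCommGroup Γ] where
  D : ℕ
  R : ℕ
  Tb : ℕ
  φ : ℝ
  sh : ℕ → (Fin R → Fin D) → Γ
  H : ℕ → AddSubgroup Γ
  ht : Γ → ℕ
  real : ℕ → Γ → Prop

namespace Sys

variable {Γ : Type} [AddCommGroup Γ] (s : Sys Γ)

/-- Times. -/
abbrev Tm : Type := Fin s.R → Fin s.D

/-- Number of batches. -/
abbrev B : ℕ := s.R * s.Tb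

/-- Candidates: a batch and a block. -/
abbrev Cand : Type := Lex (Fin s.B × Γ)

/-- Coin vectors. -/
abbrev Coin : Type := s.Cand → Bool

noncomputable instance instFintypeCoin [Fintype Γ] : Fintype s.Coin :=
  @Pi.instFintype s.Cand (fun _ => Bool) (Classical.decEq _) _ _

/-- The batch of a candidate. -/
def bt (c : s.Cand) : ℕ := ((ofLex c).1 : ℕ)

/-- The block of a candidate. -/
def bl (c : s.Cand) : Γ := (ofLex c).2

/-- The digit of the time `g` in the run `ρ`. -/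
def yv (g : s.Tm) (ρ : ℕ) : ℕ := if h : ρ < s.R then (g ⟨ρ, h⟩ : ℕ) else 0

/-- Two times have the same digits below `ρ`. -/
def agree (ρ : ℕ) (g g' : s.Tm) : Prop := ∀ i : Fin s.R, (i : ℕ) < ρ → g i = g' i

/-- The coin of the candidate `(β, ζ)`. -/
def cn (ω : s.Coin) (β : ℕ) (ζ : Γ) : Bool :=
  if h : β < s.B then ω (toLex (⟨β, h⟩, ζ)) else true

/-- Admissibility of the candidate `(β, ζ)` in a state. -/
def ok (p : (Γ → ℕ → s.Tm → ℝ) × (Γ → s.Tm → Prop)) (β : ℕ) (ζ : Γ) : Prop :=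
  ∀ g : s.Tm, ¬ p.2 (ζ + s.sh β g) g ∧ ∀ r, r < s.D → |p.1 (ζ + s.sh β g) r g| ≤ s.φ

/-- The state before the batch `β`: the walk and the used marks. -/
noncomputable def st (ω : s.Coin) : ℕ → (Γ → ℕ → s.Tm → ℝ) × (Γ → s.Tm → Prop)
  | 0 => (fun _ _ _ => 0, fun _ _ => False)
  | β + 1 =>
    (fun ζ r g => (st ω β).1 ζ r g +
        if s.ok (st ω β) β (ζ - s.sh β g) then
          sg (s.cn ω β (ζ - s.sh β g)) * step s.D r (s.yv g (β / s.Tb)) else 0,
      fun ζ g => (β + 1) / s.Tb = β / s.Tb ∧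
        ((st ω β).2 ζ g ∨ s.ok (st ω β) β (ζ - s.sh β g)))

/-- The walk before the batch `β`. -/
noncomputable def S (ω : s.Coin) (β : ℕ) (ζ : Γ) (r : ℕ) (g : s.Tm) : ℝ := (s.st ω β).1 ζ r g

/-- The block `ζ` has been used at the time `g` in the current run before the batch `β`. -/
def U (ω : s.Coin) (β : ℕ) (ζ : Γ) (g : s.Tm) : Prop := (s.st ω β).2 ζ g

/-- The candidate `(β, ζ)` is played. -/
def play (ω : s.Coin) (β : ℕ) (ζ : Γ) : Prop := s.ok (s.st ω β) β ζ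

/-- The standing assumptions. -/
structure Good : Prop where
  D3 : 3 ≤ s.D
  Tb_pos : 0 < s.Tb
  φ_pos : 0 < s.φ
  sh_agree : ∀ β g g', s.agree (β / s.Tb) g g' → s.sh β g = s.sh β g'
  sh_mem : ∀ β' β g, β' < β → β < s.B → s.sh β' g ∈ s.H β
  sh_sep : ∀ β g g', β < s.B → s.sh β g - s.sh β g' ∈ s.H β → s.agree (β / s.Tb) g g'
  ht_inj : Function.Injective s.ht

/-- The block met by a candidate at the time `g`. -/
def blk (c : s.Cand) (g : s.Tm) : Γ := s.bl c + s.sh (s.bt c) g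

/-- The height of the zone met by a candidate at the time `g`. -/
def zh (c : s.Cand) (g : s.Tm) : ℕ := s.D * s.ht (s.blk c g) + s.yv g (s.bt c / s.Tb)

/-- The integer position of a candidate at the time `g`. -/
def key (c : s.Cand) (g : s.Tm) : ℤ := ((s.zh c g * s.B + s.bt c : ℕ) : ℤ)

/-- The leaves for the fixed vector `v` of coins of the virtual candidates. -/
noncomputable def leaves [Fintype Γ] (v : s.Coin) : Finset s.Coin :=
  Finset.univ.filter fun x => ∀ c : s.Cand,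
    (¬ s.real (s.bt c) (s.bl c) → x c = v c) ∧
    (s.real (s.bt c) (s.bl c) → ¬ s.play x (s.bt c) (s.bl c) → x c = true)

/-- The number of coin vectors for which `(β, ζ)` is played. -/
noncomputable def np (β : ℕ) (ζ : Γ) : ℕ := Set.ncard {ω : s.Coin | s.play ω β ζ}

/-- The reserve of the zone `r` at the time `g`. -/
noncomputable def res (r : ℕ) (g : s.Tm) : ℝ :=
  if r = 0 ∨ r + 1 = s.D then ((Finset.univ.filter fun i : Fin s.R => (g i : ℕ) = r).card : ℝ) else 0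

/-- The price of the zone `(ζ, r)` at the time `g` after the candidates in `A`. -/
noncomputable def price (x : s.Coin) (o : Bool) (A : Finset s.Cand) (ζ : Γ) (r : ℕ) (g : s.Tm) : ℝ :=
  s.φ + 1 / 2 + s.res r g -
    ∑ c ∈ A, if s.play x (s.bt c) (s.bl c) ∧ s.blk c g = ζ then
      dec o (x c) s.D r (s.yv g (s.bt c / s.Tb)) else 0

/-- The active cell of the zone `(ζ, r)` at the time `g` lies in the region cut out by `K`. -/
def In (x : s.Coin) (o : Bool) (K : Finset s.Cand) (ζ : Γ) (r : ℕ) (g : s.Tm) : Prop :=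
  ∀ c ∈ K, (s.zh c g ≤ s.D * s.ht ζ + r ↔ x c = o)

/-- The potential of the region cut out by `K` after the candidates in `A`. -/
noncomputable def pot [Fintype Γ] (x : s.Coin) (o : Bool) (A K : Finset s.Cand) : ℝ :=
  ∑ ζ : Γ, ∑ r ∈ Finset.range s.D, ∑ g : s.Tm, if s.In x o K ζ r g then s.price x o A ζ r g else 0

end Sys

/-- The leaf of the stage `i` inside a leaf of the whole tree. -/
def stage {ι : Type} {T : ℕ} (z : Lex (Fin T × ι) → Bool) (i : Fin T) : ι → Bool :=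
  fun c => z (toLex (i, c))

/-- A coordinate where two leaves of the stage first differ. -/
def Gad.Act {ι G : Type} [LinearOrder ι] (d : Gad ι G) (c : ι) : Prop :=
  ∃ x ∈ d.X, ∃ y ∈ d.X, FD x y c

/-- The affine form of the coordinate `c` in the stage `i`. -/
def Gad.L {ι G : Type} [LinearOrder ι] (d : Gad ι G) {T : ℕ} (τ : Fin T → ℝ) (η μ : ℝ) (i : Fin T)
    (c : ι) (t w : ℝ) : ℝ :=
  t - τ i - η * (d.a c + d.b c * t) + μ ^ (2 * (i : ℕ)) * w

/-- The thickness. -/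
def thk (γ t w : ℝ) : ℝ := γ * (|t| + 1 + |w|)

/-- The geometric parameters of the `T` stages. -/
structure Par {ι G : Type} [LinearOrder ι] (d : Gad ι G) (T T' : ℕ) where
  gs : Fin T → G
  τ : Fin T → ℝ
  η : ℝ
  μ : ℝ
  γ : ℝ
  η_pos : 0 < η
  μ_pos : 0 < μ
  γ_pos : 0 < γ
  fib : ∀ g, (Finset.univ.filter fun i => gs i = g).card ≤ T'
  early : ∀ (i : Fin T) (c : ι) (t w : ℝ), |t| + 1 ≤ μ ^ (2 * (i : ℕ) + 1) * |w| →
    (0 ≤ w → thk γ t w ≤ d.L τ η μ i c t w) ∧ (w ≤ 0 → d.L τ η μ i c t w ≤ -thk γ t w)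
  late : ∀ (j i : Fin T) (c : ι) (t w : ℝ), j < i → d.Act c →
    μ ^ (2 * (j : ℕ) + 1) * |w| < |t| + 1 →
    (-thk γ t w < d.L τ η μ i c t w → τ i + η * ((d.key c (gs i) : ℝ) - 1 / 4) < t) ∧
    (d.L τ η μ i c t w < thk γ t w → t < τ i + η * ((d.key c (gs i) : ℝ) + 3 / 4))
  own : ∀ (j : Fin T) (g : G) (t w : ℝ), (d.tm g : ℝ) ≤ t → t ≤ d.tm g + d.tol →
    μ ^ (2 * (j : ℕ) + 1) * |w| < |t| + 1 → thk γ t w ≤ η / 4
  strip : ∀ (i : Fin T) (c : ι), d.Act c →
    (d.tm (gs i) : ℝ) ≤ τ i + η * (((d.key c (gs i) / (d.Tb : ℤ) : ℤ) : ℝ) * d.Tb - 1 / 4) ∧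
    τ i + η * (((d.key c (gs i) / (d.Tb : ℤ) : ℤ) : ℝ) * d.Tb + d.Tb - 1 / 4) ≤ d.tm (gs i) + d.tol
  apart : ∀ (i i' : Fin T) (c c' : ι), d.Act c → d.Act c' → i ≠ i' →
    τ i + η * (((d.key c (gs i) / (d.Tb : ℤ) : ℤ) : ℝ) * d.Tb + d.Tb - 1 / 4) ≤
      τ i' + η * (((d.key c' (gs i') / (d.Tb : ℤ) : ℤ) : ℝ) * d.Tb - 1 / 4) ∨
    τ i' + η * (((d.key c' (gs i') / (d.Tb : ℤ) : ℤ) : ℝ) * d.Tb + d.Tb - 1 / 4) ≤
      τ i + η * (((d.key c (gs i) / (d.Tb : ℤ) : ℤ) : ℝ) * d.Tb - 1 / 4)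

end Pool.Agent.Fur
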