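import Pool.Agent.P.MP_358d01_co.Fur.Base0

set_option autoImplicit false

namespace Pool.Agent.Fur

/-- The bound fails in dimension three. -/
theorem dim_three (hGAD : S_GAD) (hSET : S_SET) (hARI : S_ARI) (C : ℝ) (N₀ : ℕ) :
    ∃ n : ℕ, N₀ ≤ n ∧ ∃ S : Finset (EuclideanSpace ℝ (Fin 3)),
      (∀ T ⊆ S, T.card ≤ 3 + 1 → AffineIndependent ℝ
        (fun x : (T : Set (EuclideanSpace ℝ (Fin 3))) => (x : EuclideanSpace ℝ (Fin 3)))) ∧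
      Real.exp (C * (n : ℝ) ^ (1 / (((3 : ℕ) : ℝ) - 1))) ≤ (S.card : ℝ) ∧
      ∀ T ⊆ S, (∀ p ∈ T, p ∉ convexHull ℝ ((T : Set (EuclideanSpace ℝ (Fin 3))) \ {p})) →
        T.card < n := by
  obtain ⟨K0, hK0⟩ := hARI C
  obtain ⟨ι, G, i1, i2, i3, i4, d, hk, hNs, hΦ⟩ := hGAD K0
  obtain ⟨T', n, hT', hn, hb, he⟩ := hK0 (Fintype.card G) d.k d.Ns d.Φ d.X.card N₀
    Fintype.card_pos hk hNs hΦ
  obtain ⟨S, hgp, hcard, hconv⟩ := hSET ι G d T' hT'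
  refine ⟨n, hn, S, hgp, he.trans (by exact_mod_cast hcard), fun T hT h => ?_⟩
  exact lt_of_le_of_lt (hconv T hT h) hb

theorem not_main (hGAD : S_GAD) (hSET : S_SET) (hARI : S_ARI) :
    ¬ (∀ d : ℕ, 3 ≤ d → ∃ C : ℝ, ∃ N₀ : ℕ, ∀ n : ℕ, N₀ ≤ n →
      ∀ S : Finset (EuclideanSpace ℝ (Fin d)),
        (∀ T ⊆ S, T.card ≤ d + 1 →
          AffineIndependent ℝ
            (fun x : (T : Set (EuclideanSpace ℝ (Fin d))) => (x : EuclideanSpace ℝ (Fin d)))) →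
        Real.exp (C * (n : ℝ) ^ (1 / ((d : ℝ) - 1))) ≤ (S.card : ℝ) →
        ∃ T ⊆ S, T.card = n ∧
          ∀ p ∈ T, p ∉ convexHull ℝ ((T.erase p : Finset (EuclideanSpace ℝ (Fin d))) :
            Set (EuclideanSpace ℝ (Fin d)))) := by
  intro h
  obtain ⟨C, N₀, hC⟩ := h 3 le_rfl
  obtain ⟨n, hn, S, hgp, he, hconv⟩ := dim_three hGAD hSET hARI C N₀
  obtain ⟨T, hT, hcard, hp⟩ := hC n hn S hgp he
  have := hconv T hT fun p hpT => by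
    have := hp p hpT
    rwa [Finset.coe_erase] at this
  omega

end Pool.Agent.Fur
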