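import Pool.Agent.P.MP_358d01_co.Fur.Defs

set_option autoImplicit false

/-! The statements of the project. -/

namespace Pool.Agent.Fur

open Classical

/-- Second moment of the walk. -/
def S_MOM : Prop :=
  ∀ (Γ : Type) [AddCommGroup Γ] [Fintype Γ] (s : Sys Γ), s.Good →
    ∀ β, β ≤ s.B → ∀ (ζ : Γ) (r : ℕ) (g : s.Tm), r < s.D →
      ∑ ω : s.Coin, (s.S ω β ζ r g) ^ 2 ≤ (s.R : ℝ) / 4 * (Nat.card s.Coin : ℝ)

/-- Events that depend on disjoint sets of coins are independent. -/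
def S_IND : Prop :=
  ∀ (α J : Type) [Finite α] [Finite J] (A : J → Set α) (E : J → (α → Bool) → Prop),
    (∀ j j', j ≠ j' → Disjoint (A j) (A j')) →
    (∀ j ω ω', (∀ a ∈ A j, ω a = ω' a) → E j ω → E j ω') →
    (∀ j, Nat.card (α → Bool) ≤ 2 * Set.ncard {ω | E j ω}) →
    Nat.card (α → Bool) ≤ 2 ^ Nat.card J * Set.ncard {ω | ∀ j, E j ω}

/-- In every run a quarter of the blocks is played on average. -/
def S_PLAY : Prop :=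
  ∀ (Γ : Type) [AddCommGroup Γ] [Fintype Γ] (s : Sys Γ), s.Good →
    2 ^ (s.D ^ s.R) ≤ s.Tb → (s.D : ℝ) * s.R ≤ s.φ ^ 2 →
    ∀ ρ, ρ < s.R → Nat.card s.Coin ≤ 4 * ∑ j ∈ Finset.range s.Tb, s.np (ρ * s.Tb + j) 0

/-- There are many leaves. -/
def S_LEAF : Prop :=
  ∀ (Γ : Type) [AddCommGroup Γ] [Fintype Γ] (s : Sys Γ),
    (∀ β, β < s.B → Nat.card Γ ≤ 2 * Set.ncard {ζ | s.real β ζ}) →
    (∀ ρ, ρ < s.R → Nat.card s.Coin ≤ 4 * ∑ j ∈ Finset.range s.Tb, s.np (ρ * s.Tb + j) 0) →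
    ∃ v : s.Coin, 2 ^ (s.R * Nat.card Γ / 8) ≤ (s.leaves v).card

/-- The final prices are not negative. -/
def S_PRN : Prop :=
  ∀ (Γ : Type) [AddCommGroup Γ] [Fintype Γ] (s : Sys Γ), s.Good →
    ∀ (x : s.Coin) (o : Bool) (ζ : Γ) (r : ℕ) (g : s.Tm), r < s.D →
      0 ≤ s.price x o Finset.univ ζ r g

/-- All or none: when `c` is played, membership of its zones does not depend on the digit of the
current run. -/
def S_AON : Prop :=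
  ∀ (Γ : Type) [AddCommGroup Γ] [Fintype Γ] [LinearOrder Γ] (s : Sys Γ), s.Good →
    ∀ (x : s.Coin) (o : Bool) (K : Finset s.Cand) (c : s.Cand) (i : Fin s.R),
      (i : ℕ) = s.bt c / s.Tb → s.play x (s.bt c) (s.bl c) →
      (∀ c' ∈ K, c' < c ∧ s.play x (s.bt c') (s.bl c')) →
      ∀ (r : ℕ) (g : s.Tm) (y : Fin s.D), r < s.D →
        (s.In x o K (s.blk c (Function.update g i y)) r (Function.update g i y) ↔
          s.In x o K (s.blk c g) r g)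

/-- The potential does not grow when no branching happens at `c`. -/
def S_SKIP : Prop :=
  ∀ (Γ : Type) [AddCommGroup Γ] [Fintype Γ] [LinearOrder Γ] (s : Sys Γ), s.Good →
    ∀ (x : s.Coin) (o : Bool) (A K : Finset s.Cand) (c : s.Cand), c ∉ A →
      (∀ c' ∈ K, c' < c ∧ s.play x (s.bt c') (s.bl c')) →
      s.pot x o (insert c A) K ≤ s.pot x o A K

/-- The potential pays for a branching at `c`. -/
def S_BRA : Prop :=
  ∀ (Γ : Type) [AddCommGroup Γ] [Fintype Γ] [LinearOrder Γ] (s : Sys Γ), s.Good →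
    ∀ (x x' : s.Coin) (o : Bool) (A K : Finset s.Cand) (c : s.Cand),
      (∀ c', c' ∈ A ↔ c' < c) → (∀ c', c' < c → x c' = x' c') → x c = o → x' c ≠ o →
      s.play x (s.bt c) (s.bl c) →
      (∀ c' ∈ K, c' < c ∧ s.play x (s.bt c') (s.bl c')) →
      s.pot x o (insert c A) (insert c K) + s.pot x' o (insert c A) (insert c K) +
        (Set.ncard {g : s.Tm | s.In x o K (s.blk c g) (s.yv g (s.bt c / s.Tb)) g} : ℝ) ≤
        s.pot x o A K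

/-- The potential at the start. -/
def S_INI : Prop :=
  ∀ (Γ : Type) [AddCommGroup Γ] [Fintype Γ] (s : Sys Γ), s.Good →
    ∀ (x : s.Coin) (o : Bool),
      s.pot x o ∅ ∅ ≤ ((s.D : ℝ) ^ s.R) * (Nat.card Γ : ℝ) * (s.D * (s.φ + 1 / 2) + 2 * s.R / s.D)

/-- The certificate. -/
def S_CERT : Prop :=
  ∀ (Γ : Type) [AddCommGroup Γ] [Fintype Γ] [LinearOrder Γ] (s : Sys Γ), s.Good →
    ∀ (v : s.Coin) (o : Bool) (W : Finset (s.Coin × s.Tm)) (q : s.Coin × s.Tm → ℤ),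
      (∀ w ∈ W, w.1 ∈ s.leaves v) →
      (∀ w ∈ W, ∀ w' ∈ W, ∀ c, FD w.1 w'.1 c →
        (w.1 c = o → s.key c w.2 ≤ q w) ∧ (w.1 c ≠ o → q w ≤ s.key c w.2)) →
      (W.card : ℝ) ≤ (s.D : ℝ) ^ s.R +
        ((s.D : ℝ) ^ s.R) * (Nat.card Γ : ℝ) * (s.D * (s.φ + 1 / 2) + 2 * s.R / s.D)

/-- The slots. -/
def S_SLO : Prop :=
  ∀ (Γ : Type) [AddCommGroup Γ] [Fintype Γ] [LinearOrder Γ] (s : Sys Γ), s.Good →
    (∀ g : s.Tm, ∃ Z : Finset ℤ, Z.card ≤ s.R * Nat.card Γ ∧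
      ∀ c : s.Cand, s.key c g / (s.Tb : ℤ) ∈ Z) ∧
    (∀ (x : s.Coin) (g : s.Tm) (c c' : s.Cand), s.play x (s.bt c) (s.bl c) →
      s.play x (s.bt c') (s.bl c') → c ≠ c' → s.key c g / (s.Tb : ℤ) ≠ s.key c' g / (s.Tb : ℤ))

/-- The concrete system and its lines. -/
def S_NUM : Prop :=
  ∀ (D R Tb : ℕ) (φ : ℝ), 3 ≤ D → 0 < R → 0 < Tb → 0 < φ →
    ∃ (Γ : Type) (_ : AddCommGroup Γ) (_ : Fintype Γ) (_ : LinearOrder Γ) (s : Sys Γ),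
      s.D = D ∧ s.R = R ∧ s.Tb = Tb ∧ s.φ = φ ∧ s.Good ∧
      (∀ β, β < s.B → Nat.card Γ ≤ 2 * Set.ncard {ζ | s.real β ζ}) ∧
      ∃ (tm : s.Tm → ℤ) (tol : ℝ) (a b : s.Cand → ℝ), Function.Injective tm ∧ 0 < tol ∧
        tol ≤ 1 / 2 ∧ ∀ c : s.Cand, s.real (s.bt c) (s.bl c) → ∀ (g : s.Tm) (t : ℝ),
          (tm g : ℝ) ≤ t → t ≤ tm g + tol →
          (s.key c g : ℝ) ≤ a c + b c * t ∧ a c + b c * t ≤ s.key c g + 1 / 2

/-- Stages with an arbitrarily small ratio exist. -/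
def S_GAD : Prop :=
  ∀ K0 : ℕ, ∃ (ι G : Type) (_ : Fintype ι) (_ : LinearOrder ι) (_ : Fintype G) (_ : Nonempty G)
    (d : Gad ι G), 1 ≤ d.k ∧ d.Ns ≤ 16 * d.k ∧ K0 * d.Φ ≤ Fintype.card G * d.k

/-- The one-dimensional slot lemma. -/
def S_ONE : Prop :=
  ∀ (κ σ : Type) [Fintype κ] [LinearOrder κ] (Y : Finset (κ → Bool)) (t : (κ → Bool) → ℝ)
    (sl : κ → σ) (lo hi : σ → ℝ) (Z : Finset σ),
    (∀ y ∈ Y, ∀ y' ∈ Y, ∀ c, FD y y' c → y c = true → lo (sl c) < t y ∧ t y' < hi (sl c)) →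
    (∀ y ∈ Y, ∀ y' ∈ Y, ∀ y'' ∈ Y, ∀ c c', FD y y' c → FD y y'' c' → c ≠ c' → sl c ≠ sl c') →
    (∀ y ∈ Y, ∀ y' ∈ Y, ∀ z ∈ Y, ∀ z' ∈ Y, ∀ c c', FD y y' c → FD z z' c' → sl c ≠ sl c' →
      hi (sl c) ≤ lo (sl c') ∨ hi (sl c') ≤ lo (sl c)) →
    (∀ y ∈ Y, ∀ y' ∈ Y, ∀ c, FD y y' c → sl c ∈ Z) →
    Y.card ≤ 1 + Z.card

/-- The parameters exist. -/
def S_PAR : Prop :=
  ∀ (ι G : Type) [Fintype ι] [LinearOrder ι] [Fintype G] [Nonempty G] (d : Gad ι G) (T' : ℕ),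
    0 < T' → Nonempty (Par d (Fintype.card G * T') T')

/-- One group: leaves that agree up to the stage `j`. The set `V` contains every time whose strip
meets the interval spanned by two members. -/
def S_GRP : Prop :=
  ∀ (ι G : Type) [Fintype ι] [LinearOrder ι] (d : Gad ι G) (T T' : ℕ) (p : Par d T T')
    (j : Fin T) (o : Bool) (Y : Finset (Lex (Fin T × ι) → Bool))
    (t w : (Lex (Fin T × ι) → Bool) → ℝ) (V : Finset G),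
    (∀ z ∈ Y, ∀ i, stage z i ∈ d.X) →
    (∀ z ∈ Y, ∀ z' ∈ Y, ∀ i, i ≤ j → stage z i = stage z' i) →
    (∀ z ∈ Y, p.μ ^ (2 * (j : ℕ) + 1) * |w z| < |t z| + 1) →
    (∀ z ∈ Y, ∀ z' ∈ Y, ∀ (i : Fin T) (c : ι), FD z z' (toLex (i, c)) →
      (stage z i c = o → -thk p.γ (t z) (w z) < d.L p.τ p.η p.μ i c (t z) (w z)) ∧
      (stage z i c ≠ o → d.L p.τ p.η p.μ i c (t z) (w z) < thk p.γ (t z) (w z))) →
    (∀ g, ∀ z ∈ Y, ∀ z' ∈ Y, ∀ u : ℝ, t z ≤ u → u ≤ t z' → (d.tm g : ℝ) ≤ u →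
      u ≤ d.tm g + d.tol → g ∈ V) →
    Y.card ≤ 1 + T' * d.Ns * V.card

/-- One class: same band `j`, same signs, same leaves before the stage `j`. -/
def S_CLS : Prop :=
  ∀ (ι G : Type) [Fintype ι] [LinearOrder ι] [Fintype G] (d : Gad ι G) (T T' : ℕ) (p : Par d T T')
    (j : Fin T) (o : Bool) (e e' : ℝ) (Y : Finset (Lex (Fin T × ι) → Bool))
    (t w : (Lex (Fin T × ι) → Bool) → ℝ),
    (∀ z ∈ Y, ∀ i, stage z i ∈ d.X) →
    (∀ z ∈ Y, ∀ z' ∈ Y, ∀ i, i < j → stage z i = stage z' i) →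
    (e = 1 ∨ e = -1) → (e' = 1 ∨ e' = -1) →
    (∀ z ∈ Y, 0 ≤ e * t z ∧ 0 ≤ e' * w z) →
    (∀ z ∈ Y, p.μ ^ (2 * (j : ℕ) + 1) * |w z| < |t z| + 1) →
    (∀ z ∈ Y, ∀ z' ∈ Y, ∀ (i : Fin T) (c : ι), FD z z' (toLex (i, c)) →
      (stage z i c = o → -thk p.γ (t z) (w z) < d.L p.τ p.η p.μ i c (t z) (w z)) ∧
      (stage z i c ≠ o → d.L p.τ p.η p.μ i c (t z) (w z) < thk p.γ (t z) (w z))) →
    Y.card ≤ d.X.card + T' * d.Ns * d.Φ

/-- All classes together. -/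
def S_ALL : Prop :=
  ∀ (ι G : Type) [Fintype ι] [LinearOrder ι] [Fintype G] (d : Gad ι G) (T T' : ℕ) (p : Par d T T')
    (Y : Finset (Lex (Fin T × ι) → Bool)) (o : (Lex (Fin T × ι) → Bool) → Bool)
    (t w : (Lex (Fin T × ι) → Bool) → ℝ),
    (∀ z ∈ Y, ∀ i, stage z i ∈ d.X) →
    (∀ z ∈ Y, ∀ z' ∈ Y, ∀ (i : Fin T) (c : ι), FD z z' (toLex (i, c)) →
      (stage z i c = o z → -thk p.γ (t z) (w z) < d.L p.τ p.η p.μ i c (t z) (w z)) ∧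
      (stage z i c ≠ o z → d.L p.τ p.η p.μ i c (t z) (w z) < thk p.γ (t z) (w z))) →
    Y.card ≤ 8 * (T + 1) * (d.X.card + T' * d.Ns * d.Φ)

/-- Points of a tree with fast decreasing scales. -/
def S_THK : Prop :=
  ∀ (κ : Type) [Fintype κ] [LinearOrder κ] (u : κ → Fin 3 → ℝ) (γ : ℝ), 0 < γ →
    ∃ (P : (κ → Bool) → Fin 3 → ℝ) (δ : ℝ), 0 < δ ∧
      ∀ P' : (κ → Bool) → Fin 3 → ℝ, (∀ z i, |P' z i - P z i| ≤ δ) →
        ∀ (z z' : κ → Bool) (c : κ) (θ : Fin 3 → ℝ), FD z z' c →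
          0 < ∑ i, θ i * (P' z i - P' z' i) →
          (z c = true → 0 < ∑ i, θ i * u c i + γ * ∑ i, |θ i|) ∧
          (z c = false → ∑ i, θ i * u c i - γ * ∑ i, |θ i| < 0)

/-- Perturbation into general position. -/
def S_GEN : Prop :=
  ∀ (α : Type) [Fintype α] (P : α → Fin 3 → ℝ) (δ : ℝ), 0 < δ →
    ∃ P' : α → EuclideanSpace ℝ (Fin 3), (∀ z i, |P' z i - P z i| ≤ δ) ∧ Function.Injective P' ∧
      ∀ T : Finset (EuclideanSpace ℝ (Fin 3)), (∀ p ∈ T, ∃ z, P' z = p) → T.card ≤ 4 →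
        AffineIndependent ℝ
          (fun x : (T : Set (EuclideanSpace ℝ (Fin 3))) => (x : EuclideanSpace ℝ (Fin 3)))

/-- An exposing direction with second coordinate one or minus one. -/
def S_EXP : Prop :=
  ∀ (T : Finset (EuclideanSpace ℝ (Fin 3))) (p : EuclideanSpace ℝ (Fin 3)),
    p ∉ convexHull ℝ ((T : Set (EuclideanSpace ℝ (Fin 3))) \ {p}) →
    ∃ θ : Fin 3 → ℝ, (θ 1 = 1 ∨ θ 1 = -1) ∧ ∀ q ∈ T, q ≠ p → 0 < ∑ i, θ i * (p i - q i)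

/-- The point set of a stage repeated `T` times. -/
def S_SET : Prop :=
  ∀ (ι G : Type) [Fintype ι] [LinearOrder ι] [Fintype G] [Nonempty G] (d : Gad ι G) (T' : ℕ),
    0 < T' → ∃ S : Finset (EuclideanSpace ℝ (Fin 3)),
      (∀ T ⊆ S, T.card ≤ 4 → AffineIndependent ℝ
        (fun x : (T : Set (EuclideanSpace ℝ (Fin 3))) => (x : EuclideanSpace ℝ (Fin 3)))) ∧
      2 ^ (d.k * (Fintype.card G * T')) ≤ S.card ∧
      ∀ T ⊆ S, (∀ p ∈ T, p ∉ convexHull ℝ ((T : Set (EuclideanSpace ℝ (Fin 3))) \ {p})) →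
        T.card ≤ 8 * (Fintype.card G * T' + 1) * (d.X.card + T' * d.Ns * d.Φ)

/-- The numbers work out. -/
def S_ARI : Prop :=
  ∀ (C : ℝ), ∃ K0 : ℕ, ∀ (G k Ns Φ X N0 : ℕ), 1 ≤ G → 1 ≤ k → Ns ≤ 16 * k → K0 * Φ ≤ G * k →
    ∃ T' n : ℕ, 0 < T' ∧ N0 ≤ n ∧ 8 * (G * T' + 1) * (X + T' * Ns * Φ) < n ∧
      Real.exp (C * (n : ℝ) ^ (1 / (((3 : ℕ) : ℝ) - 1))) ≤ ((2 ^ (k * (G * T')) : ℕ) : ℝ)

end Pool.Agent.Fur
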