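import Pool.Agent.P.MP_358d01_co.Fur.Base0

set_option autoImplicit false

namespace Pool.Agent.Fur

open Classical

namespace ALLA

theorem ex_band (T : ℕ) (μ t w : ℝ) :
    ∃ n : ℕ, T ≤ n ∨ ¬ (|t| + 1 ≤ μ ^ (2 * n + 1) * |w|) := ⟨T, Or.inl le_rfl⟩

noncomputable def band (T : ℕ) (μ t w : ℝ) : ℕ := Nat.find (ex_band T μ t w)

theorem band_le (T : ℕ) (μ t w : ℝ) : band T μ t w ≤ T :=
  Nat.find_min' (ex_band T μ t w) (Or.inl le_rfl)

theorem of_lt_band {T : ℕ} {μ t w : ℝ} {n : ℕ} (h : n < band T μ t w) :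
    |t| + 1 ≤ μ ^ (2 * n + 1) * |w| := by
  have := Nat.find_min (ex_band T μ t w) h
  by_contra hn
  exact this (Or.inr hn)

theorem at_band {T : ℕ} {μ t w : ℝ} (h : band T μ t w < T) :
    μ ^ (2 * band T μ t w + 1) * |w| < |t| + 1 := by
  rcases Nat.find_spec (ex_band T μ t w) with h1 | h1
  · exact absurd h1 (not_le.2 h)
  · exact not_le.1 h1

theorem agree {ι G : Type} [Fintype ι] [LinearOrder ι] (d : Gad ι G) {T T' : ℕ} (p : Par d T T')
    (z z' : Lex (Fin T × ι) → Bool) (o : Bool) (t w t' w' : ℝ)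
    (h1 : ∀ (i : Fin T) (c : ι), FD z z' (toLex (i, c)) →
      (stage z i c = o → -thk p.γ t w < d.L p.τ p.η p.μ i c t w) ∧
      (stage z i c ≠ o → d.L p.τ p.η p.μ i c t w < thk p.γ t w))
    (h2 : ∀ (i : Fin T) (c : ι), FD z' z (toLex (i, c)) →
      (stage z' i c = o → -thk p.γ t' w' < d.L p.τ p.η p.μ i c t' w') ∧
      (stage z' i c ≠ o → d.L p.τ p.η p.μ i c t' w' < thk p.γ t' w'))
    (hs : 0 ≤ w ↔ 0 ≤ w') (i : Fin T) (hi : (i : ℕ) < band T p.μ t w)
    (hi' : (i : ℕ) < band T p.μ t' w') : stage z i = stage z' i := by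
  by_contra hne
  obtain ⟨c0, hc0⟩ := Function.ne_iff.mp hne
  have hc0' : z (toLex (i, c0)) ≠ z' (toLex (i, c0)) := hc0
  obtain ⟨e, he, hFD⟩ := exists_FD_le hc0'
  obtain ⟨i', c⟩ := e
  have hle : i' ≤ i := by
    by_contra hlt
    have : toLex (i, c0) < toLex (i', c) := (lex_lt_iff _ _ _ _).2 (Or.inl (not_le.1 hlt))
    exact absurd he (not_le.2 this)
  have hle' : (i' : ℕ) ≤ i := hle
  have hFD' : FD z z' (toLex (i', c)) := hFD
  have e1 := p.early i' c t w (of_lt_band (lt_of_le_of_lt hle' hi))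
  have e2 := p.early i' c t' w' (of_lt_band (lt_of_le_of_lt hle' hi'))
  have g1 := h1 i' c hFD'
  have g2 := h2 i' c hFD'.symm
  have hd : stage z i' c ≠ stage z' i' c := hFD'.1
  by_cases hw : 0 ≤ w
  · have hw' := hs.1 hw
    by_cases hz : stage z i' c = o
    · have hz' : stage z' i' c ≠ o := fun h => hd (hz.trans h.symm)
      exact absurd (g2.2 hz') (not_lt.2 (e2.1 hw'))
    · exact absurd (g1.2 hz) (not_lt.2 (e1.1 hw))
  · have hw' : ¬ 0 ≤ w' := fun h => hw (hs.2 h)
    by_cases hz : stage z i' c = o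
    · exact absurd (g1.1 hz) (not_lt.2 (e1.2 (not_le.1 hw).le))
    · have hz' : stage z' i' c = o := by
        revert hz hd
        cases stage z i' c <;> cases stage z' i' c <;> cases o <;> simp
      exact absurd (g2.1 hz') (not_lt.2 (e2.2 (not_le.1 hw').le))

theorem sgn (b : Bool) (x : ℝ) (h : decide (0 ≤ x) = b) : 0 ≤ sg b * x := by
  cases b
  · have : ¬ 0 ≤ x := by simpa using h
    simp only [sg]
    norm_num
    exact (not_le.1 this).le
  · have : 0 ≤ x := by simpa using h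
    simpa [sg] using this

theorem sg_cases (b : Bool) : sg b = 1 ∨ sg b = -1 := by cases b <;> simp [sg]

end ALLA

theorem p_ALL (hCLS : S_CLS) : S_ALL := by
  intro ι G _ _ _ d T T' p Y o t w hX hL
  let f : (Lex (Fin T × ι) → Bool) → Fin (T + 1) × Bool × Bool × Bool := fun z =>
    (⟨ALLA.band T p.μ (t z) (w z), Nat.lt_succ_of_le (ALLA.band_le _ _ _ _)⟩, o z,
      decide (0 ≤ t z), decide (0 ≤ w z))
  have hfib : ∀ k : Fin (T + 1) × Bool × Bool × Bool,
      (Y.filter fun z => f z = k).card ≤ d.X.card + T' * d.Ns * d.Φ := by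
    rintro ⟨b, o0, s1, s2⟩
    have hmem : ∀ z ∈ Y.filter (fun z => f z = (b, o0, s1, s2)), z ∈ Y ∧
        ALLA.band T p.μ (t z) (w z) = b ∧ o z = o0 ∧ decide (0 ≤ t z) = s1 ∧
          decide (0 ≤ w z) = s2 := by
      intro z hz
      obtain ⟨hzY, hz⟩ := Finset.mem_filter.1 hz
      simp only [f, Prod.mk.injEq] at hz
      refine ⟨hzY, ?_, hz.2.1, hz.2.2.1, hz.2.2.2⟩
      rw [← hz.1]
    have hag : ∀ z ∈ Y.filter (fun z => f z = (b, o0, s1, s2)),
        ∀ z' ∈ Y.filter (fun z => f z = (b, o0, s1, s2)), ∀ i : Fin T, (i : ℕ) < b →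
          stage z i = stage z' i := by
      intro z hz z' hz' i hi
      obtain ⟨a1, a2, a3, -, a5⟩ := hmem z hz
      obtain ⟨b1, b2, b3, -, b5⟩ := hmem z' hz'
      refine ALLA.agree d p z z' o0 (t z) (w z) (t z') (w z') ?_ ?_ ?_ i (by rw [a2]; exact hi)
        (by rw [b2]; exact hi)
      · intro i c h
        have := hL z a1 z' b1 i c h
        rwa [a3] at this
      · intro i c h
        have := hL z' b1 z a1 i c h
        rwa [b3] at this
      · have : decide (0 ≤ w z) = decide (0 ≤ w z') := a5.trans b5.symm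
        simpa using this
    by_cases hb : (b : ℕ) < T
    · refine hCLS ι G d T T' p ⟨b, hb⟩ o0 (sg s1) (sg s2) _ t w (fun z hz => hX z (hmem z hz).1)
        (fun z hz z' hz' i hi => hag z hz z' hz' i hi) (ALLA.sg_cases _) (ALLA.sg_cases _)
        (fun z hz => ⟨ALLA.sgn _ _ (hmem z hz).2.2.2.1, ALLA.sgn _ _ (hmem z hz).2.2.2.2⟩) ?_ ?_
      · intro z hz
        have h2 := (hmem z hz).2.1
        have := ALLA.at_band (T := T) (μ := p.μ) (t := t z) (w := w z) (by rw [h2]; exact hb)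
        rw [h2] at this
        exact this
      · intro z hz z' hz' i c h
        have := hL z (hmem z hz).1 z' (hmem z' hz').1 i c h
        rwa [(hmem z hz).2.2.1] at this
    · have h1 : (Y.filter fun z => f z = (b, o0, s1, s2)).card ≤ 1 := by
        refine Finset.card_le_one.2 fun z hz z' hz' => eq_of_stage fun i => hag z hz z' hz' i ?_
        have := i.2
        omega
      have h2 : 1 ≤ d.X.card := le_trans Nat.one_le_two_pow d.card_ge
      omega
  have := Finset.card_le_mul_card_image_of_maps_to (f := f) (s := Y) (t := Finset.univ)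
    (fun _ _ => Finset.mem_univ _) (d.X.card + T' * d.Ns * d.Φ) (fun k _ => hfib k)
  refine this.trans (le_of_eq ?_)
  simp only [Finset.card_univ, Fintype.card_prod, Fintype.card_fin, Fintype.card_bool]
  ring

end Pool.Agent.Fur
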