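import Pool.Agent.P.MP_358d01_co.Fur.Base

set_option autoImplicit false

namespace Pool.Agent.Fur

open Classical

theorem p_AON : S_AON := by
  intro Γ _ _ _ s hG x o K c i hi hc hK r g y hr
  have hD : 0 < s.D := by have := hG.D3; omega
  have hag : s.agree (s.bt c / s.Tb) (Function.update g i y) g := hi ▸ s.agree_update g i y
  have hb : s.blk c (Function.update g i y) = s.blk c g := by
    unfold Sys.blk
    rw [hG.sh_agree _ _ _ hag]
  rw [hb]
  unfold Sys.In
  refine forall_congr' fun c' => forall_congr' fun hc' => ?_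
  obtain ⟨hlt, hp⟩ := hK c' hc'
  have hle : s.bt c' / s.Tb ≤ s.bt c / s.Tb := Nat.div_le_div_right (s.bt_le_of_lt hlt)
  have hb' : s.blk c' (Function.update g i y) = s.blk c' g := by
    unfold Sys.blk
    rw [hG.sh_agree _ _ _ (s.agree_mono hag hle)]
  have main : s.zh c' (Function.update g i y) ≤ s.D * s.ht (s.blk c g) + r ↔
      s.zh c' g ≤ s.D * s.ht (s.blk c g) + r := by
    unfold Sys.zh
    rw [hb']
    rcases lt_or_eq_of_le hle with hl | he
    · rw [s.yv_agree hag hl]
    · have hne : s.ht (s.blk c' g) ≠ s.ht (s.blk c g) := fun e =>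
        hlt.ne' (s.eq_of_blk he hc hp (hG.ht_inj e).symm)
      have h1 := s.yv_lt hD (Function.update g i y) (s.bt c' / s.Tb)
      have h2 := s.yv_lt hD g (s.bt c' / s.Tb)
      rcases lt_or_gt_of_ne hne with hl | hl
      · have := Nat.mul_le_mul_left s.D (Nat.succ_le_of_lt hl)
        rw [Nat.mul_succ] at this
        constructor <;> intro _ <;> omega
      · have := Nat.mul_le_mul_left s.D (Nat.succ_le_of_lt hl)
        rw [Nat.mul_succ] at this
        constructor <;> intro _ <;> omega
  rw [main]

end Pool.Agent.Fur
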