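import Pool.Agent.P.MP_358d01_co.Fur.Base0

set_option autoImplicit false

namespace Pool.Agent.Fur

open Classical

theorem p_ARI : S_ARI := by
  intro C
  obtain ⟨c, hc⟩ := exists_nat_ge (C ^ 2)
  refine ⟨1200 * (c + 1), ?_⟩
  intro G k Ns Φ X N0 hG hk hNs hΦ
  set K0 := 1200 * (c + 1) with hK0
  set T' := K0 * (16 * X + N0 + 1) with hT'
  have hK : 0 < K0 := by omega
  have hT0 : 0 < T' := Nat.mul_pos hK (by omega)
  set m := k * (G * T') with hm
  have hGT : T' ≤ G * T' := Nat.le_mul_of_pos_left _ hG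
  have hGT1 : 1 ≤ G * T' := le_trans hT0 hGT
  have hmG : G * T' ≤ m := Nat.le_mul_of_pos_left _ hk
  refine ⟨T', 8 * (G * T' + 1) * (X + T' * Ns * Φ) + N0 + 1, hT0, by omega, by omega, ?_⟩
  set n := 8 * (G * T' + 1) * (X + T' * Ns * Φ) + N0 + 1 with hn
  have key : K0 * n ≤ 257 * m ^ 2 := by
    have h1 : K0 * (T' * Ns * Φ) ≤ T' * (16 * k) * (G * k) := by
      calc K0 * (T' * Ns * Φ) = T' * Ns * (K0 * Φ) := by ring
        _ ≤ T' * (16 * k) * (G * k) := Nat.mul_le_mul (Nat.mul_le_mul_left _ hNs) hΦ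
    have h2 : 8 * (G * T' + 1) ≤ 16 * (G * T') := by omega
    have h3 : K0 * (8 * (G * T' + 1) * (X + T' * Ns * Φ)) ≤
        16 * (G * T') * (K0 * X + T' * (16 * k) * (G * k)) := by
      calc K0 * (8 * (G * T' + 1) * (X + T' * Ns * Φ))
          = 8 * (G * T' + 1) * (K0 * X + K0 * (T' * Ns * Φ)) := by ring
        _ ≤ _ := Nat.mul_le_mul h2 (Nat.add_le_add_left h1 _)
    have h4 : 16 * (G * T') * (K0 * X) + K0 * (N0 + 1) ≤ m ^ 2 := by
      calc 16 * (G * T') * (K0 * X) + K0 * (N0 + 1)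
          ≤ 16 * (G * T') * (K0 * X) + (G * T') * (K0 * (N0 + 1)) :=
            Nat.add_le_add_left (Nat.le_mul_of_pos_left _ hGT1) _
        _ = (G * T') * T' := by rw [hT']; ring
        _ ≤ m * m := Nat.mul_le_mul hmG (hGT.trans hmG)
        _ = m ^ 2 := (sq m).symm
    have h5 : 16 * (G * T') * (T' * (16 * k) * (G * k)) = 256 * m ^ 2 := by rw [hm]; ring
    calc K0 * n = K0 * (8 * (G * T' + 1) * (X + T' * Ns * Φ)) + K0 * (N0 + 1) := by rw [hn]; ring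
      _ ≤ 16 * (G * T') * (K0 * X + T' * (16 * k) * (G * k)) + K0 * (N0 + 1) :=
          Nat.add_le_add_right h3 _
      _ = 16 * (G * T') * (K0 * X) + K0 * (N0 + 1) + 16 * (G * T') * (T' * (16 * k) * (G * k)) := by
          ring
      _ ≤ m ^ 2 + 256 * m ^ 2 := by rw [h5]; exact Nat.add_le_add_right h4 _
      _ = 257 * m ^ 2 := by ring
  have keyR : (1200 * ((c : ℝ) + 1)) * n ≤ 257 * (m : ℝ) ^ 2 := by
    have : ((K0 * n : ℕ) : ℝ) ≤ ((257 * m ^ 2 : ℕ) : ℝ) := by exact_mod_cast key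
    rw [hK0] at this
    push_cast at this
    exact this
  clear_value n m
  clear key
  have he : (1 : ℝ) / (((3 : ℕ) : ℝ) - 1) = 1 / 2 := by norm_num
  rw [he, ← Real.sqrt_eq_rpow]
  have hn0 : (0 : ℝ) ≤ n := Nat.cast_nonneg n
  have hm0 : (0 : ℝ) ≤ m := Nat.cast_nonneg m
  have h6 : (C * √(n : ℝ)) ^ 2 ≤ ((m : ℝ) / 2) ^ 2 := by
    rw [mul_pow, Real.sq_sqrt hn0]
    have : C ^ 2 * n ≤ c * n := mul_le_mul_of_nonneg_right hc hn0
    have h9 : ((m : ℝ) / 2) ^ 2 = (m : ℝ) ^ 2 / 4 := by ring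
    have h10 : (0 : ℝ) ≤ (m : ℝ) ^ 2 := sq_nonneg _
    rw [h9]
    linarith
  have h7 : C * √(n : ℝ) ≤ (m : ℝ) / 2 := (abs_le_of_sq_le_sq' h6 (by linarith)).2
  have h8 : (m : ℝ) / 2 ≤ m * Real.log 2 := by
    have h11 : (1 : ℝ) / 2 ≤ Real.log 2 := by
      have := Real.log_two_gt_d9
      linarith
    have := mul_le_mul_of_nonneg_left h11 hm0
    linarith
  rw [← hm]
  calc Real.exp (C * √(n : ℝ)) ≤ Real.exp (m * Real.log 2) := Real.exp_le_exp.2 (h7.trans h8)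
    _ = ((2 ^ m : ℕ) : ℝ) := by
      rw [Real.exp_nat_mul, Real.exp_log (by norm_num)]
      push_cast
      rfl

end Pool.Agent.Fur
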