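import Pool.Agent.P.MP_358d01_co.Fur.TSKIP

set_option autoImplicit false

namespace Pool.Agent.Fur

open Classical

theorem p_BRA (hAON : S_AON) : S_BRA := by
  intro Γ _ _ _ s hG x x' o A K c hA hxx hx hx' hp hK
  have hD0 : 0 < s.D := by have := hG.D3; omega
  have hD : (0 : ℝ) < s.D := by exact_mod_cast hD0
  have hc : c ∉ A := fun h => lt_irrefl _ ((hA c).1 h)
  have hp' : s.play x' (s.bt c) (s.bl c) := (s.play_below hxx le_rfl _).1 hp
  have hpr : ∀ ζ r g, s.price x' o A ζ r g = s.price x o A ζ r g := by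
    intro ζ r g
    unfold Sys.price
    refine congrArg _ (Finset.sum_congr rfl fun c' hc' => ?_)
    have hl := (hA c').1 hc'
    have hb := s.play_below hxx (s.bt_le_of_lt hl) (s.bl c')
    rw [hxx c' hl]
    by_cases h : s.play x (s.bt c') (s.bl c') ∧ s.blk c' g = ζ
    · rw [if_pos h, if_pos ⟨hb.1 h.1, h.2⟩]
    · rw [if_neg h, if_neg fun h' => h ⟨hb.2 h'.1, h'.2⟩]
  have hIn : ∀ ζ r g, s.In x o (insert c K) ζ r g ↔
      s.zh c g ≤ s.D * s.ht ζ + r ∧ s.In x o K ζ r g := by
    intro ζ r g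
    unfold Sys.In
    rw [Finset.forall_mem_insert]
    simp [hx]
  have hIn' : ∀ ζ r g, s.In x' o (insert c K) ζ r g ↔
      ¬ s.zh c g ≤ s.D * s.ht ζ + r ∧ s.In x o K ζ r g := by
    intro ζ r g
    unfold Sys.In
    rw [Finset.forall_mem_insert]
    refine and_congr (by simp [hx']) (forall_congr' fun c' => forall_congr' fun hc' => ?_)
    rw [hxx c' (hK c' hc').1]
  let F : ℕ → ℕ → ℝ := fun r y => if y ≤ r then dec o o s.D r y else dec o (x' c) s.D r y
  have e : s.pot x o (insert c A) (insert c K) + s.pot x' o (insert c A) (insert c K) =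
      s.pot x o A K - ∑ ζ : Γ, ∑ r ∈ Finset.range s.D, ∑ g : s.Tm, if s.In x o K ζ r g then
          (if s.blk c g = ζ then F r (s.yv g (s.bt c / s.Tb)) else 0) else 0 := by
    unfold Sys.pot
    simp only [← Finset.sum_sub_distrib, ← Finset.sum_add_distrib]
    refine Finset.sum_congr rfl fun ζ _ => Finset.sum_congr rfl fun r _ =>
      Finset.sum_congr rfl fun g _ => ?_
    rw [SKIPA.price_insert s x o A c hc, SKIPA.price_insert s x' o A c hc, hpr]
    simp only [hIn, hIn', hp, hp', true_and, hx]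
    by_cases hI : s.In x o K ζ r g
    · by_cases hb : s.blk c g = ζ
      · have hz : s.zh c g ≤ s.D * s.ht ζ + r ↔ s.yv g (s.bt c / s.Tb) ≤ r := by
          unfold Sys.zh
          rw [hb]
          omega
        by_cases hy : s.yv g (s.bt c / s.Tb) ≤ r
        · simp [hI, hb, hz, hy, F]
        · simp [hI, hb, hz, hy, F]
      · by_cases hz : s.zh c g ≤ s.D * s.ht ζ + r
        · simp [hI, hb, hz]
        · simp [hI, hb, hz]
    · simp [hI]
  have e2 : (Set.ncard {g : s.Tm | s.In x o K (s.blk c g) (s.yv g (s.bt c / s.Tb)) g} : ℝ) =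
      ∑ r ∈ Finset.range s.D, ∑ g : s.Tm, (if s.In x o K (s.blk c g) r g then (1 : ℝ) else 0) *
        (if s.yv g (s.bt c / s.Tb) = r then 1 else 0) := by
    rw [ncard_eq_filter, Finset.card_filter, Finset.sum_comm]
    push_cast
    refine Finset.sum_congr rfl fun g _ => ?_
    rw [Finset.sum_eq_single (s.yv g (s.bt c / s.Tb))]
    · simp
    · intro r _ hr
      rw [if_neg (Ne.symm hr), mul_zero]
    · intro h
      exact (h (Finset.mem_range.2 (s.yv_lt hD0 g _))).elim
  rw [e, e2, SKIPA.sum_zone s x o K c F]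
  refine le_of_eq ?_
  rw [sub_add, sub_eq_self, sub_eq_zero]
  refine Finset.sum_congr rfl fun r hr => ?_
  have hr' := Finset.mem_range.1 hr
  have h1 := SKIPA.sum_out s hAON hG x o K c hp hK hr' (F r)
  have h2 := SKIPA.sum_out s hAON hG x o K c hp hK hr' (fun y => if y = r then 1 else 0)
  have h3 : ∑ y ∈ Finset.range s.D, F r y = 1 := sum_dec_branch hx' hr'
  have h4 : ∑ y ∈ Finset.range s.D, (if y = r then (1 : ℝ) else 0) = 1 := by
    rw [Finset.sum_ite_eq' (Finset.range s.D) r (fun _ => (1 : ℝ))]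
    simp [hr']
  rw [h3] at h1
  rw [h4] at h2
  exact mul_left_cancel₀ hD.ne' (h1.trans h2.symm)

end Pool.Agent.Fur
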