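import Pool.Agent.P.MP_358d01_co.Fur.Base

set_option autoImplicit false

namespace Pool.Agent.Fur

open Classical

namespace CERTA

variable {Γ : Type} [AddCommGroup Γ] [Fintype Γ] [LinearOrder Γ] (s : Sys Γ)

theorem pot_congr (x x' : s.Coin) (o : Bool) (A K : Finset s.Cand)
    (hA : ∀ c ∈ A, ∀ c', c' < c → c' ∈ A) (hK : K ⊆ A) (h : ∀ c ∈ A, x c = x' c) :
    s.pot x o A K = s.pot x' o A K := by
  have h1 : ∀ ζ r g, s.price x o A ζ r g = s.price x' o A ζ r g := by
    intro ζ r g
    unfold Sys.price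
    congr 1
    refine Finset.sum_congr rfl fun c hc => ?_
    have hp : s.play x (s.bt c) (s.bl c) ↔ s.play x' (s.bt c) (s.bl c) :=
      s.play_below (fun c' hc' => h c' (hA c hc c' hc')) le_rfl _
    rw [h c hc]
    by_cases hh : s.play x (s.bt c) (s.bl c)
    · have hh' := hp.1 hh
      simp only [hh, hh']
    · have hh' : ¬ s.play x' (s.bt c) (s.bl c) := fun a => hh (hp.2 a)
      simp only [hh, hh']
  have h2 : ∀ ζ r g, s.In x o K ζ r g ↔ s.In x' o K ζ r g := by
    intro ζ r g
    unfold Sys.In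
    exact forall_congr' fun c => forall_congr' fun hc => by rw [h c (hK hc)]
  unfold Sys.pot
  simp only [h1, h2]

omit [Fintype Γ] [LinearOrder Γ] in
theorem zh_le {c c' : s.Cand} {g : s.Tm} (h : s.key c' g ≤ s.key c g) : s.zh c' g ≤ s.zh c g := by
  have h1 : s.zh c' g * s.B + s.bt c' ≤ s.zh c g * s.B + s.bt c := by
    unfold Sys.key at h
    exact_mod_cast h
  have h2 := s.bt_lt c
  by_contra hc
  have h3 : (s.zh c g + 1) * s.B ≤ s.zh c' g * s.B := Nat.mul_le_mul_right _ (by omega)
  rw [add_mul, one_mul] at h3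
  omega

omit [Fintype Γ] in
theorem not_zh_le (hG : s.Good) {x : s.Coin} {c c' : s.Cand} {g : s.Tm} (hlt : c' < c)
    (hp : s.play x (s.bt c) (s.bl c)) (hp' : s.play x (s.bt c') (s.bl c'))
    (h : s.key c g ≤ s.key c' g) : ¬ s.zh c' g ≤ s.zh c g := by
  intro hz
  have h0 := zh_le s h
  have he : s.zh c g = s.zh c' g := le_antisymm h0 hz
  have h1 : s.zh c g * s.B + s.bt c ≤ s.zh c' g * s.B + s.bt c' := by
    unfold Sys.key at h
    exact_mod_cast h
  rw [he] at h1
  have h2 := s.bt_le_of_lt hlt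
  have h3 : s.bt c' = s.bt c := by omega
  unfold Sys.zh at he
  rw [h3] at he
  have hD : 0 < s.D := by have := hG.D3; omega
  have h4 : s.ht (s.blk c g) = s.ht (s.blk c' g) :=
    Nat.eq_of_mul_eq_mul_left hD (Nat.add_right_cancel he)
  have h5 := s.eq_of_blk (by rw [h3]) hp hp' (hG.ht_inj h4)
  exact hlt.ne' h5

theorem main (hPRN : S_PRN) (hSKIP : S_SKIP) (hBRA : S_BRA) (hG : s.Good) (v : s.Coin) (o : Bool)
    (W : Finset (s.Coin × s.Tm)) (q : s.Coin × s.Tm → ℤ) (hW : ∀ w ∈ W, w.1 ∈ s.leaves v)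
    (hq : ∀ w ∈ W, ∀ w' ∈ W, ∀ c, FD w.1 w'.1 c →
      (w.1 c = o → s.key c w.2 ≤ q w) ∧ (w.1 c ≠ o → q w ≤ s.key c w.2)) (n : ℕ) :
    ∀ (A : Finset s.Cand), (Finset.univ \ A).card = n → (∀ c ∈ A, ∀ c', c' < c → c' ∈ A) →
      ∀ (x : s.Coin) (K : Finset s.Cand) (W' : Finset (s.Coin × s.Tm)), K ⊆ A →
        (∀ c ∈ K, s.play x (s.bt c) (s.bl c)) → W' ⊆ W → (∀ w ∈ W', ∀ c ∈ A, w.1 c = x c) →
        (∀ c ∈ K, ∀ w ∈ W', (x c = o → s.key c w.2 ≤ q w) ∧ (x c ≠ o → q w ≤ s.key c w.2)) →
        W'.Nonempty → (W'.card : ℝ) ≤ (W'.image Prod.snd).card + s.pot x o A K := by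
  induction n with
  | zero =>
    intro A hn _ x K W' _ _ _ hx _ _
    have hA : A = Finset.univ :=
      Finset.eq_univ_of_forall fun c => by
        by_contra hc
        have : c ∈ Finset.univ \ A := Finset.mem_sdiff.2 ⟨Finset.mem_univ _, hc⟩
        rw [Finset.card_eq_zero.1 hn] at this
        exact Finset.notMem_empty _ this
    subst hA
    have h1 : (W'.image Prod.snd).card = W'.card := by
      refine Finset.card_image_of_injOn fun w hw w' hw' e => Prod.ext ?_ e
      funext c
      rw [hx w hw c (Finset.mem_univ _), hx w' hw' c (Finset.mem_univ _)]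
    have h2 : 0 ≤ s.pot x o Finset.univ K := by
      unfold Sys.pot
      refine Finset.sum_nonneg fun ζ _ => Finset.sum_nonneg fun r hr =>
        Finset.sum_nonneg fun g _ => ?_
      split_ifs
      · exact hPRN Γ s hG x o ζ r g (Finset.mem_range.1 hr)
      · exact le_rfl
    rw [h1]
    linarith
  | succ n ih =>
    intro A hn hA x K W' hK hpl hWW hx hc hne
    have hne' : (Finset.univ \ A).Nonempty := Finset.card_pos.1 (by omega)
    set c := (Finset.univ \ A).min' hne' with hcdef
    have hcA : c ∉ A := (Finset.mem_sdiff.1 (Finset.min'_mem _ hne')).2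
    have hlow : ∀ c', c' ∈ A ↔ c' < c := by
      intro c'
      constructor
      · intro h
        by_contra hlt
        rcases (not_lt.1 hlt).eq_or_lt with e | e
        · exact hcA (e ▸ h)
        · exact hcA (hA c' h c e)
      · intro h
        by_contra hn'
        exact absurd (Finset.min'_le _ c' (Finset.mem_sdiff.2 ⟨Finset.mem_univ _, hn'⟩))
          (not_le.2 h)
    have hn1 : (Finset.univ \ insert c A).card = n := by
      rw [Finset.sdiff_insert, Finset.card_erase_of_mem (Finset.min'_mem _ hne'), hn]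
      rfl
    have hA1 : ∀ c1 ∈ insert c A, ∀ c', c' < c1 → c' ∈ insert c A := by
      intro c1 h1 c' hlt
      rcases Finset.mem_insert.1 h1 with rfl | h1
      · exact Finset.mem_insert_of_mem ((hlow c').2 hlt)
      · exact Finset.mem_insert_of_mem (hA c1 h1 c' hlt)
    have hplay : ∀ w ∈ W', ∀ c' ∈ K, c' < c ∧ s.play w.1 (s.bt c') (s.bl c') := by
      intro w hw c' hc'
      refine ⟨(hlow c').1 (hK hc'), ?_⟩
      exact (s.play_below (fun c'' h => hx w hw c'' (hA c' (hK hc') c'' h)) le_rfl _).2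
        (hpl c' hc')
    have hpot : ∀ w ∈ W', s.pot w.1 o A K = s.pot x o A K := fun w hw =>
      pot_congr s _ _ o A K hA hK (hx w hw)
    have hag : ∀ w0 ∈ W', ∀ w ∈ W', w.1 c = w0.1 c → ∀ c' ∈ insert c A, w.1 c' = w0.1 c' := by
      intro w0 hw0 w hw e c' hc'
      rcases Finset.mem_insert.1 hc' with rfl | h1
      · exact e
      · rw [hx w hw c' h1, hx w0 hw0 c' h1]
    by_cases hall : ∀ w ∈ W', ∀ w' ∈ W', w.1 c = w'.1 c
    · obtain ⟨w0, hw0⟩ := hne
      have h1 := ih (insert c A) hn1 hA1 w0.1 K W' (hK.trans (Finset.subset_insert _ _))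
        (fun c' hc' => (hplay w0 hw0 c' hc').2) hWW
        (fun w hw => hag w0 hw0 w hw (hall w hw w0 hw0))
        (fun c' hc' w hw => by
          rw [hx w0 hw0 c' (hK hc')]
          exact hc c' hc' w hw) ⟨w0, hw0⟩
      have h2 := hSKIP Γ s hG w0.1 o A K c hcA (hplay w0 hw0)
      rw [hpot w0 hw0] at h2
      linarith
    · obtain ⟨w1, hw1, w2, hw2, e1, e2⟩ :
          ∃ w1 ∈ W', ∃ w2 ∈ W', w1.1 c = o ∧ w2.1 c ≠ o := by
        push Not at hall
        obtain ⟨w, hw, w', hw', e⟩ := hall
        by_cases h : w.1 c = o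
        · exact ⟨w, hw, w', hw', h, fun h' => e (h.trans h'.symm)⟩
        · refine ⟨w', hw', w, hw, ?_, h⟩
          revert e h
          cases w.1 c <;> cases w'.1 c <;> cases o <;> simp
      have hFD : ∀ w ∈ W', ∀ w' ∈ W', w.1 c = o → w'.1 c ≠ o → FD w.1 w'.1 c := by
        intro w hw w' hw' a1 a2
        refine ⟨fun e => a2 (e ▸ a1), fun c' h => ?_⟩
        rw [hx w hw c' ((hlow c').2 h), hx w' hw' c' ((hlow c').2 h)]
      have hq1 : ∀ w ∈ W', w.1 c = o → s.key c w.2 ≤ q w := fun w hw e =>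
        (hq w (hWW hw) w2 (hWW hw2) c (hFD w hw w2 hw2 e e2)).1 e
      have hq2 : ∀ w ∈ W', w.1 c ≠ o → q w ≤ s.key c w.2 := fun w hw e =>
        (hq w (hWW hw) w1 (hWW hw1) c (hFD w1 hw1 w hw e1 e).symm).2 e
      have f12 := hFD w1 hw1 w2 hw2 e1 e2
      have p1 := (s.fd_real_play (hW w1 (hWW hw1)) (hW w2 (hWW hw2)) f12).2
      have p2 := (s.fd_real_play (hW w2 (hWW hw2)) (hW w1 (hWW hw1)) f12.symm).2
      have hKi : insert c K ⊆ insert c A := Finset.insert_subset_insert _ hK
      set W1 := W'.filter fun w => w.1 c = o with hW1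
      set W2 := W'.filter fun w => ¬ w.1 c = o with hW2
      have i1 := ih (insert c A) hn1 hA1 w1.1 (insert c K) W1 hKi
        (fun c' hc' => by
          rcases Finset.mem_insert.1 hc' with rfl | h
          · exact p1
          · exact (hplay w1 hw1 c' h).2)
        ((Finset.filter_subset _ _).trans hWW)
        (fun w hw => hag w1 hw1 w (Finset.mem_filter.1 hw).1
          ((Finset.mem_filter.1 hw).2.trans e1.symm))
        (fun c' hc' w hw => by
          rcases Finset.mem_insert.1 hc' with rfl | h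
          · exact ⟨fun _ => hq1 w (Finset.mem_filter.1 hw).1 (Finset.mem_filter.1 hw).2,
              fun h => absurd e1 h⟩
          · rw [hx w1 hw1 c' (hK h)]
            exact hc c' h w (Finset.mem_filter.1 hw).1)
        ⟨w1, Finset.mem_filter.2 ⟨hw1, e1⟩⟩
      have i2 := ih (insert c A) hn1 hA1 w2.1 (insert c K) W2 hKi
        (fun c' hc' => by
          rcases Finset.mem_insert.1 hc' with rfl | h
          · exact p2
          · exact (hplay w2 hw2 c' h).2)
        ((Finset.filter_subset _ _).trans hWW)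
        (fun w hw => hag w2 hw2 w (Finset.mem_filter.1 hw).1 (by
          have a1 := (Finset.mem_filter.1 hw).2
          revert a1 e2
          cases w.1 c <;> cases w2.1 c <;> cases o <;> simp))
        (fun c' hc' w hw => by
          rcases Finset.mem_insert.1 hc' with rfl | h
          · exact ⟨fun h => absurd h e2,
              fun _ => hq2 w (Finset.mem_filter.1 hw).1 (Finset.mem_filter.1 hw).2⟩
          · rw [hx w2 hw2 c' (hK h)]
            exact hc c' h w (Finset.mem_filter.1 hw).1)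
        ⟨w2, Finset.mem_filter.2 ⟨hw2, e2⟩⟩
      have hb := hBRA Γ s hG w1.1 w2.1 o A K c hlow f12.2 e1 e2 p1 (hplay w1 hw1)
      rw [hpot w1 hw1] at hb
      have c1 : W1.card + W2.card = W'.card := Finset.card_filter_add_card_filter_not _
      have c2 : W1.image Prod.snd ∪ W2.image Prod.snd = W'.image Prod.snd := by
        rw [← Finset.image_union, Finset.filter_union_filter_not_eq]
      have c3 := Finset.card_union_add_card_inter (W1.image Prod.snd) (W2.image Prod.snd)
      have c4 : (W1.image Prod.snd ∩ W2.image Prod.snd).card ≤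
          Set.ncard {g : s.Tm | s.In w1.1 o K (s.blk c g) (s.yv g (s.bt c / s.Tb)) g} := by
        rw [← Set.ncard_coe_finset]
        refine Set.ncard_le_ncard (fun g hg => ?_) (Set.toFinite _)
        obtain ⟨g1, g2⟩ := Finset.mem_inter.1 (Finset.mem_coe.1 hg)
        obtain ⟨w, hw, rfl⟩ := Finset.mem_image.1 g1
        obtain ⟨w', hw', e⟩ := Finset.mem_image.1 g2
        obtain ⟨hw, a1⟩ := Finset.mem_filter.1 hw
        obtain ⟨hw', a2⟩ := Finset.mem_filter.1 hw'
        have b1 := hq1 w hw a1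
        have b2 := hq2 w' hw' a2
        rw [e] at b2
        intro c' hc'
        change s.zh c' w.2 ≤ s.zh c w.2 ↔ _
        rw [hx w1 hw1 c' (hK hc')]
        by_cases h : x c' = o
        · have b3 := (hc c' hc' w' hw').1 h
          rw [e] at b3
          exact iff_of_true (zh_le s (b3.trans b2)) h
        · have b3 := (hc c' hc' w hw).2 h
          exact iff_of_false (not_zh_le s hG (hplay w1 hw1 c' hc').1 p1 (hplay w1 hw1 c' hc').2
            (b1.trans b3)) h
      rw [c2] at c3
      have d1 : (W1.card : ℝ) + W2.card = W'.card := by exact_mod_cast c1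
      have d3 : ((W'.image Prod.snd).card : ℝ) + (W1.image Prod.snd ∩ W2.image Prod.snd).card =
          (W1.image Prod.snd).card + (W2.image Prod.snd).card := by exact_mod_cast c3
      have d4 : ((W1.image Prod.snd ∩ W2.image Prod.snd).card : ℝ) ≤
          (Set.ncard {g : s.Tm | s.In w1.1 o K (s.blk c g) (s.yv g (s.bt c / s.Tb)) g} : ℕ) := by
        exact_mod_cast c4
      linarith

end CERTA

theorem p_CERT (hPRN : S_PRN) (hSKIP : S_SKIP) (hBRA : S_BRA) (hINI : S_INI) : S_CERT := by
  intro Γ _ _ _ s hG v o W q hW hq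
  rcases W.eq_empty_or_nonempty with rfl | ⟨w0, hw0⟩
  · have := hG.φ_pos
    rw [Finset.card_empty, Nat.cast_zero]
    positivity
  have h1 := CERTA.main s hPRN hSKIP hBRA hG v o W q hW hq _ ∅ rfl (by simp) w0.1 ∅ W
    (by simp) (by simp) (Finset.Subset.refl _) (by simp) (by simp) ⟨w0, hw0⟩
  have h2 := hINI Γ s hG w0.1 o
  have h3 : (W.image Prod.snd).card ≤ s.D ^ s.R := by
    refine (Finset.card_le_univ _).trans ?_
    simp
  have h4 : ((W.image Prod.snd).card : ℝ) ≤ (s.D : ℝ) ^ s.R := by exact_mod_cast h3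
  linarith

end Pool.Agent.Fur
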