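import Pool.Agent.P.MP_358d01_co.Fur.Base0

set_option autoImplicit false

namespace Pool.Agent.Fur

open Classical

namespace CLSA

theorem exists_par {t1 t2 u : ℝ} (h1 : t1 ≤ u) (h2 : u ≤ t2) :
    ∃ l : ℝ, 0 ≤ l ∧ l ≤ 1 ∧ u = (1 - l) * t1 + l * t2 := by
  rcases eq_or_lt_of_le (h1.trans h2) with he | hl
  · exact ⟨0, le_rfl, zero_le_one, by linarith⟩
  · have hp : 0 < t2 - t1 := by linarith
    refine ⟨(u - t1) / (t2 - t1), div_nonneg (by linarith) hp.le,
      (div_le_one hp).2 (by linarith), ?_⟩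
    field_simp
    ring

theorem abs_sign {e x : ℝ} (he : e = 1 ∨ e = -1) (hx : 0 ≤ e * x) : |x| = e * x := by
  rcases he with rfl | rfl
  · rw [one_mul] at hx ⊢
    exact abs_of_nonneg hx
  · rw [abs_of_nonpos (by linarith)]
    ring

theorem abs_comb {e x y l : ℝ} (he : e = 1 ∨ e = -1) (hx : 0 ≤ e * x) (hy : 0 ≤ e * y)
    (h0 : 0 ≤ l) (h1 : l ≤ 1) : |(1 - l) * x + l * y| = (1 - l) * |x| + l * |y| := by
  have hz : 0 ≤ e * ((1 - l) * x + l * y) := by
    have a1 := mul_nonneg (sub_nonneg.2 h1) hx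
    have a2 := mul_nonneg h0 hy
    nlinarith
  rw [abs_sign he hx, abs_sign he hy, abs_sign he hz]
  ring

theorem comb_lt {a1 b1 a2 b2 l : ℝ} (h0 : 0 ≤ l) (h1 : l ≤ 1) (k1 : a1 < b1) (k2 : a2 < b2) :
    (1 - l) * a1 + l * a2 < (1 - l) * b1 + l * b2 := by
  rcases eq_or_lt_of_le h0 with rfl | hl
  · linarith
  · have a := mul_le_mul_of_nonneg_left k1.le (sub_nonneg.2 h1)
    have b := mul_lt_mul_of_pos_left k2 hl
    linarith

end CLSA

open CLSA in
theorem p_CLS (hGRP : S_GRP) : S_CLS := by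
  intro ι G _ _ _ d T T' p j o e e' Y t w hX hY he he' hs hb hc
  let P : (ι → Bool) → G → Prop := fun xi g =>
    ∃ z ∈ Y, stage z j = xi ∧ ∃ z' ∈ Y, stage z' j = xi ∧ ∃ u : ℝ, t z ≤ u ∧ u ≤ t z' ∧
      (d.tm g : ℝ) ≤ u ∧ u ≤ d.tm g + d.tol
  have hgrp : ∀ xi, (Y.filter fun z => stage z j = xi).card ≤
      1 + T' * d.Ns * (Finset.univ.filter (P xi)).card := by
    intro xi
    refine hGRP ι G d T T' p j o _ t w _ ?_ ?_ ?_ ?_ ?_
    · intro z hz
      exact hX z (Finset.mem_filter.1 hz).1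
    · intro z hz z' hz' i hi
      rcases eq_or_lt_of_le hi with rfl | hl
      · rw [(Finset.mem_filter.1 hz).2, (Finset.mem_filter.1 hz').2]
      · exact hY z (Finset.mem_filter.1 hz).1 z' (Finset.mem_filter.1 hz').1 i hl
    · intro z hz
      exact hb z (Finset.mem_filter.1 hz).1
    · intro z hz z' hz'
      exact hc z (Finset.mem_filter.1 hz).1 z' (Finset.mem_filter.1 hz').1
    · intro g z hz z' hz' u h1 h2 h3 h4
      rw [Finset.mem_filter] at hz hz' ⊢
      exact ⟨Finset.mem_univ _, z, hz.1, hz.2, z', hz'.1, hz'.2, u, h1, h2, h3, h4⟩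
  have hq : ∀ v : (ι → Bool) × G, ∃ q : ℤ, P v.1 v.2 → ∀ z'' ∈ Y, ∀ c, FD v.1 (stage z'' j) c →
      (v.1 c = o → d.key c v.2 ≤ q) ∧ (v.1 c ≠ o → q ≤ d.key c v.2) := by
    rintro ⟨xi, g⟩
    by_cases hP : P xi g
    swap
    · exact ⟨0, fun h => absurd h hP⟩
    obtain ⟨z, hz, hzx, z', hz', hzx', u, h1, h2, h3, h4⟩ := hP
    obtain ⟨l, l0, l1, hu⟩ := exists_par h1 h2
    set ws : ℝ := (1 - l) * w z + l * w z' with hws
    have au : |u| = (1 - l) * |t z| + l * |t z'| := by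
      rw [hu]
      exact abs_comb he (hs z hz).1 (hs z' hz').1 l0 l1
    have aw : |ws| = (1 - l) * |w z| + l * |w z'| :=
      abs_comb he' (hs z hz).2 (hs z' hz').2 l0 l1
    have hthk : thk p.γ u ws = (1 - l) * thk p.γ (t z) (w z) + l * thk p.γ (t z') (w z') := by
      unfold thk
      rw [au, aw]
      ring
    have hL : ∀ c, d.L p.τ p.η p.μ j c u ws =
        (1 - l) * d.L p.τ p.η p.μ j c (t z) (w z) + l * d.L p.τ p.η p.μ j c (t z') (w z') := by
      intro c
      unfold Gad.L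
      rw [hu, hws]
      ring
    have hband : p.μ ^ (2 * (j : ℕ) + 1) * |ws| < |u| + 1 := by
      have := comb_lt l0 l1 (hb z hz) (hb z' hz')
      rw [au, aw]
      linarith
    have hown := p.own j g u ws h3 h4 hband
    have hη := p.η_pos
    refine ⟨⌊(u - p.τ j + p.μ ^ (2 * (j : ℕ)) * ws) / p.η + 1 / 4⌋, fun _ z'' hz'' c hfd => ?_⟩
    have f1 : FD z z'' (toLex (j, c)) :=
      (FD_stage_iff z z'' j c).2 ⟨hY z hz z'' hz'', by rw [hzx]; exact hfd⟩
    have f2 : FD z' z'' (toLex (j, c)) :=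
      (FD_stage_iff z' z'' j c).2 ⟨hY z' hz' z'' hz'', by rw [hzx']; exact hfd⟩
    have c1 := hc z hz z'' hz'' j c f1
    have c2 := hc z' hz' z'' hz'' j c f2
    rw [hzx] at c1
    rw [hzx'] at c2
    have hl := d.line xi (hzx ▸ hX z hz j) _ (hX z'' hz'' j) c hfd g u h3 h4
    have eL : d.L p.τ p.η p.μ j c u ws =
        p.η * ((u - p.τ j + p.μ ^ (2 * (j : ℕ)) * ws) / p.η - (d.a c + d.b c * u)) := by
      unfold Gad.L
      field_simp
      ring
    generalize (u - p.τ j + p.μ ^ (2 * (j : ℕ)) * ws) / p.η = A at eL ⊢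
    constructor
    · intro ho
      have k := comb_lt l0 l1 (c1.1 ho) (c2.1 ho)
      have k2 : p.η * (-(1 / 4)) < p.η * (A - (d.a c + d.b c * u)) := by
        rw [← eL, hL c]
        linarith
      have k3 := lt_of_mul_lt_mul_left k2 hη.le
      rw [Int.le_floor]
      linarith [hl.1]
    · intro ho
      have k := comb_lt l0 l1 (c1.2 ho) (c2.2 ho)
      have k2 : p.η * (A - (d.a c + d.b c * u)) < p.η * (1 / 4) := by
        rw [← eL, hL c]
        linarith
      have k3 := lt_of_mul_lt_mul_left k2 hη.le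
      rw [Int.floor_le_iff]
      linarith [hl.2]
  choose q hq using hq
  let W : Finset ((ι → Bool) × G) := (d.X ×ˢ Finset.univ).filter fun v => P v.1 v.2
  have hW : W.card ≤ d.Φ := by
    refine d.cert o W q ?_ ?_
    · intro v hv
      exact (Finset.mem_product.1 (Finset.mem_filter.1 hv).1).1
    · intro v hv v' hv' c hfd
      obtain ⟨z'', hz'', hzx, -⟩ := (Finset.mem_filter.1 hv').2
      exact hq v (Finset.mem_filter.1 hv).2 z'' hz'' c (by rw [hzx]; exact hfd)
  have hWc : W.card = ∑ xi ∈ d.X, (Finset.univ.filter (P xi)).card := by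
    simp only [W, Finset.card_filter, Finset.sum_product]
  have hYc : Y.card = ∑ xi ∈ d.X, (Y.filter fun z => stage z j = xi).card :=
    Finset.card_eq_sum_card_fiberwise (fun z hz => hX z hz j)
  calc Y.card = ∑ xi ∈ d.X, (Y.filter fun z => stage z j = xi).card := hYc
    _ ≤ ∑ xi ∈ d.X, (1 + T' * d.Ns * (Finset.univ.filter (P xi)).card) :=
        Finset.sum_le_sum fun xi _ => hgrp xi
    _ = d.X.card + T' * d.Ns * W.card := by
        rw [Finset.sum_add_distrib, ← Finset.mul_sum, hWc]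
        simp
    _ ≤ d.X.card + T' * d.Ns * d.Φ := Nat.add_le_add_left (Nat.mul_le_mul_left _ hW) _

end Pool.Agent.Fur
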