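import Pool.Agent.P.MP_358d01_co.Fur.Base0

set_option autoImplicit false

namespace Pool.Agent.Fur

open Classical

namespace EXPA

theorem lin_eq (f : EuclideanSpace ℝ (Fin 3) →L[ℝ] ℝ) (x : EuclideanSpace ℝ (Fin 3)) :
    f x = ∑ i, x i * f (EuclideanSpace.single i (1 : ℝ)) := by
  have e : x = ∑ i, x i • EuclideanSpace.single i (1 : ℝ) := by
    ext j
    simp [Fin.sum_univ_three]
    fin_cases j <;> simp
  conv_lhs => rw [e]
  rw [map_sum]
  refine Finset.sum_congr rfl fun i _ => ?_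
  rw [map_smul, smul_eq_mul]

theorem normalize (T : Finset (EuclideanSpace ℝ (Fin 3))) (p : EuclideanSpace ℝ (Fin 3))
    (θ : Fin 3 → ℝ) (h1 : θ 1 ≠ 0) (h : ∀ q ∈ T, q ≠ p → 0 < ∑ i, θ i * (p i - q i)) :
    ∃ θ : Fin 3 → ℝ, (θ 1 = 1 ∨ θ 1 = -1) ∧ ∀ q ∈ T, q ≠ p → 0 < ∑ i, θ i * (p i - q i) := by
  have hpos : 0 < |θ 1| := abs_pos.2 h1
  refine ⟨fun i => θ i / |θ 1|, ?_, fun q hq hne => ?_⟩
  · rcases lt_or_gt_of_ne h1 with hl | hl
    · right
      show θ 1 / |θ 1| = -1
      rw [abs_of_neg hl]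
      field_simp
    · left
      show θ 1 / |θ 1| = 1
      rw [abs_of_pos hl]
      field_simp
  · have e : ∑ i, θ i / |θ 1| * (p i - q i) = (∑ i, θ i * (p i - q i)) / |θ 1| := by
      rw [Finset.sum_div]
      exact Finset.sum_congr rfl fun i _ => by ring
    rw [e]
    exact div_pos (h q hq hne) hpos

end EXPA

theorem p_EXP : S_EXP := by
  intro T p hp
  have hfin : ((T : Set (EuclideanSpace ℝ (Fin 3))) \ {p}).Finite := T.finite_toSet.subset Set.sdiff_subset
  obtain ⟨f, u, hu, hq⟩ := geometric_hahn_banach_point_closed (convex_convexHull ℝ _)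
    (hfin.isCompact_convexHull ℝ).isClosed hp
  have key : ∀ q ∈ T, q ≠ p →
      u - f p < ∑ i, (-f (EuclideanSpace.single i (1 : ℝ))) * (p i - q i) := by
    intro q hqT hne
    have h1 : u < f q := hq q (subset_convexHull ℝ _ ⟨hqT, hne⟩)
    have h2 := EXPA.lin_eq f p
    have h3 := EXPA.lin_eq f q
    simp only [Fin.sum_univ_three] at h2 h3 ⊢
    linarith
  have hδ : 0 < u - f p := by linarith
  by_cases h0 : -f (EuclideanSpace.single 1 (1 : ℝ)) = 0
  · have hM : 0 < ∑ q ∈ T, |p 1 - q 1| + 1 := by positivity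
    set ε : ℝ := (u - f p) / (∑ q ∈ T, |p 1 - q 1| + 1) with hε
    have hεpos : 0 < ε := div_pos hδ hM
    refine EXPA.normalize T p
      (fun i => -f (EuclideanSpace.single i (1 : ℝ)) + if i = 1 then ε else 0) ?_ ?_
    · show -f (EuclideanSpace.single 1 (1 : ℝ)) + (if (1 : Fin 3) = 1 then ε else 0) ≠ 0
      rw [h0, if_pos rfl, zero_add]
      exact hεpos.ne'
    · intro q hqT hne
      have h1 := key q hqT hne
      have h2 : |p 1 - q 1| ≤ ∑ q ∈ T, |p 1 - q 1| :=
        Finset.single_le_sum (f := fun q : EuclideanSpace ℝ (Fin 3) => |p 1 - q 1|)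
          (fun _ _ => abs_nonneg _) hqT
      have h3 : ε * (∑ q ∈ T, |p 1 - q 1| + 1) = u - f p := by
        rw [hε]; field_simp
      have h4 : -|p 1 - q 1| ≤ p 1 - q 1 := neg_abs_le _
      have h5 : -(u - f p) ≤ ε * (p 1 - q 1) := by nlinarith
      simp only [Fin.sum_univ_three] at h1 ⊢
      have e0 : ((0 : Fin 3) = 1) = False := by simp
      have e2 : ((2 : Fin 3) = 1) = False := by simp
      simp only [e0, e2, if_true, if_false]
      linarith
  · exact EXPA.normalize T p (fun i => -f (EuclideanSpace.single i (1 : ℝ))) h0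
      (fun q hqT hne => hδ.trans (key q hqT hne))

end Pool.Agent.Fur
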