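import Pool.Agent.P.MP_358d01_co.Fur.Base

set_option autoImplicit false

namespace Pool.Agent.Fur

open Classical

namespace GADA

theorem num1 (K D N : ℕ) (hD : 40 * K ≤ D) (h1 : 1 ≤ D) (hN : 1 ≤ N) :
    K * (1 + N * (D * (D ^ 3 + 1) + 2 * D ^ 4)) * 8 ≤ D ^ 5 * N := by
  have e1 : 1 ≤ D ^ 4 := Nat.one_le_pow _ _ h1
  have e2 : D ≤ D ^ 4 := by
    calc D = D ^ 1 := (pow_one D).symm
      _ ≤ D ^ 4 := Nat.pow_le_pow_right h1 (by norm_num)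
  have e3 : 1 + (D * (D ^ 3 + 1) + 2 * D ^ 4) ≤ 5 * D ^ 4 := by
    have : D * (D ^ 3 + 1) = D ^ 4 + D := by ring
    omega
  have e4 : 1 + N * (D * (D ^ 3 + 1) + 2 * D ^ 4) ≤ N * (5 * D ^ 4) := by
    calc 1 + N * (D * (D ^ 3 + 1) + 2 * D ^ 4) ≤ N + N * (D * (D ^ 3 + 1) + 2 * D ^ 4) := by omega
      _ = N * (1 + (D * (D ^ 3 + 1) + 2 * D ^ 4)) := by ring
      _ ≤ N * (5 * D ^ 4) := Nat.mul_le_mul_left _ e3
  calc K * (1 + N * (D * (D ^ 3 + 1) + 2 * D ^ 4)) * 8 ≤ K * (N * (5 * D ^ 4)) * 8 :=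
        Nat.mul_le_mul_right _ (Nat.mul_le_mul_left _ e4)
    _ = (40 * K) * (D ^ 4 * N) := by ring
    _ ≤ D * (D ^ 4 * N) := Nat.mul_le_mul_right _ hD
    _ = D ^ 5 * N := by ring

theorem num2 (D N : ℕ) (P : ℝ) (hP : 0 ≤ P) (h1 : 1 ≤ D) :
    P + P * (N : ℝ) * ((D : ℝ) * ((D : ℝ) ^ 3 + 1 / 2) + 2 * ((D ^ 5 : ℕ) : ℝ) / D) ≤
      P * ((1 + N * (D * (D ^ 3 + 1) + 2 * D ^ 4) : ℕ) : ℝ) := by
  have hD : (0 : ℝ) < D := by exact_mod_cast h1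
  have e : 2 * ((D ^ 5 : ℕ) : ℝ) / D = 2 * (D : ℝ) ^ 4 := by
    push_cast
    field_simp
  rw [e]
  push_cast
  have hN : (0 : ℝ) ≤ N := Nat.cast_nonneg N
  have h2 : 0 ≤ P * (N : ℝ) * (D : ℝ) := by positivity
  nlinarith [h2]

end GADA

theorem p_GAD (hPLAY : S_PLAY) (hLEAF : S_LEAF) (hCERT : S_CERT) (hSLO : S_SLO) (hNUM : S_NUM) : S_GAD := by
  intro K0
  obtain ⟨D, hD3, hDK⟩ : ∃ D : ℕ, 3 ≤ D ∧ 40 * K0 ≤ D := ⟨40 * K0 + 3, by omega, by omega⟩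
  have hD1 : 1 ≤ D := by omega
  have hDr : (0 : ℝ) < D := by exact_mod_cast hD1
  obtain ⟨Γ, i1, i2, i3, s, eD, eR, eT, eφ, hG, hreal, tm, tol, a, b, hinj, ht0, ht1, hline⟩ :=
    hNUM D (D ^ 5) (2 ^ (D ^ (D ^ 5))) ((D : ℝ) ^ 3) hD3 (by positivity) (by positivity)
      (by positivity)
  have hpl := hPLAY Γ s hG (by rw [eD, eR, eT]) (by
    rw [eD, eR, eφ]
    push_cast
    exact le_of_eq (by ring))
  obtain ⟨v, hv⟩ := hLEAF Γ s hreal hpl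
  obtain ⟨hs1, hs2⟩ := hSLO Γ s hG
  have hN : 1 ≤ Nat.card Γ := Nat.card_pos
  have hR8 : 8 ≤ s.R * Nat.card Γ := by
    rw [eR]
    calc 8 ≤ 3 ^ 5 * 1 := by norm_num
      _ ≤ D ^ 5 * Nat.card Γ := Nat.mul_le_mul (Nat.pow_le_pow_left hD3 5) hN
  have hD0 : 0 < s.D := by rw [eD]; omega
  refine ⟨s.Cand, s.Tm, inferInstance, inferInstance, inferInstance, ⟨fun _ => ⟨0, hD0⟩⟩,
    { X := s.leaves v
      key := s.key
      a := a
      b := b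
      tm := tm
      tol := tol
      Tb := s.Tb
      k := s.R * Nat.card Γ / 8
      Φ := s.D ^ s.R * (1 + Nat.card Γ * (D * (D ^ 3 + 1) + 2 * D ^ 4))
      Ns := s.R * Nat.card Γ
      tm_inj := hinj
      tol_pos := ht0
      tol_le := ht1
      Tb_pos := hG.Tb_pos
      card_ge := hv
      line := fun x hx y hy c h g t h1 h2 => hline c (s.fd_real_play hx hy h).1 g t h1 h2
      slots := fun g => by
        obtain ⟨Z, hZ, hZ'⟩ := hs1 g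
        exact ⟨Z, hZ, fun _ _ _ _ c _ => hZ' c⟩
      slot_ne := fun g x hx y hy y' hy' c c' h h' hne =>
        hs2 x g c c' (s.fd_real_play hx hy h).2 (s.fd_real_play hx hy' h').2 hne
      cert := fun o W q h1 h2 => by
        have h3 := hCERT Γ s hG v o W q h1 h2
        have h4 := GADA.num2 D (Nat.card Γ) ((s.D : ℝ) ^ s.R) (by positivity) hD1
        have h5 : (W.card : ℝ) ≤ (s.D : ℝ) ^ s.R *
            ((1 + Nat.card Γ * (D * (D ^ 3 + 1) + 2 * D ^ 4) : ℕ) : ℝ) := by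
          refine h3.trans (le_of_eq_of_le ?_ h4)
          rw [eφ]
          congr 2
          rw [eD, eR]
        exact_mod_cast h5 }, ?_, ?_, ?_⟩
  · change 1 ≤ s.R * Nat.card Γ / 8
    omega
  · change s.R * Nat.card Γ ≤ 16 * (s.R * Nat.card Γ / 8)
    omega
  · change K0 * (s.D ^ s.R * (1 + Nat.card Γ * (D * (D ^ 3 + 1) + 2 * D ^ 4))) ≤
      Fintype.card (Fin s.R → Fin s.D) * (s.R * Nat.card Γ / 8)
    have ec : Fintype.card (Fin s.R → Fin s.D) = s.D ^ s.R := by simp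
    rw [ec, Nat.mul_left_comm]
    refine Nat.mul_le_mul_left _ ((Nat.le_div_iff_mul_le (by norm_num)).2 ?_)
    rw [eR]
    exact GADA.num1 K0 D _ hDK hD1 hN

end Pool.Agent.Fur
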