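import Pool.Agent.P.MP_358d01_co.Fur.Base0

set_option autoImplicit false

namespace Pool.Agent.Fur

open Classical

namespace GRPA

theorem bool_or {a b : Bool} (h : a ≠ b) (o : Bool) : a = o ∨ b = o := by
  cases a <;> cases b <;> cases o <;> simp_all

end GRPA

theorem p_GRP (hONE : S_ONE) : S_GRP := by
  intro ι G _ _ d T T' p j o Y t w V hX hag hband hsep hV
  set sl : Lex (Fin T × ι) → Fin T × ℤ := fun e =>
    ((ofLex e).1, d.key (ofLex e).2 (p.gs (ofLex e).1) / (d.Tb : ℤ)) with hsl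
  set lo : Fin T × ℤ → ℝ := fun s => p.τ s.1 + p.η * ((s.2 : ℝ) * d.Tb - 1 / 4) with hlo
  set hi : Fin T × ℤ → ℝ := fun s => p.τ s.1 + p.η * ((s.2 : ℝ) * d.Tb + d.Tb - 1 / 4) with hhi
  have hη := p.η_pos
  have hTb : (0 : ℤ) < d.Tb := by exact_mod_cast d.Tb_pos
  have act : ∀ z ∈ Y, ∀ z' ∈ Y, ∀ i c, FD z z' (toLex (i, c)) → d.Act c := fun z hz z' hz' i c h =>
    ⟨_, hX z hz i, _, hX z' hz' i, ((FD_stage_iff z z' i c).1 h).2⟩
  have core : ∀ z ∈ Y, ∀ z' ∈ Y, ∀ e, FD z z' e → z e = o → lo (sl e) < t z ∧ t z' < hi (sl e) := by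
    intro z hz z' hz' e h ho
    obtain ⟨i, c⟩ := e
    have hji : j < i := by
      by_contra hn
      exact h.1 (congrFun (hag z hz z' hz' i (not_lt.1 hn)) c)
    have ha := act z hz z' hz' i c h
    have h1 := (p.late j i c (t z) (w z) hji ha (hband z hz)).1 ((hsep z hz z' hz' i c h).1 ho)
    have h2 := (p.late j i c (t z') (w z') hji ha (hband z' hz')).2
      ((hsep z' hz' z hz i c h.symm).2 fun h' => h.1 (ho.trans h'.symm))
    have k1 : d.key c (p.gs i) / (d.Tb : ℤ) * d.Tb ≤ d.key c (p.gs i) :=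
      Int.ediv_mul_le _ hTb.ne'
    have k2 : d.key c (p.gs i) + 1 ≤ d.key c (p.gs i) / (d.Tb : ℤ) * d.Tb + d.Tb := by
      have := Int.lt_ediv_add_one_mul_self (d.key c (p.gs i)) hTb
      rw [add_mul, one_mul] at this
      omega
    have k1' : ((d.key c (p.gs i) / (d.Tb : ℤ) : ℤ) : ℝ) * d.Tb ≤ d.key c (p.gs i) := by
      exact_mod_cast k1
    have k2' : (d.key c (p.gs i) : ℝ) + 1 ≤
        ((d.key c (p.gs i) / (d.Tb : ℤ) : ℤ) : ℝ) * d.Tb + d.Tb := by
      exact_mod_cast k2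
    have m1 := mul_le_mul_of_nonneg_left k1' hη.le
    have m2 := mul_le_mul_of_nonneg_left k2' hη.le
    constructor
    · change p.τ i + p.η * (((d.key c (p.gs i) / (d.Tb : ℤ) : ℤ) : ℝ) * d.Tb - 1 / 4) < t z
      linarith
    · change t z' < p.τ i + p.η * (((d.key c (p.gs i) / (d.Tb : ℤ) : ℤ) : ℝ) * d.Tb + d.Tb - 1 / 4)
      linarith
  have ne : ∀ y ∈ Y, ∀ y' ∈ Y, ∀ y'' ∈ Y, ∀ c c', FD y y' c → FD y y'' c' → c ≠ c' →
      sl c ≠ sl c' := by
    rintro y hy y' hy' y'' hy'' ⟨i, c⟩ ⟨i', c'⟩ h h' hne he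
    obtain ⟨h1, h2⟩ := Prod.ext_iff.1 he
    obtain rfl : i = i' := h1
    exact d.slot_ne (p.gs i) _ (hX y hy i) _ (hX y' hy' i) _ (hX y'' hy'' i) c c'
      ((FD_stage_iff y y' i c).1 h).2 ((FD_stage_iff y y'' i c').1 h').2
      (fun e => hne (by rw [e])) h2
  have dis : ∀ y ∈ Y, ∀ y' ∈ Y, ∀ z ∈ Y, ∀ z' ∈ Y, ∀ c c', FD y y' c → FD z z' c' →
      sl c ≠ sl c' → hi (sl c) ≤ lo (sl c') ∨ hi (sl c') ≤ lo (sl c) := by
    rintro y hy y' hy' z hz z' hz' ⟨i, c⟩ ⟨i', c'⟩ h h' hne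
    by_cases hi' : i = i'
    · subst hi'
      have hT : (0 : ℝ) < d.Tb := by exact_mod_cast d.Tb_pos
      have step : ∀ s s' : ℤ, s < s' → hi (i, s) ≤ lo (i, s') := by
        intro s s' hs
        have h1 : (s : ℝ) + 1 ≤ s' := by exact_mod_cast hs
        have h2 := mul_le_mul_of_nonneg_left (mul_le_mul_of_nonneg_right h1 hT.le) hη.le
        change p.τ i + p.η * ((s : ℝ) * d.Tb + d.Tb - 1 / 4) ≤
          p.τ i + p.η * ((s' : ℝ) * d.Tb - 1 / 4)
        linarith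
      have hs : d.key c (p.gs i) / (d.Tb : ℤ) ≠ d.key c' (p.gs i) / (d.Tb : ℤ) :=
        fun e => hne (Prod.ext rfl e)
      rcases lt_or_gt_of_ne hs with hs | hs
      · exact Or.inl (step _ _ hs)
      · exact Or.inr (step _ _ hs)
    · exact p.apart i i' c c' (act y hy y' hy' i c h) (act z hz z' hz' i' c' h') hi'
  choose Zg hZ1 hZ2 using d.slots
  set I : Finset (Fin T) := Finset.univ.filter fun i => p.gs i ∈ V with hI
  set Z : Finset (Fin T × ℤ) := I.biUnion fun i => (Zg (p.gs i)).image fun s => (i, s) with hZ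
  have hIc : I.card ≤ T' * V.card :=
    Finset.card_le_mul_card_image_of_maps_to (f := p.gs)
      (fun i hi => (Finset.mem_filter.1 hi).2) T' fun g _ =>
      le_trans (Finset.card_le_card fun i hi =>
        Finset.mem_filter.2 ⟨Finset.mem_univ _, (Finset.mem_filter.1 hi).2⟩) (p.fib g)
  have hZc : Z.card ≤ T' * d.Ns * V.card := by
    have h1 : Z.card ≤ I.card * d.Ns :=
      Finset.card_biUnion_le_card_mul _ _ _ fun i _ => Finset.card_image_le.trans (hZ1 _)
    calc Z.card ≤ T' * V.card * d.Ns := h1.trans (Nat.mul_le_mul_right _ hIc)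
      _ = _ := by ring
  have inV : ∀ z ∈ Y, ∀ z' ∈ Y, ∀ i c, FD z z' (toLex (i, c)) → z (toLex (i, c)) = o →
      p.gs i ∈ V := by
    intro z hz z' hz' i c h ho
    obtain ⟨h1, h2⟩ := core z hz z' hz' _ h ho
    obtain ⟨s1, s2⟩ := p.strip i c (act z hz z' hz' i c h)
    have h1' : (d.tm (p.gs i) : ℝ) < t z := lt_of_le_of_lt s1 h1
    have h2' : t z' < d.tm (p.gs i) + d.tol := lt_of_lt_of_le h2 s2
    have := d.tol_pos
    rcases le_total (t z') (t z) with hl | hl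
    · exact hV _ z' hz' z hz (max (t z') (d.tm (p.gs i))) (le_max_left _ _) (max_le hl h1'.le)
        (le_max_right _ _) (max_le h2'.le (by linarith))
    · exact hV _ z hz z hz (t z) le_rfl le_rfl h1'.le (by linarith)
  have mem : ∀ y ∈ Y, ∀ y' ∈ Y, ∀ c, FD y y' c → sl c ∈ Z := by
    rintro y hy y' hy' ⟨i, c⟩ h
    have hg : p.gs i ∈ V := by
      rcases GRPA.bool_or h.1 o with ho | ho
      · exact inV y hy y' hy' i c h ho
      · exact inV y' hy' y hy i c h.symm ho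
    exact Finset.mem_biUnion.2 ⟨i, Finset.mem_filter.2 ⟨Finset.mem_univ _, hg⟩,
      Finset.mem_image.2 ⟨_, hZ2 (p.gs i) _ (hX y hy i) _ (hX y' hy' i) c
        ((FD_stage_iff y y' i c).1 h).2, rfl⟩⟩
  refine le_trans ?_ (Nat.add_le_add_left hZc 1)
  cases o
  · refine hONE _ _ Y (fun y => -t y) sl (fun s => -hi s) (fun s => -lo s) Z ?_ ne ?_ mem
    · intro y hy y' hy' c h ho
      have h1 : y' c = false := by
        have := h.1
        rw [ho] at this
        simpa using this.symm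
      have := core y' hy' y hy c h.symm h1
      exact ⟨neg_lt_neg this.2, neg_lt_neg this.1⟩
    · intro y hy y' hy' z hz z' hz' c c' h h' hne
      exact (dis y hy y' hy' z hz z' hz' c c' h h' hne).symm.imp neg_le_neg neg_le_neg
  · exact hONE _ _ Y t sl lo hi Z core ne dis mem

end Pool.Agent.Fur
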