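import Pool.Agent.P.MP_358d01_co.Fur.Base0

set_option autoImplicit false

namespace Pool.Agent.Fur

open Classical

namespace INDA

/-- Two events that depend on a set and on its complement. -/
theorem two {α : Type} [Finite α] (A : Set α) (E F : (α → Bool) → Prop)
    (hE : ∀ ω ω', (∀ a ∈ A, ω a = ω' a) → E ω → E ω')
    (hF : ∀ ω ω', (∀ a, a ∉ A → ω a = ω' a) → F ω → F ω') :
    Set.ncard {ω | E ω} * Set.ncard {ω | F ω} ≤
      Set.ncard {ω | E ω ∧ F ω} * Nat.card (α → Bool) := by
  rw [← Set.ncard_univ, ← Set.ncard_prod, ← Set.ncard_prod]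
  let mix : (α → Bool) → (α → Bool) → α → Bool := fun w w' a => if a ∈ A then w a else w' a
  refine Set.ncard_le_ncard_of_injOn (fun p => (mix p.1 p.2, mix p.2 p.1)) ?_ ?_ (Set.toFinite _)
  · rintro ⟨w, w'⟩ ⟨h1, h2⟩
    refine ⟨⟨hE w _ (fun a ha => ?_) h1, hF w' _ (fun a ha => ?_) h2⟩, Set.mem_univ _⟩
    · simp [mix, ha]
    · simp [mix, ha]
  · rintro ⟨w, w'⟩ - ⟨v, v'⟩ - h
    have h1 := congrArg Prod.fst h
    have h2 := congrArg Prod.snd h
    refine Prod.ext (funext fun a => ?_) (funext fun a => ?_)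
    · by_cases ha : a ∈ A
      · simpa [mix, ha] using congrFun h1 a
      · simpa [mix, ha] using congrFun h2 a
    · by_cases ha : a ∈ A
      · simpa [mix, ha] using congrFun h2 a
      · simpa [mix, ha] using congrFun h1 a

end INDA

theorem p_IND : S_IND := by
  intro α J _ _ A E hA hE h2
  have hpos : 0 < Nat.card (α → Bool) := Nat.card_pos
  have key : ∀ s : Finset J, Nat.card (α → Bool) ≤ 2 ^ s.card * Set.ncard {ω | ∀ j ∈ s, E j ω} := by
    intro s
    induction s using Finset.induction_on with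
    | empty => simp [Set.ncard_univ]
    | insert j s hj ih =>
      have h := INDA.two (A j) (E j) (fun ω => ∀ i ∈ s, E i ω) (hE j)
        (fun ω ω' hω h i hi => hE i ω ω' (fun a ha => hω a fun hb =>
          Set.disjoint_left.1 (hA j i fun e => hj (e ▸ hi)) hb ha) (h i hi))
      have e : {ω | ∀ i ∈ insert j s, E i ω} = {ω | E j ω ∧ ∀ i ∈ s, E i ω} := by
        ext ω
        simp
      rw [Finset.card_insert_of_notMem hj, e, pow_succ]
      refine Nat.le_of_mul_le_mul_right ?_ hpos
      calc Nat.card (α → Bool) * Nat.card (α → Bool)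
          ≤ (2 * Set.ncard {ω | E j ω}) * (2 ^ s.card * Set.ncard {ω | ∀ j ∈ s, E j ω}) :=
            Nat.mul_le_mul (h2 j) ih
        _ = 2 ^ s.card * 2 * (Set.ncard {ω | E j ω} * Set.ncard {ω | ∀ j ∈ s, E j ω}) := by ring
        _ ≤ 2 ^ s.card * 2 * (Set.ncard {ω | E j ω ∧ ∀ i ∈ s, E i ω} * Nat.card (α → Bool)) :=
            Nat.mul_le_mul_left _ h
        _ = _ := by ring
  have := Fintype.ofFinite J
  have h := key Finset.univ
  simpa [Nat.card_eq_fintype_card] using h

end Pool.Agent.Fur
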