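import Pool.Agent.P.MP_358d01_co.Fur.Base

set_option autoImplicit false

namespace Pool.Agent.Fur

open Classical

namespace INIA

theorem cnt {R D : ℕ} (hD : 0 < D) {r : ℕ} (hr : r < D) :
    ∑ g : Fin R → Fin D, ((Finset.univ.filter fun i : Fin R => (g i : ℕ) = r).card : ℝ) =
      (D : ℝ) ^ R * (R / D) := by
  have hD' : (0 : ℝ) < D := by exact_mod_cast hD
  have h1 : ∀ i : Fin R, ∑ g : Fin R → Fin D, (if (g i : ℕ) = r then (1 : ℝ) else 0) =
      (D : ℝ) ^ R / D := by
    intro i
    have h := sum_digit (D := D) i (fun _ => (1 : ℝ)) (fun _ _ => rfl)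
      (fun y => if y = r then (1 : ℝ) else 0)
    rw [Finset.sum_ite_eq' (Finset.range D) r (fun _ => (1 : ℝ))] at h
    simp only [one_mul, Finset.mem_range, hr, if_true, Finset.sum_const, Finset.card_univ,
      Fintype.card_pi, Fintype.card_fin, Finset.prod_const, nsmul_eq_mul, mul_one,
      Nat.cast_pow] at h
    rw [eq_div_iff hD'.ne', mul_comm]
    exact h
  have h2 : ∀ g : Fin R → Fin D,
      ((Finset.univ.filter fun i : Fin R => (g i : ℕ) = r).card : ℝ) =
        ∑ i : Fin R, (if (g i : ℕ) = r then (1 : ℝ) else 0) := by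
    intro g
    rw [Finset.card_filter]
    push_cast
    rfl
  rw [Finset.sum_congr rfl fun g _ => h2 g, Finset.sum_comm, Finset.sum_congr rfl fun i _ => h1 i]
  simp only [Finset.sum_const, Finset.card_univ, Fintype.card_fin, nsmul_eq_mul]
  ring

theorem two {D : ℕ} (c : ℝ) (hc : 0 ≤ c) :
    ∑ r ∈ Finset.range D, (if r = 0 ∨ r + 1 = D then c else 0) ≤ 2 * c := by
  have h : ∀ r ∈ Finset.range D, (if r = 0 ∨ r + 1 = D then c else 0) ≤
      (if r = 0 then c else 0) + (if r = D - 1 then c else 0) := by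
    intro r _
    by_cases h0 : r = 0
    · rw [if_pos (Or.inl h0), if_pos h0]
      split_ifs <;> linarith
    · rw [if_neg h0]
      by_cases h1 : r + 1 = D
      · rw [if_pos (Or.inr h1), if_pos (by omega)]
        linarith
      · rw [if_neg (by tauto)]
        split_ifs <;> linarith
  refine (Finset.sum_le_sum h).trans ?_
  rw [Finset.sum_add_distrib, Finset.sum_ite_eq' (Finset.range D) 0 (fun _ => c),
    Finset.sum_ite_eq' (Finset.range D) (D - 1) (fun _ => c)]
  split_ifs <;> linarith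

end INIA

theorem p_INI : S_INI := by
  intro Γ _ _ s hG x o
  have hD : 0 < s.D := by have := hG.D3; omega
  have hD' : (0 : ℝ) < s.D := by exact_mod_cast hD
  have e : ∀ (ζ : Γ), ∀ r ∈ Finset.range s.D,
      (∑ g : s.Tm, if s.In x o ∅ ζ r g then s.price x o ∅ ζ r g else 0) =
        (s.D : ℝ) ^ s.R * (s.φ + 1 / 2) +
          (if r = 0 ∨ r + 1 = s.D then (s.D : ℝ) ^ s.R * (s.R / s.D) else 0) := by
    intro ζ r hr
    have hr' : r < s.D := Finset.mem_range.1 hr
    have e1 : ∀ g : s.Tm, (if s.In x o ∅ ζ r g then s.price x o ∅ ζ r g else 0) =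
        (s.φ + 1 / 2) + s.res r g := by
      intro g
      have hI : s.In x o ∅ ζ r g := fun c hc => absurd hc (Finset.notMem_empty c)
      rw [if_pos hI]
      simp [Sys.price]
    rw [Finset.sum_congr rfl fun g _ => e1 g, Finset.sum_add_distrib]
    congr 1
    · simp [Sys.Tm]
      ring
    · unfold Sys.res
      split_ifs with h
      · exact INIA.cnt hD hr'
      · simp
  unfold Sys.pot
  rw [Finset.sum_congr rfl fun ζ _ => Finset.sum_congr rfl (e ζ)]
  simp only [Finset.sum_add_distrib, Finset.sum_const, Finset.card_range, Finset.card_univ,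
    nsmul_eq_mul, Nat.card_eq_fintype_card]
  have h2 := INIA.two (D := s.D) ((s.D : ℝ) ^ s.R * (s.R / s.D)) (by positivity)
  have hc : (0 : ℝ) ≤ Fintype.card Γ := by positivity
  have h3 := mul_le_mul_of_nonneg_left h2 hc
  have e4 : (s.D : ℝ) ^ s.R * (Fintype.card Γ : ℝ) * (s.D * (s.φ + 1 / 2) + 2 * s.R / s.D) =
      (Fintype.card Γ : ℝ) * (s.D * ((s.D : ℝ) ^ s.R * (s.φ + 1 / 2))) +
        (Fintype.card Γ : ℝ) * (2 * ((s.D : ℝ) ^ s.R * (s.R / s.D))) := by ring
  rw [e4]
  linarith

end Pool.Agent.Fur
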