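import Pool.Agent.P.MP_358d01_co.Fur.Base

set_option autoImplicit false

namespace Pool.Agent.Fur

open Classical

namespace LEAFA

theorem pow_ge (p k : ℕ) : (2 : ℤ) ^ k * (1 + p - k) ≤ 2 ^ p := by
  rcases le_or_gt k p with h | h
  · obtain ⟨d, rfl⟩ := Nat.exists_eq_add_of_le h
    have h1 : (d : ℤ) + 1 ≤ 2 ^ d := by exact_mod_cast Nat.lt_two_pow_self
    have h2 : (0 : ℤ) < 2 ^ k := by positivity
    rw [pow_add]
    push_cast
    nlinarith
  · have h1 : (p : ℤ) + 1 ≤ k := by exact_mod_cast h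
    have h2 : (0 : ℤ) < 2 ^ k := by positivity
    have h3 : (0 : ℤ) < 2 ^ p := by positivity
    nlinarith

theorem fib_le {α : Type} [Fintype (α → Bool)] (A : Finset α) (x : α → Bool)
    (F : Finset (α → Bool)) (hF : ∀ w ∈ F, ∀ c ∈ A, w c = x c) :
    F.card * 2 ^ A.card ≤ Fintype.card (α → Bool) := by
  rw [← Finset.card_powerset, ← Finset.card_product, ← Finset.card_univ]
  refine Finset.card_le_card_of_injOn
    (fun q : (α → Bool) × Finset α => fun c => if c ∈ A then decide (c ∈ q.2) else q.1 c)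
    (fun _ _ => Finset.mem_coe.2 (Finset.mem_univ _)) ?_
  rintro ⟨w, T⟩ h ⟨w', T'⟩ h' e
  simp only [Finset.coe_product, Set.mem_prod, Finset.mem_coe, Finset.mem_powerset] at h h'
  refine Prod.ext ?_ ?_
  · funext c
    by_cases hc : c ∈ A
    · exact (hF w h.1 c hc).trans (hF w' h'.1 c hc).symm
    · have := congrFun e c
      simpa [hc] using this
  · ext c
    by_cases hc : c ∈ A
    · have := congrFun e c
      simpa [hc] using this
    · exact ⟨fun t => absurd (h.2 t) hc, fun t => absurd (h'.2 t) hc⟩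

variable {Γ : Type} [AddCommGroup Γ] [Fintype Γ] (s : Sys Γ)

/-- The real played candidates. -/
noncomputable def RP (ω : s.Coin) : Finset s.Cand :=
  Finset.univ.filter fun c => s.real (s.bt c) (s.bl c) ∧ s.play ω (s.bt c) (s.bl c)

/-- Real coins from `w`, virtual coins from `v`. -/
noncomputable def mix (v w : s.Coin) : s.Coin :=
  fun c => if s.real (s.bt c) (s.bl c) then w c else v c

/-- The normal form. -/
noncomputable def nrm (ω : s.Coin) : s.Coin :=
  fun c => if s.real (s.bt c) (s.bl c) ∧ ¬ s.play ω (s.bt c) (s.bl c) then true else ω c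

omit [Fintype Γ] in
theorem play_nrm (ω : s.Coin) (β : ℕ) (ζ : Γ) : s.play (nrm s ω) β ζ ↔ s.play ω β ζ := by
  refine (s.play_ign ω (nrm s ω) β (fun β' _ ζ' hp => ?_) ζ).symm
  by_cases h : β' < s.B
  · rw [s.cn_mk _ h, s.cn_mk _ h]
    unfold nrm
    rw [if_neg]
    rintro ⟨-, h2⟩
    exact h2 hp
  · unfold Sys.cn
    rw [dif_neg h, dif_neg h]

theorem RP_nrm (ω : s.Coin) : RP s (nrm s ω) = RP s ω := by
  unfold RP
  simp only [play_nrm]

theorem nrm_mem (v w : s.Coin) : nrm s (mix s v w) ∈ s.leaves v := by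
  refine s.mem_leaves.2 fun c => ⟨fun h => ?_, fun h h' => ?_⟩
  · unfold nrm
    rw [if_neg (fun t => h t.1)]
    unfold mix
    rw [if_neg h]
  · rw [play_nrm] at h'
    unfold nrm
    rw [if_pos ⟨h, h'⟩]

theorem sum_pow_le (v : s.Coin) :
    ∑ w : s.Coin, 2 ^ (RP s (mix s v w)).card ≤ (s.leaves v).card * Fintype.card s.Coin := by
  rw [← Finset.sum_fiberwise_of_maps_to (s := Finset.univ) (t := s.leaves v)
    (g := fun w => nrm s (mix s v w)) (fun w _ => nrm_mem s v w), ← smul_eq_mul]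
  refine Finset.sum_le_card_nsmul _ _ _ fun x _ => ?_
  rw [Finset.sum_congr rfl (g := fun _ => 2 ^ (RP s x).card), Finset.sum_const, smul_eq_mul]
  · refine fib_le (RP s x) x _ fun w hw c hc => ?_
    have e : nrm s (mix s v w) = x := (Finset.mem_filter.1 hw).2
    have hc' := (Finset.mem_filter.1 hc).2
    rw [← e] at hc' ⊢
    rw [play_nrm] at hc'
    unfold nrm
    rw [if_neg (fun t => t.2 hc'.2)]
    unfold mix
    rw [if_pos hc'.1]
  · intro w hw
    have e : nrm s (mix s v w) = x := (Finset.mem_filter.1 hw).2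
    rw [← e, RP_nrm]

theorem sum_mix (p : s.Coin → ℕ) :
    ∑ v : s.Coin, ∑ w : s.Coin, p (mix s v w) = Fintype.card s.Coin * ∑ ω, p ω := by
  let σ : s.Coin × s.Coin → s.Coin × s.Coin := fun q => (mix s q.1 q.2, mix s q.2 q.1)
  have hσ : Function.Involutive σ := by
    intro q
    refine Prod.ext ?_ ?_ <;> funext c <;> simp only [σ, mix] <;> split_ifs <;> rfl
  rw [← Fintype.sum_prod_type' (f := fun v w => p (mix s v w))]
  have e : ∑ q : s.Coin × s.Coin, p (mix s q.1 q.2) = ∑ q : s.Coin × s.Coin, p q.1 :=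
    Equiv.sum_comp hσ.toPerm (fun q => p q.1)
  rw [e, Fintype.sum_prod_type, Finset.mul_sum]
  simp

theorem sum_RP : ∑ ω : s.Coin, (RP s ω).card =
    ∑ β ∈ Finset.range s.B, Set.ncard {ζ | s.real β ζ} * s.np β 0 := by
  have e1 : ∑ ω : s.Coin, (RP s ω).card =
      ∑ c : s.Cand, if s.real (s.bt c) (s.bl c) then s.np (s.bt c) 0 else 0 := by
    simp only [RP, Finset.card_filter]
    rw [Finset.sum_comm]
    refine Finset.sum_congr rfl fun c _ => ?_
    split_ifs with h
    · rw [← s.np_eq (s.bt c) (s.bl c), Sys.np, ncard_eq_filter, Finset.card_filter]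
      simp [h]
    · simp [h]
  rw [e1, ← Equiv.sum_comp toLex, Fintype.sum_prod_type,
    ← Fin.sum_univ_eq_sum_range (fun β => Set.ncard {ζ | s.real β ζ} * s.np β 0) s.B]
  refine Finset.sum_congr rfl fun β _ => ?_
  simp only [Sys.bt_mk, Sys.bl_mk]
  rw [ncard_eq_filter, ← Finset.sum_filter, Finset.sum_const, smul_eq_mul]

theorem sum_range_mul (f : ℕ → ℕ) (R T : ℕ) :
    ∑ β ∈ Finset.range (R * T), f β = ∑ ρ ∈ Finset.range R, ∑ j ∈ Finset.range T, f (ρ * T + j) := by
  induction R with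
  | zero => simp
  | succ R ih => rw [Nat.succ_mul, Finset.sum_range_add, ih, Finset.sum_range_succ]

end LEAFA

open LEAFA in
theorem p_LEAF : S_LEAF := by
  intro Γ _ _ s h1 h2
  rw [Nat.card_eq_fintype_card (α := s.Coin)] at h2
  set M := Fintype.card s.Coin with hM
  set N := Nat.card Γ with hN
  set k := s.R * N / 8 with hk
  have hMpos : 0 < M := Fintype.card_pos
  have a1 : N * ∑ β ∈ Finset.range s.B, s.np β 0 ≤ 2 * ∑ ω : s.Coin, (RP s ω).card := by
    rw [sum_RP, Finset.mul_sum, Finset.mul_sum]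
    refine Finset.sum_le_sum fun β hβ => ?_
    rw [← mul_assoc]
    exact Nat.mul_le_mul_right _ (h1 β (Finset.mem_range.1 hβ))
  have a2 : s.R * M ≤ 4 * ∑ β ∈ Finset.range s.B, s.np β 0 := by
    rw [sum_range_mul (fun β => s.np β 0) s.R s.Tb, Finset.mul_sum]
    have := Finset.card_nsmul_le_sum (Finset.range s.R) _ M
      (fun ρ hρ => h2 ρ (Finset.mem_range.1 hρ))
    simpa using this
  have a3 : k * M ≤ ∑ ω : s.Coin, (RP s ω).card := by
    have b1 : 8 * k ≤ s.R * N := Nat.mul_div_le _ _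
    have b2 := Nat.mul_le_mul_right M b1
    have b3 := Nat.mul_le_mul_left N a2
    nlinarith
  obtain ⟨v, -, hv⟩ : ∃ v ∈ (Finset.univ : Finset s.Coin),
      k * M ≤ ∑ w : s.Coin, (RP s (mix s v w)).card := by
    refine Finset.exists_le_of_sum_le Finset.univ_nonempty ?_
    rw [sum_mix s (fun ω => (RP s ω).card), Finset.sum_const, Finset.card_univ, smul_eq_mul]
    exact Nat.mul_le_mul_left _ a3
  refine ⟨v, Nat.le_of_mul_le_mul_right ?_ hMpos⟩
  refine le_trans ?_ (sum_pow_le s v)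
  have c1 : ∑ w : s.Coin, (2 : ℤ) ^ k * (1 + ((RP s (mix s v w)).card : ℤ) - k) ≤
      ∑ w : s.Coin, (2 : ℤ) ^ (RP s (mix s v w)).card :=
    Finset.sum_le_sum fun w _ => pow_ge _ _
  rw [← Finset.mul_sum, Finset.sum_sub_distrib, Finset.sum_add_distrib] at c1
  simp only [Finset.sum_const, Finset.card_univ, nsmul_eq_mul, mul_one] at c1
  have c2 : (k : ℤ) * M ≤ ∑ w : s.Coin, ((RP s (mix s v w)).card : ℤ) := by exact_mod_cast hv
  have c3 : (0 : ℤ) < 2 ^ k := by positivity
  have c4 : (2 : ℤ) ^ k * M ≤ ∑ w : s.Coin, (2 : ℤ) ^ (RP s (mix s v w)).card := by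
    refine le_trans (mul_le_mul_of_nonneg_left ?_ c3.le) c1
    rw [← hM]
    linarith
  exact_mod_cast c4

end Pool.Agent.Fur
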