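import Pool.Agent.P.MP_358d01_co.Fur.Base

set_option autoImplicit false

namespace Pool.Agent.Fur

open Classical

namespace MOMA

variable {Γ : Type} [AddCommGroup Γ] [Fintype Γ] (s : Sys Γ)

theorem cross (β : ℕ) (hβ : β < s.B) (ζ : Γ) (r : ℕ) (g : s.Tm) :
    ∑ ω : s.Coin, s.S ω β ζ r g * (if s.play ω β (ζ - s.sh β g) then
      sg (s.cn ω β (ζ - s.sh β g)) * step s.D r (s.yv g (β / s.Tb)) else 0) = 0 := by
  let c0 : s.Cand := toLex (⟨β, hβ⟩, ζ - s.sh β g)
  let fl : s.Coin → s.Coin := fun ω => Function.update ω c0 (!ω c0)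
  have hfl : Function.Involutive fl := by
    intro ω
    simp [fl]
  have hag : ∀ ω : s.Coin, ∀ c : s.Cand, s.bt c < β → fl ω c = ω c := by
    intro ω c hc
    have : c ≠ c0 := fun e => by rw [e] at hc; exact lt_irrefl _ hc
    simp [fl, Function.update_of_ne this]
  set f : s.Coin → ℝ := fun ω => s.S ω β ζ r g * (if s.play ω β (ζ - s.sh β g) then
      sg (s.cn ω β (ζ - s.sh β g)) * step s.D r (s.yv g (β / s.Tb)) else 0) with hf
  have hneg : ∀ ω, f (fl ω) = -f ω := by
    intro ω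
    simp only [hf]
    have h1 := s.play_congr (fl ω) ω β (hag ω) (ζ - s.sh β g)
    have h2 : s.cn (fl ω) β (ζ - s.sh β g) = !s.cn ω β (ζ - s.sh β g) := by
      rw [s.cn_mk _ hβ, s.cn_mk _ hβ]
      simp [fl, c0]
    rw [s.S_congr (fl ω) ω β (hag ω), h2, sg_not]
    by_cases h : s.play ω β (ζ - s.sh β g)
    · rw [if_pos h, if_pos (h1.2 h)]; ring
    · rw [if_neg h, if_neg fun h' => h (h1.1 h')]; ring
  have h1 : ∑ ω, f (fl ω) = ∑ ω, f ω := Equiv.sum_comp hfl.toPerm f
  simp only [hneg, Finset.sum_neg_distrib] at h1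
  linarith

theorem moment (β : ℕ) (hβ : β ≤ s.B) (ζ : Γ) (r : ℕ) (g : s.Tm) :
    ∑ ω : s.Coin, (s.S ω β ζ r g) ^ 2 ≤ ∑ ω : s.Coin, (1 / 4 : ℝ) *
      (((Finset.range β).filter fun β' => s.play ω β' (ζ - s.sh β' g)).card : ℝ) := by
  induction β with
  | zero => simp [Sys.S_zero]
  | succ β ih =>
    have ih' := ih (by omega)
    have hc := cross s β (by omega) ζ r g
    have pt : ∀ ω : s.Coin, (s.S ω (β + 1) ζ r g) ^ 2 -
        (1 / 4 : ℝ) * (((Finset.range (β + 1)).filter
          fun β' => s.play ω β' (ζ - s.sh β' g)).card : ℝ) ≤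
        (s.S ω β ζ r g) ^ 2 - (1 / 4 : ℝ) * (((Finset.range β).filter
          fun β' => s.play ω β' (ζ - s.sh β' g)).card : ℝ) +
        2 * (s.S ω β ζ r g * (if s.play ω β (ζ - s.sh β g) then
          sg (s.cn ω β (ζ - s.sh β g)) * step s.D r (s.yv g (β / s.Tb)) else 0)) := by
      intro ω
      rw [Sys.S_succ, Finset.range_add_one, Finset.filter_insert]
      by_cases h : s.play ω β (ζ - s.sh β g)
      · rw [if_pos h, if_pos h, Finset.card_insert_of_notMem (by simp)]
        have h1 := abs_step_le s.D r (s.yv g (β / s.Tb))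
        have h2 := sg_sq (s.cn ω β (ζ - s.sh β g))
        have h3 : step s.D r (s.yv g (β / s.Tb)) ^ 2 ≤ 1 / 4 := by
          have := abs_le.1 h1
          nlinarith [this.1, this.2]
        have h4 : (sg (s.cn ω β (ζ - s.sh β g)) * step s.D r (s.yv g (β / s.Tb))) ^ 2 ≤ 1 / 4 := by
          rw [mul_pow, sq (sg _), h2, one_mul]; exact h3
        push_cast
        nlinarith [h4]
      · rw [if_neg h, if_neg h]; simp
    have := Finset.sum_le_sum fun ω (_ : ω ∈ (Finset.univ : Finset s.Coin)) => pt ω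
    rw [Finset.sum_add_distrib, Finset.sum_sub_distrib, Finset.sum_sub_distrib, ← Finset.mul_sum _ _ (2 : ℝ),
      hc] at this
    linarith

omit [Fintype Γ] in
theorem cnt_le (ω : s.Coin) (β : ℕ) (hβ : β ≤ s.B) (ζ : Γ) (g : s.Tm) :
    ((Finset.range β).filter fun β' => s.play ω β' (ζ - s.sh β' g)).card ≤ s.R := by
  rw [← Finset.card_range s.R]
  refine Finset.card_le_card_of_injOn (fun β' => β' / s.Tb) ?_ ?_
  · intro β' h
    have h1 := Finset.mem_range.1 (Finset.mem_filter.1 h).1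
    exact Finset.mem_range.2 (s.run_lt (by omega))
  · intro b hb b' hb' e
    exact s.once (Eq.symm e) (Finset.mem_filter.1 hb).2 (Finset.mem_filter.1 hb').2

end MOMA

theorem p_MOM : S_MOM := by
  intro Γ _ _ s _ β hβ ζ r g _
  refine (MOMA.moment s β hβ ζ r g).trans ?_
  have : ∀ ω : s.Coin, (1 / 4 : ℝ) * (((Finset.range β).filter
      fun β' => s.play ω β' (ζ - s.sh β' g)).card : ℝ) ≤ (s.R : ℝ) / 4 := by
    intro ω
    have : (((Finset.range β).filter fun β' => s.play ω β' (ζ - s.sh β' g)).card : ℝ) ≤ s.R := by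
      exact_mod_cast MOMA.cnt_le s ω β hβ ζ g
    linarith
  refine (Finset.sum_le_sum fun ω _ => this ω).trans ?_
  rw [Finset.sum_const, Finset.card_univ, nsmul_eq_mul, Nat.card_eq_fintype_card, mul_comm]

end Pool.Agent.Fur
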