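import Pool.Agent.P.MP_358d01_co.Fur.Base0

set_option autoImplicit false

namespace Pool.Agent.Fur

open Classical

namespace NUMA

/-- The weights of the coordinates. -/
def W (K : ℕ) : ℕ → ℕ
  | 0 => 1
  | i + 1 => K * W K i * W K i

theorem W_pos {K : ℕ} (hK : 0 < K) (i : ℕ) : 0 < W K i := by
  induction i with
  | zero => exact Nat.one_pos
  | succ i ih => exact Nat.mul_pos (Nat.mul_pos hK ih) ih

theorem W_step {K : ℕ} (hK : 0 < K) (i : ℕ) : K * W K i ≤ W K (i + 1) :=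
  Nat.le_mul_of_pos_right _ (W_pos hK i)

theorem W_mono {K : ℕ} (hK : 0 < K) : Monotone (W K) :=
  monotone_nat_of_le_succ fun i => (Nat.le_mul_of_pos_left _ hK).trans (W_step hK i)

theorem W_lt {K : ℕ} (hK : 0 < K) {i j : ℕ} (h : i < j) : K * W K i ≤ W K j :=
  (W_step hK i).trans (W_mono hK h)

instance inst (K : ℕ) [NeZero K] (i : ℕ) : NeZero (K * W K i) :=
  ⟨(Nat.mul_pos (NeZero.pos K) (W_pos (NeZero.pos K) i)).ne'⟩

theorem div_inj {a b r s n : ℕ} (hr : r < n) (hs : s < n) (h : a * n + r = b * n + s) :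
    a = b ∧ r = s := by
  have h1 : a = b := by
    rcases lt_trichotomy a b with hl | he | hl
    · have := Nat.mul_le_mul_right n (Nat.succ_le_of_lt hl)
      rw [Nat.succ_mul] at this
      omega
    · exact he
    · have := Nat.mul_le_mul_right n (Nat.succ_le_of_lt hl)
      rw [Nat.succ_mul] at this
      omega
  subst h1
  exact ⟨rfl, by omega⟩

theorem dig_lt {K : ℕ} (f : ℕ → ℕ) (m : ℕ) (hf : ∀ i < m, f i < K * W K i) :
    ∑ i ∈ Finset.range m, f i * W K i < W K m := by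
  induction m with
  | zero => simp [W]
  | succ m ih =>
    have h1 := ih fun i hi => hf i (by omega)
    have h2 := Nat.mul_le_mul_right (W K m) (Nat.succ_le_of_lt (hf m (by omega)))
    rw [Nat.succ_mul] at h2
    rw [Finset.sum_range_succ, W]
    omega

theorem dig_inj {K : ℕ} (f g : ℕ → ℕ) (m : ℕ) (hf : ∀ i < m, f i < K * W K i)
    (hg : ∀ i < m, g i < K * W K i)
    (h : ∑ i ∈ Finset.range m, f i * W K i = ∑ i ∈ Finset.range m, g i * W K i) :
    ∀ i < m, f i = g i := by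
  induction m with
  | zero => simp
  | succ m ih =>
    have hf' : ∀ i < m, f i < K * W K i := fun i hi => hf i (by omega)
    have hg' : ∀ i < m, g i < K * W K i := fun i hi => hg i (by omega)
    rw [Finset.sum_range_succ, Finset.sum_range_succ, add_comm, add_comm _ (g m * _)] at h
    obtain ⟨h1, h2⟩ := div_inj (dig_lt f m hf') (dig_lt g m hg') h
    intro i hi
    rcases Nat.lt_succ_iff_lt_or_eq.1 hi with hl | rfl
    · exact ih hf' hg' h2 i hl
    · exact h1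

/-- The group of blocks. -/
abbrev Gm (K m : ℕ) : Type := (i : Fin m) → Fin (K * W K i)

/-- The height of a block. -/
def ht {K m : ℕ} (ζ : Gm K m) : ℕ := ∑ i : Fin m, (ζ i).val * W K i

theorem ht_inj {K m : ℕ} : Function.Injective (ht : Gm K m → ℕ) := by
  intro ζ ζ' h
  let f : Gm K m → ℕ → ℕ := fun ζ i => if h : i < m then (ζ ⟨i, h⟩).val else 0
  have h1 : ∀ ζ, ht ζ = ∑ i ∈ Finset.range m, f ζ i * W K i := fun ζ => by
    rw [Finset.sum_range, ht]
    exact Finset.sum_congr rfl fun i _ => by simp [f]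
  have h2 : ∀ ζ, ∀ i < m, f ζ i < K * W K i := fun ζ i hi => by
    simp only [f, hi, dif_pos]
    exact (ζ ⟨i, hi⟩).2
  rw [h1, h1] at h
  funext i
  have := dig_inj _ _ m (h2 ζ) (h2 ζ') h i i.2
  simp only [f, i.2, dif_pos] at this
  exact Fin.ext this

theorem half {K m : ℕ} (hK : 0 < K) (h : 2 * m ≤ K) :
    Nat.card (Gm K m) ≤ 2 * Set.ncard {ζ : Gm K m | ∀ i, (ζ i).val < (K - 1) * W K i} := by
  have h1 : {ζ : Gm K m | ∀ i, (ζ i).val < (K - 1) * W K i} =
      ↑(Fintype.piFinset fun i : Fin m => Finset.univ.filter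
        fun x : Fin (K * W K i) => x.val < (K - 1) * W K i) := by
    ext ζ
    simp
  have h2 : ∀ i, min (K * W K i) ((K - 1) * W K i) = (K - 1) * W K i := fun i =>
    min_eq_right (Nat.mul_le_mul_right _ (Nat.sub_le _ _))
  have h3 : K ^ m ≤ 2 * (K - 1) ^ m := by
    have k0 : (0 : ℝ) < K := by exact_mod_cast hK
    have k1 : (1 : ℝ) ≤ K := by exact_mod_cast hK
    have k2 : 2 * (m : ℝ) ≤ K := by exact_mod_cast h
    have h4 := one_add_mul_le_pow (a := -(K : ℝ)⁻¹)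
      (by have := inv_le_one_of_one_le₀ k1; linarith) m
    have h5 : (1 : ℝ) / 2 ≤ 1 + m * -(K : ℝ)⁻¹ := by
      have : (m : ℝ) * (K : ℝ)⁻¹ ≤ 1 / 2 := by
        rw [← div_eq_mul_inv, div_le_iff₀ k0]
        linarith
      linarith
    have h6 : ((K : ℝ) - 1) ^ m = (1 + -(K : ℝ)⁻¹) ^ m * K ^ m := by
      rw [← mul_pow]
      congr 1
      field_simp
      ring
    have h7 : (K : ℝ) ^ m ≤ 2 * ((K : ℝ) - 1) ^ m := by
      rw [h6]
      nlinarith [pow_pos k0 m]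
    have h8 : ((K - 1 : ℕ) : ℝ) = K - 1 := by rw [Nat.cast_sub hK, Nat.cast_one]
    rw [← h8] at h7
    exact_mod_cast h7
  rw [h1, Set.ncard_coe_finset, Fintype.card_piFinset, Nat.card_pi]
  simp only [Fin.card_filter_val_lt, h2, Nat.card_eq_fintype_card, Fintype.card_fin,
    Finset.prod_mul_distrib, Finset.prod_const, Finset.card_univ]
  rw [← mul_assoc]
  exact Nat.mul_le_mul_right _ h3

/-- The integer with the digits `y`. -/
def I (K D Tb : ℕ) (y : ℕ → ℕ) : ℕ → ℕ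
  | 0 => 0
  | ρ + 1 => I K D Tb y ρ * (D * W K (ρ * (Tb + 1) + Tb)) + y ρ

variable {K D Tb : ℕ} {y y' : ℕ → ℕ}

theorem I_lt (hK : 0 < K) (hD : D ≤ K) (hy : ∀ ρ, y ρ < D) (ρ : ℕ) :
    I K D Tb y ρ < W K (ρ * (Tb + 1)) := by
  induction ρ with
  | zero => simp [I, W]
  | succ ρ ih =>
    have h1 : I K D Tb y ρ + 1 ≤ W K (ρ * (Tb + 1) + Tb) := ih.trans_le (W_mono hK (by omega))
    have h2 := Nat.mul_le_mul_right (D * W K (ρ * (Tb + 1) + Tb)) h1
    have h3 := (hy ρ).trans_le (Nat.le_mul_of_pos_right D (W_pos hK (ρ * (Tb + 1) + Tb)))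
    have h4 := Nat.mul_le_mul_right (W K (ρ * (Tb + 1) + Tb) * W K (ρ * (Tb + 1) + Tb)) hD
    rw [show (ρ + 1) * (Tb + 1) = ρ * (Tb + 1) + Tb + 1 by ring, I, W]
    nlinarith

theorem I_congr (ρ : ℕ) (h : ∀ j < ρ, y j = y' j) : I K D Tb y ρ = I K D Tb y' ρ := by
  induction ρ with
  | zero => rfl
  | succ ρ ih => rw [I, I, ih fun j hj => h j (by omega), h ρ (by omega)]

theorem I_inj (hK : 0 < K) (hy : ∀ ρ, y ρ < D) (hy' : ∀ ρ, y' ρ < D) (ρ : ℕ)
    (h : I K D Tb y ρ = I K D Tb y' ρ) : ∀ j < ρ, y j = y' j := by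
  induction ρ with
  | zero => simp
  | succ ρ ih =>
    have h3 := Nat.le_mul_of_pos_right D (W_pos hK (ρ * (Tb + 1) + Tb))
    obtain ⟨h1, h2⟩ := div_inj ((hy ρ).trans_le h3) ((hy' ρ).trans_le h3) h
    intro j hj
    rcases Nat.lt_succ_iff_lt_or_eq.1 hj with hl | rfl
    · exact ih h1 j hl
    · exact h2

theorem I_rem (hK : 2 ≤ K) (hT : 0 < Tb) (ρ n : ℕ) : ∃ d : ℕ, ∀ y : ℕ → ℕ, (∀ ρ, y ρ < D) →
    ∃ r : ℕ, I K D Tb y (ρ + n) = I K D Tb y ρ * d + r ∧ K * r + 2 ≤ 2 * d := by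
  induction n with
  | zero => exact ⟨1, fun y _ => ⟨0, by simp, by simp⟩⟩
  | succ n ih =>
    obtain ⟨d, h⟩ := ih
    refine ⟨d * (D * W K ((ρ + n) * (Tb + 1) + Tb)), fun y hy => ?_⟩
    obtain ⟨r, h1, h2⟩ := h y hy
    refine ⟨r * (D * W K ((ρ + n) * (Tb + 1) + Tb)) + y (ρ + n), ?_, ?_⟩
    · rw [← add_assoc, I, h1]
      ring
    · have h3 : K * 1 ≤ W K ((ρ + n) * (Tb + 1) + Tb) := W_lt (i := 0) (by omega) (by omega)
      have h4 := Nat.mul_le_mul_right (D * W K ((ρ + n) * (Tb + 1) + Tb)) h2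
      have h5 := Nat.mul_le_mul_left K (Nat.succ_le_of_lt (hy (ρ + n)))
      have h6 := Nat.mul_le_mul_left D h3
      rw [Nat.succ_eq_add_one] at h5
      nlinarith

/-- The shift with two nonzero coordinates. -/
def sv (K m : ℕ) [NeZero K] (p q x : ℕ) : Gm K m :=
  fun i => if i.val = p ∨ i.val = q then Fin.ofNat _ x else 0

theorem ht_add [NeZero K] {m p q x : ℕ} (hp : p < q) (hq : q < m) (hx : x < W K p) {ζ : Gm K m}
    (hζ : ∀ i, (ζ i).val < (K - 1) * W K i) :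
    ht (ζ + sv K m p q x) = ht ζ + x * (W K p + W K q) := by
  have hK := NeZero.pos K
  have h1 : ∀ i : Fin m, ((ζ + sv K m p q x) i).val * W K i = (ζ i).val * W K i +
      ((if i = ⟨p, hp.trans hq⟩ then x * W K i else 0) +
        if i = ⟨q, hq⟩ then x * W K i else 0) := fun i => by
    by_cases h : i.val = p ∨ i.val = q
    · have h2 : x < W K i := hx.trans_le (W_mono hK (by omega))
      have h3 := hζ i
      have h4 : (K - 1) * W K i + W K i = K * W K i := by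
        rw [← Nat.succ_mul, Nat.succ_eq_add_one, Nat.sub_add_cancel hK]
      have h5 : x % (K * W K i) = x := Nat.mod_eq_of_lt (by omega)
      rw [Pi.add_apply, sv, if_pos h, Fin.val_add, Fin.val_ofNat, h5, Nat.mod_eq_of_lt (by omega),
        add_mul]
      simp only [Fin.ext_iff]
      split_ifs <;> omega
    · rw [Pi.add_apply, sv, if_neg h, add_zero]
      simp only [Fin.ext_iff]
      split_ifs <;> omega
  simp only [ht, h1, Finset.sum_add_distrib, Finset.sum_ite_eq', Finset.mem_univ, if_true, mul_add]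

theorem err {B D u y r e : ℝ} (hB : 1 ≤ B) (hD : 3 ≤ D) (hu : 0 ≤ u) (hu' : 16 * D * B * u ≤ 1)
    (hy : 0 ≤ y) (hy' : y ≤ D) (hr : 0 ≤ r) (hr' : 16 * D * B * r ≤ 2) (he : 0 ≤ e)
    (he' : 8 * B * e ≤ 1) : 0 ≤ B * (y * u + (1 + u) * (r + e)) ∧
      B * (y * u + (1 + u) * (r + e)) ≤ 1 / 2 := by
  refine ⟨by positivity, ?_⟩
  have h1 : y * (B * u) ≤ D * (B * u) := mul_le_mul_of_nonneg_right hy' (by positivity)
  have h2 : 3 * (B * r) ≤ D * (B * r) := mul_le_mul_of_nonneg_right hD (by positivity)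
  have h3 : 3 * (B * u) ≤ D * (B * u) := mul_le_mul_of_nonneg_right hD (by positivity)
  have h4 : 1 * u ≤ B * u := mul_le_mul_of_nonneg_right hB hu
  have h5 : u * (B * (r + e)) ≤ 1 * (B * (r + e)) :=
    mul_le_mul_of_nonneg_right (by linarith) (by positivity)
  nlinarith

/-- The system. -/
def sys (K D R Tb : ℕ) [NeZero K] (φ : ℝ) : Sys (Gm K (R * (Tb + 1))) where
  D := D
  R := R
  Tb := Tb
  φ := φ
  sh β g := sv K _ (β / Tb * (Tb + 1) + β % Tb) (β / Tb * (Tb + 1) + Tb)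
    (I K D Tb (fun ρ => if h : ρ < R then (g ⟨ρ, h⟩ : ℕ) else 0) (β / Tb))
  H β := ⟨⟨⟨{ζ | ∀ i : Fin _, i.val = β / Tb * (Tb + 1) + β % Tb → ζ i = 0},
    fun ha hb i hi => by rw [Pi.add_apply, ha i hi, hb i hi, add_zero]⟩, fun _ _ => rfl⟩,
    fun ha i hi => by rw [Pi.neg_apply, ha i hi, neg_zero]⟩
  ht := ht
  real _ ζ := ∀ i, (ζ i).val < (K - 1) * W K i

theorem yv_lt {Γ : Type} [AddCommGroup Γ] (s : Sys Γ) (hD : 0 < s.D) (g : s.Tm) (ρ : ℕ) :
    s.yv g ρ < s.D := by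
  unfold Sys.yv
  split_ifs
  · exact (g _).2
  · exact hD

theorem agree_iff {Γ : Type} [AddCommGroup Γ] (s : Sys Γ) (ρ : ℕ) (g g' : s.Tm) :
    s.agree ρ g g' ↔ ∀ j < ρ, s.yv g j = s.yv g' j := by
  unfold Sys.yv
  refine ⟨fun h j hj => ?_, fun h i hi => Fin.ext ?_⟩
  · split_ifs with h1
    · rw [h ⟨j, h1⟩ hj]
    · rfl
  · simpa using h i hi

theorem cs_lt {R β : ℕ} (h : β < R * Tb) : β / Tb * (Tb + 1) + Tb < R * (Tb + 1) := by
  have h1 : β / Tb + 1 ≤ R := Nat.div_lt_of_lt_mul (by rwa [Nat.mul_comm])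
  have h2 := Nat.mul_le_mul_right (Tb + 1) h1
  rw [add_mul] at h2
  omega

theorem good {R : ℕ} [NeZero K] {φ : ℝ} (hD : 3 ≤ D) (hK : D ≤ K) (hT : 0 < Tb) (hφ : 0 < φ) :
    (sys K D R Tb φ).Good := by
  have k0 := NeZero.pos K
  refine ⟨hD, hT, hφ, fun β g g' h => ?_, fun β' β g h _ i hi => ?_, fun β g g' hβ h => ?_, ht_inj⟩
  · exact congrArg (sv K _ _ _) (I_congr _ ((agree_iff _ _ _ _).1 h))
  · refine if_neg ?_
    have h1 := Nat.mod_lt β hT
    have h2 := Nat.mod_lt β' hT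
    have h3 := Nat.div_add_mod β Tb
    have h4 := Nat.div_add_mod β' Tb
    rw [hi]
    rintro (e | e)
    · obtain ⟨e1, e2⟩ := div_inj (by omega) (by omega) e
      rw [e1, e2] at h3
      omega
    · have := (div_inj (by omega) (by omega) e).2
      omega
  · have h1 := Nat.mod_lt β hT
    have h2 := cs_lt (R := R) (Tb := Tb) hβ
    have h3 := sub_eq_zero.1 (h ⟨β / Tb * (Tb + 1) + β % Tb, by omega⟩ rfl)
    have h4 : ∀ g, I K D Tb ((sys K D R Tb φ).yv g) (β / Tb) <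
        K * W K (β / Tb * (Tb + 1) + β % Tb) := fun g =>
      ((I_lt k0 hK (yv_lt _ (by exact lt_of_lt_of_le (by omega) hD) g) _).trans_le
        (W_mono k0 (by omega))).trans_le (Nat.le_mul_of_pos_left _ k0)
    have h5 := congrArg Fin.val h3
    simp only [sys, sv, true_or, if_true, Fin.val_ofNat] at h5
    have h6 := (Nat.mod_eq_of_lt (h4 g)).symm.trans (h5.trans (Nat.mod_eq_of_lt (h4 g')))
    have d0 : 0 < (sys K D R Tb φ).D := lt_of_lt_of_le (by omega) hD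
    exact (agree_iff _ _ _ _).2 (I_inj k0 (yv_lt _ d0 g) (yv_lt _ d0 g') _ h6)

end NUMA

open NUMA in
theorem p_NUM : S_NUM := by
  intro D R Tb φ hD hR hT hφ
  obtain ⟨K, hK⟩ : ∃ K, K = 16 * D * (R * Tb) := ⟨_, rfl⟩
  have b0 : 0 < R * Tb := Nat.mul_pos hR hT
  have k1 : D ≤ K := by nlinarith
  have k2 : 2 * (R * (Tb + 1)) ≤ K := by nlinarith
  have k0 : 0 < K := by omega
  have : NeZero K := ⟨k0.ne'⟩
  have d0 : 0 < (sys K D R Tb φ).D := lt_of_lt_of_le (by omega) hD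
  have bR : (1 : ℝ) ≤ (R * Tb : ℕ) := by exact_mod_cast b0
  choose d hd using fun ρ => I_rem (K := K) (D := D) (by omega) hT (ρ + 1) (R - (ρ + 1))
  refine ⟨Gm K (R * (Tb + 1)), inferInstance, inferInstance, LinearOrder.lift' ht ht_inj,
    sys K D R Tb φ, rfl, rfl, rfl, rfl, good hD k1 hT hφ, fun _ _ => half k0 k2,
    fun g => I K D Tb ((sys K D R Tb φ).yv g) R, 1 / (8 * (R * Tb : ℕ)),
    fun c => (R * Tb : ℕ) * D * ht (ofLex c).2 + (ofLex c).1.val,
    fun c => (R * Tb : ℕ) * (1 + W K ((ofLex c).1 / Tb * (Tb + 1) + (ofLex c).1 % Tb) /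
      W K ((ofLex c).1 / Tb * (Tb + 1) + Tb)) / d ((ofLex c).1 / Tb),
    fun g g' h => funext fun i => ?_, by positivity,
    one_div_le_one_div_of_le (by norm_num) (by linarith), ?_⟩
  · exact (agree_iff _ R _ _).2 (I_inj k0 (yv_lt _ d0 g) (yv_lt _ d0 g') _
      (Nat.cast_injective (R := ℤ) h)) i i.2
  · rintro ⟨⟨β, hβ⟩, ζ⟩ hζ g t h1 h2
    have h3 := Nat.mod_lt β hT
    have h4 : β / Tb + 1 ≤ R := Nat.div_lt_of_lt_mul (by rwa [Nat.mul_comm])
    have hy := yv_lt _ d0 g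
    obtain ⟨r, h5, h6⟩ := hd (β / Tb) _ hy
    have h7 := ht_add (p := β / Tb * (Tb + 1) + β % Tb) (ζ := ζ) (by omega)
      (cs_lt (R := R) (Tb := Tb) hβ)
      ((I_lt (Tb := Tb) k0 k1 hy (β / Tb)).trans_le (W_mono k0 (by omega))) hζ
    have h8 := W_lt k0 (show β / Tb * (Tb + 1) + β % Tb < β / Tb * (Tb + 1) + Tb by omega)
    have h9 := W_pos k0 (β / Tb * (Tb + 1) + Tb)
    have h10 : (sys K D R Tb φ).key (toLex (⟨β, hβ⟩, ζ)) g = (((D * (ht ζ +
        I K D Tb ((sys K D R Tb φ).yv g) (β / Tb) * (W K (β / Tb * (Tb + 1) + β % Tb) +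
          W K (β / Tb * (Tb + 1) + Tb))) + (sys K D R Tb φ).yv g (β / Tb)) * (R * Tb) + β : ℕ) : ℤ) := by
      rw [← h7]
      rfl
    rw [Nat.add_sub_cancel' h4, I] at h5
    simp only [h5, Int.cast_natCast] at h1 h2
    change ((sys K D R Tb φ).key (toLex (⟨β, hβ⟩, ζ)) g : ℝ) ≤ ((R * Tb : ℕ) * D * ht ζ + β : ℝ) +
      (R * Tb : ℕ) * (1 + W K (β / Tb * (Tb + 1) + β % Tb) / W K (β / Tb * (Tb + 1) + Tb)) /
        d (β / Tb) * t ∧ ((R * Tb : ℕ) * D * ht ζ + β : ℝ) +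
      (R * Tb : ℕ) * (1 + W K (β / Tb * (Tb + 1) + β % Tb) / W K (β / Tb * (Tb + 1) + Tb)) /
        d (β / Tb) * t ≤ ((sys K D R Tb φ).key (toLex (⟨β, hβ⟩, ζ)) g : ℝ) + 1 / 2
    rw [h10, Int.cast_natCast]
    have hy' : ((sys K D R Tb φ).yv g (β / Tb) : ℝ) ≤ D := by exact_mod_cast (hy _).le
    generalize (sys K D R Tb φ).yv g (β / Tb) = y at *
    generalize I K D Tb ((sys K D R Tb φ).yv g) (β / Tb) = x at *
    generalize W K (β / Tb * (Tb + 1) + β % Tb) = w at *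
    generalize W K (β / Tb * (Tb + 1) + Tb) = Q at *
    generalize d (β / Tb) = n at *
    generalize R * Tb = B at *
    have n1 : (1 : ℝ) ≤ n := by exact_mod_cast (by omega : 1 ≤ n)
    have q0 : (0 : ℝ) < Q := by exact_mod_cast h9
    have e1 : (16 * D * B * w : ℝ) ≤ Q := by exact_mod_cast hK ▸ h8
    have e2 : (16 * D * B * r : ℝ) ≤ 2 * n := by
      exact_mod_cast (hK ▸ (Nat.le_add_right _ 2).trans h6 : 16 * D * B * r ≤ 2 * n)
    obtain ⟨e, rfl⟩ : ∃ e, t = (((x * (D * Q) + y) * n + r : ℕ) : ℝ) + e := ⟨_, (add_sub_cancel _ t).symm⟩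
    have e3 : 0 ≤ e := by linarith
    have e4 : 8 * B * e ≤ 1 := by
      have : e ≤ 1 / (8 * B) := by linarith
      rw [le_div_iff₀ (by positivity)] at this
      linarith
    obtain ⟨e5, e6⟩ := err (u := w / Q) (y := y) (r := r / n) (e := e / n) bR
      (by exact_mod_cast hD) (by positivity)
      (by rw [← mul_div_assoc, div_le_one q0]; exact e1) (by positivity) hy' (by positivity)
      (by rw [← mul_div_assoc, div_le_iff₀ (by positivity)]; exact e2) (by positivity)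
      (by rw [← mul_div_assoc, div_le_one (by positivity)]; linarith)
    have e7 : (B * D * ht ζ + β : ℝ) + B * (1 + w / Q) / n *
        ((((x * (D * Q) + y) * n + r : ℕ) : ℝ) + e) =
        (((D * (ht ζ + x * (w + Q)) + y) * B + β : ℕ) : ℝ) +
          B * (y * (w / Q) + (1 + w / Q) * (r / n + e / n)) := by
      push_cast
      field_simp
      ring
    rw [e7]
    constructor <;> linarith

end Pool.Agent.Fur
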