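import Pool.Agent.P.MP_358d01_co.Fur.Base0

set_option autoImplicit false

namespace Pool.Agent.Fur

open Classical

namespace ONEA

theorem orient {κ : Type} [LinearOrder κ] {Y : Finset (κ → Bool)} {y y' : κ → Bool} {c : κ}
    (hy : y ∈ Y) (hy' : y' ∈ Y) (h : FD y y' c) :
    ∃ z ∈ Y, ∃ z' ∈ Y, FD z z' c ∧ z c = true := by
  by_cases e : y c = true
  · exact ⟨y, hy, y', hy', h, e⟩
  · refine ⟨y', hy', y, hy, h.symm, ?_⟩
    have := h.1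
    cases h1 : y c <;> cases h2 : y' c <;> simp_all

theorem main {κ σ : Type} [Fintype κ] [LinearOrder κ] (t : (κ → Bool) → ℝ)
    (sl : κ → σ) (lo hi : σ → ℝ) (n : ℕ) : ∀ (Y : Finset (κ → Bool)) (Z : Finset σ), Y.card = n →
    (∀ y ∈ Y, ∀ y' ∈ Y, ∀ c, FD y y' c → y c = true → lo (sl c) < t y ∧ t y' < hi (sl c)) →
    (∀ y ∈ Y, ∀ y' ∈ Y, ∀ y'' ∈ Y, ∀ c c', FD y y' c → FD y y'' c' → c ≠ c' → sl c ≠ sl c') →
    (∀ y ∈ Y, ∀ y' ∈ Y, ∀ z ∈ Y, ∀ z' ∈ Y, ∀ c c', FD y y' c → FD z z' c' → sl c ≠ sl c' →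
      hi (sl c) ≤ lo (sl c') ∨ hi (sl c') ≤ lo (sl c)) →
    (∀ y ∈ Y, ∀ y' ∈ Y, ∀ c, FD y y' c → sl c ∈ Z) →
    Y.card ≤ 1 + Z.card := by
  induction n using Nat.strong_induction_on with
  | _ n ih =>
  intro Y Z hn h1 h2 h3 h4
  by_cases hY : Y.card ≤ 1
  · omega
  obtain ⟨a, ha, b, hb, hab⟩ := Finset.one_lt_card.1 (not_le.1 hY)
  have hne : ({c | ∃ y ∈ Y, ∃ y' ∈ Y, y c ≠ y' c} : Set κ).Nonempty := by
    obtain ⟨c, hc⟩ := Function.ne_iff.1 hab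
    exact ⟨c, a, ha, b, hb, hc⟩
  obtain ⟨c, ⟨u, hu, v, hv, huv⟩, hmin⟩ := (Set.toFinite _).exists_minimal hne
  have hlow : ∀ y ∈ Y, ∀ y' ∈ Y, ∀ c', c' < c → y c' = y' c' := by
    intro y hy y' hy' c' hc'
    by_contra hd
    exact absurd (hmin ⟨y, hy, y', hy', hd⟩ hc'.le) (not_le.2 hc')
  obtain ⟨p, hp, m, hm, hpm, hpc⟩ := orient hu hv (⟨huv, hlow u hu v hv⟩ : FD u v c)
  have hmc : ¬ m c = true := fun e => hpm.1 (hpc.trans e.symm)
  have hfd : ∀ y ∈ Y, ∀ y' ∈ Y, y c = true → ¬ y' c = true → FD y y' c :=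
    fun y hy y' hy' e e' => ⟨fun h => e' (h ▸ e), hlow y hy y' hy'⟩
  set Yp := Y.filter (fun y => y c = true) with hYp
  set Ym := Y.filter (fun y => ¬ y c = true) with hYm
  have hsum : Yp.card + Ym.card = Y.card := Finset.card_filter_add_card_filter_not _
  have sp : ∀ y ∈ Yp, y ∈ Y ∧ y c = true := fun y hy => Finset.mem_filter.1 hy
  have sm : ∀ y ∈ Ym, y ∈ Y ∧ ¬ y c = true := fun y hy => Finset.mem_filter.1 hy
  have cp : 0 < Yp.card := Finset.card_pos.2 ⟨p, Finset.mem_filter.2 ⟨hp, hpc⟩⟩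
  have cm : 0 < Ym.card := Finset.card_pos.2 ⟨m, Finset.mem_filter.2 ⟨hm, hmc⟩⟩
  have sub : ∀ W : Finset (κ → Bool), (∀ y ∈ W, y ∈ Y) → W.card < n →
      W.card ≤ 1 + (Z.filter fun s => ∃ y ∈ W, ∃ y' ∈ W, ∃ c', FD y y' c' ∧ sl c' = s).card := by
    intro W hW hlt
    refine ih W.card hlt W _ rfl ?_ ?_ ?_ ?_
    · exact fun y hy y' hy' => h1 y (hW y hy) y' (hW y' hy')
    · exact fun y hy y' hy' y'' hy'' => h2 y (hW y hy) y' (hW y' hy') y'' (hW y'' hy'')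
    · exact fun y hy y' hy' z hz z' hz' =>
        h3 y (hW y hy) y' (hW y' hy') z (hW z hz) z' (hW z' hz')
    · intro y hy y' hy' c' hc'
      exact Finset.mem_filter.2 ⟨h4 y (hW y hy) y' (hW y' hy') c' hc', y, hy, y', hy', c', hc', rfl⟩
  have ip := sub Yp (fun y hy => (sp y hy).1) (by omega)
  have im := sub Ym (fun y hy => (sm y hy).1) (by omega)
  set Zp := Z.filter fun s => ∃ y ∈ Yp, ∃ y' ∈ Yp, ∃ c', FD y y' c' ∧ sl c' = s with hZp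
  set Zm := Z.filter fun s => ∃ y ∈ Ym, ∃ y' ∈ Ym, ∃ c', FD y y' c' ∧ sl c' = s with hZm
  have np : ∀ y ∈ Yp, ∀ y' ∈ Yp, ∀ c', FD y y' c' → sl c' ≠ sl c := by
    intro y hy y' hy' c' hc'
    refine h2 y (sp y hy).1 y' (sp y' hy').1 m hm c' c hc' (hfd y (sp y hy).1 m hm (sp y hy).2 hmc) ?_
    rintro rfl
    exact hc'.1 ((sp y hy).2.trans (sp y' hy').2.symm)
  have nm : ∀ y ∈ Ym, ∀ y' ∈ Ym, ∀ c', FD y y' c' → sl c' ≠ sl c := by
    intro y hy y' hy' c' hc'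
    refine h2 y (sm y hy).1 y' (sm y' hy').1 p hp c' c hc'
      (hfd p hp y (sm y hy).1 hpc (sm y hy).2).symm ?_
    rintro rfl
    have e1 := (sm y hy).2
    have e2 := (sm y' hy').2
    exact hc'.1 ((Bool.eq_false_iff.2 e1).trans (Bool.eq_false_iff.2 e2).symm)
  have hdis : Disjoint Zp Zm := by
    refine Finset.disjoint_left.2 fun s hs hs' => ?_
    obtain ⟨-, y0, hy0, y1, hy1, c1, f1, e1⟩ := Finset.mem_filter.1 hs
    obtain ⟨-, z0, hz0, z1, hz1, c2, f2, e2⟩ := Finset.mem_filter.1 hs'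
    obtain ⟨y, hy, y', hy', g1, t1⟩ := orient hy0 hy1 f1
    obtain ⟨z, hz, z', hz', g2, t2⟩ := orient hz0 hz1 f2
    have a1 := (h1 y (sp y hy).1 y' (sp y' hy').1 c1 g1 t1).2
    have a2 := (h1 y' (sp y' hy').1 m hm c (hfd y' (sp y' hy').1 m hm (sp y' hy').2 hmc)
      (sp y' hy').2).1
    have a3 := (h1 z (sm z hz).1 z' (sm z' hz').1 c2 g2 t2).1
    have a4 := (h1 p hp z (sm z hz).1 c (hfd p hp z (sm z hz).1 hpc (sm z hz).2) hpc).2
    have a5 := h3 y (sp y hy).1 y' (sp y' hy').1 p hp m hm c1 c g1 hpm (np y hy y' hy' c1 g1)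
    rw [e1] at a1 a5
    rw [e2] at a3
    rcases a5 with a5 | a5 <;> linarith
  have hsub : Zp ∪ Zm ⊆ Z.erase (sl c) := by
    intro s hs
    rcases Finset.mem_union.1 hs with hs | hs
    · obtain ⟨hz, y, hy, y', hy', c', f, e⟩ := Finset.mem_filter.1 hs
      exact Finset.mem_erase.2 ⟨e ▸ np y hy y' hy' c' f, hz⟩
    · obtain ⟨hz, y, hy, y', hy', c', f, e⟩ := Finset.mem_filter.1 hs
      exact Finset.mem_erase.2 ⟨e ▸ nm y hy y' hy' c' f, hz⟩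
  have k1 := Finset.card_le_card hsub
  rw [Finset.card_union_of_disjoint hdis] at k1
  have k2 := Finset.card_erase_add_one (h4 p hp m hm c hpm)
  omega

end ONEA

theorem p_ONE : S_ONE := by
  intro κ σ _ _ Y t sl lo hi Z h1 h2 h3 h4
  exact ONEA.main t sl lo hi Y.card Y Z rfl h1 h2 h3 h4

end Pool.Agent.Fur
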