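import Pool.Agent.P.MP_358d01_co.Fur.Base0

set_option autoImplicit false

namespace Pool.Agent.Fur

open Classical

namespace PARA

lemma early {A η μ m γ τ a b t w : ℝ} (hA : 1 ≤ A) (hη : 0 < η) (hηA : η * A ≤ 1 / 4)
    (hμA : μ * (A + 2) ≤ 1 / 2) (hm : 0 < m) (hμm : μ * m ≤ 1) (hγ : 0 < γ) (hγm : γ ≤ m / 4)
    (hτ : |τ| ≤ A) (ha : |a| ≤ A) (hb : |b| ≤ A) (h : |t| + 1 ≤ m * μ * |w|) :
    |t - τ - η * (a + b * t)| + thk γ t w ≤ m * |w| := by
  have t0 := abs_nonneg t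
  have w0 := abs_nonneg w
  have h1 : |η * (a + b * t)| ≤ (|t| + 1) / 4 := by
    rw [abs_mul, abs_of_pos hη]
    have : |a + b * t| ≤ A * (|t| + 1) := by
      refine (abs_add_le _ _).trans ?_
      rw [abs_mul]
      nlinarith [mul_le_mul_of_nonneg_right hb t0]
    nlinarith [mul_le_mul_of_nonneg_left this hη.le]
  have h2 : |t - τ - η * (a + b * t)| ≤ (A + 2) * (|t| + 1) := by
    have k1 := abs_sub (t - τ) (η * (a + b * t))
    have k2 := abs_sub t τ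
    nlinarith
  have h3 : (A + 2) * (|t| + 1) ≤ m * |w| / 2 := by
    have k1 := mul_le_mul_of_nonneg_left h (by linarith : 0 ≤ A + 2)
    have k2 := mul_le_mul_of_nonneg_right hμA (mul_nonneg hm.le w0)
    nlinarith
  have h4 : |t| + 1 ≤ |w| := by nlinarith
  have h5 : thk γ t w ≤ m * |w| / 2 := by
    unfold thk
    have k1 := mul_le_mul_of_nonneg_left h4 hγ.le
    have k2 := mul_le_mul_of_nonneg_right hγm w0
    nlinarith
  linarith

lemma thk_le {δ n γ t w : ℝ} (hδ : 0 < δ) (hn : n ≤ 1) (hγ : γ ≤ n * δ)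
    (h : n * |w| < |t| + 1) : thk γ t w ≤ 2 * δ * (|t| + 1) := by
  have t0 := abs_nonneg t
  have w0 := abs_nonneg w
  unfold thk
  have k1 := mul_le_mul_of_nonneg_right hγ (by linarith : 0 ≤ |t| + 1 + |w|)
  have k2 := mul_le_mul_of_nonneg_left h.le hδ.le
  have k3 := mul_le_mul_of_nonneg_right hn (mul_nonneg hδ.le (by linarith : 0 ≤ |t| + 1))
  nlinarith

lemma mono {e κ s t : ℝ} (he : |e| ≤ 1 / 4) (hκ : |κ| ≤ 1 / 2) (h : s ≤ t) :
    s - e * s + κ * |s| ≤ t - e * t + κ * |t| := by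
  have k1 : |κ * (|s| - |t|)| ≤ 1 / 2 * (t - s) := by
    rw [abs_mul]
    refine mul_le_mul hκ ((abs_abs_sub_abs_le_abs_sub _ _).trans ?_) (abs_nonneg _) (by norm_num)
    rw [abs_sub_comm, abs_of_nonneg (by linarith)]
  have k2 := (abs_le.1 k1).2
  have k3 := mul_le_mul_of_nonneg_right (abs_le.1 he).2 (by linarith : 0 ≤ t - s)
  nlinarith

lemma late1 {A η δ τ a b k s t u v : ℝ} (η0 : 0 < η) (δ0 : 0 < δ) (δ1 : δ ≤ 1 / 32)
    (hδ : δ * (A + 2) = η / 32) (eb : |η * b| ≤ 1 / 4) (hs : s = τ + η * (k - 1 / 4))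
    (h1 : |s| ≤ A) (h2 : k ≤ a + b * s) (hu : u ≤ 2 * δ * (|t| + 1)) (hv : v ≤ 2 * δ * (|t| + 1))
    (hL : -u < t - τ - η * (a + b * t) + v) : s < t := by
  by_contra hc
  have a3 := mul_le_mul_of_nonneg_left h1 δ0.le
  have a4 := mul_le_mul_of_nonneg_left h2 η0.le
  have a5 := mono (κ := 4 * δ) eb (abs_le.2 ⟨by linarith, by linarith⟩) (not_lt.1 hc)
  linarith

lemma late2 {A η δ τ a b k s t u v : ℝ} (η0 : 0 < η) (δ0 : 0 < δ) (δ1 : δ ≤ 1 / 32)
    (hδ : δ * (A + 2) = η / 32) (eb : |η * b| ≤ 1 / 4) (hs : s = τ + η * (k + 3 / 4))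
    (h1 : |s| ≤ A) (h2 : a + b * s ≤ k + 1 / 2) (hu : u ≤ 2 * δ * (|t| + 1))
    (hv : -(2 * δ * (|t| + 1)) ≤ v) (hL : t - τ - η * (a + b * t) + v < u) : t < s := by
  by_contra hc
  have a3 := mul_le_mul_of_nonneg_left h1 δ0.le
  have a4 := mul_le_mul_of_nonneg_left h2 η0.le
  have a5 := mono (κ := -(4 * δ)) eb (abs_le.2 ⟨by linarith, by linarith⟩) (not_lt.1 hc)
  linarith

lemma exA {ι G : Type} [Fintype ι] [LinearOrder ι] [Fintype G] (d : Gad ι G) :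
    ∃ A : ℝ, 1 ≤ A ∧ (∀ c, |d.a c| ≤ A) ∧ (∀ c, |d.b c| ≤ A) ∧ (∀ g, |(d.tm g : ℝ)| + 1 ≤ A) ∧
      ∀ c g, |(d.key c g : ℝ)| + d.Tb + 1 ≤ A := by
  obtain ⟨A1, h1⟩ := (Set.finite_range fun c => |d.a c|).bddAbove
  obtain ⟨A2, h2⟩ := (Set.finite_range fun c => |d.b c|).bddAbove
  obtain ⟨A3, h3⟩ := (Set.finite_range fun g => |(d.tm g : ℝ)| + 1).bddAbove
  obtain ⟨A4, h4⟩ := (Set.finite_range fun p : ι × G => |(d.key p.1 p.2 : ℝ)| + d.Tb + 1).bddAbove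
  refine ⟨max 1 (max (max A1 A2) (max A3 A4)), le_max_left _ _, fun c => ?_, fun c => ?_,
    fun g => ?_, fun c g => ?_⟩
  · exact (h1 ⟨c, rfl⟩).trans (by simp)
  · exact (h2 ⟨c, rfl⟩).trans (by simp)
  · exact (h3 ⟨g, rfl⟩).trans (by simp)
  · exact (h4 ⟨(c, g), rfl⟩).trans (by simp)

lemma slot {k : ℤ} {Tb : ℕ} (h : 0 < Tb) :
    (k : ℝ) - Tb ≤ ((k / (Tb : ℤ) : ℤ) : ℝ) * Tb ∧ ((k / (Tb : ℤ) : ℤ) : ℝ) * Tb ≤ k := by
  have h0 : (0 : ℤ) < Tb := by exact_mod_cast h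
  have h1 := Int.ediv_mul_le k h0.ne'
  have h2 := Int.lt_ediv_add_one_mul_self k h0
  constructor
  · have : k - Tb ≤ k / (Tb : ℤ) * Tb := by linarith
    exact_mod_cast this
  · exact_mod_cast h1

end PARA

open PARA

theorem p_PAR : S_PAR := by
  intro ι G _ _ _ _ d T' hT'
  obtain ⟨A, hA, ha, hb, htm, hkey⟩ := exA d
  set T := Fintype.card G * T' with hT
  have T0 : 0 < T := Nat.mul_pos Fintype.card_pos hT'
  have T1 : (1 : ℝ) ≤ T := by exact_mod_cast T0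
  have tp := d.tol_pos
  have tl := d.tol_le
  obtain ⟨om, hom⟩ : ∃ om : ℝ, om * T = d.tol := ⟨d.tol / T, by field_simp⟩
  have om0 : 0 < om := by
    by_contra h
    nlinarith
  have om1 : om ≤ 1 / 2 := by nlinarith
  obtain ⟨η, hη⟩ : ∃ η : ℝ, η * A = om / 4 := ⟨om / 4 / A, by field_simp⟩
  have η0 : 0 < η := by
    by_contra h
    nlinarith
  have η1 : η ≤ 1 := by nlinarith
  obtain ⟨δ, hδ⟩ : ∃ δ : ℝ, δ * (A + 2) = η / 32 := ⟨η / 32 / (A + 2), by field_simp⟩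
  have δ0 : 0 < δ := by
    by_contra h
    nlinarith
  have δ1 : δ ≤ 1 / 32 := by nlinarith
  have μ0 : 0 < 2 * δ := by linarith
  have μ1 : 2 * δ ≤ 1 := by linarith
  let gs : Fin T → G := fun i => (Fintype.equivFin G).symm (finProdFinEquiv.symm i).1
  let τ : Fin T → ℝ := fun i => d.tm (gs i) + ((i : ℕ) + 1 / 2) * om
  have τ1 : ∀ i, (d.tm (gs i) : ℝ) ≤ τ i - om / 2 := fun i => by
    have : (0 : ℝ) ≤ (i : ℕ) := Nat.cast_nonneg _
    simp only [τ]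
    nlinarith
  have τ2 : ∀ i, τ i + om / 2 ≤ d.tm (gs i) + d.tol := fun i => by
    have : ((i : ℕ) : ℝ) + 1 ≤ T := by exact_mod_cast i.2
    simp only [τ]
    nlinarith
  have inS : ∀ (g : G) (t : ℝ), (d.tm g : ℝ) ≤ t → t ≤ d.tm g + d.tol → |t| ≤ A := by
    intro g t h1 h2
    have k1 := htm g
    have k2 := le_abs_self (d.tm g : ℝ)
    have k3 := neg_abs_le (d.tm g : ℝ)
    rw [abs_le]
    constructor <;> linarith
  have sm : ∀ x : ℝ, |x| ≤ A → -(om / 2) ≤ η * x ∧ η * x ≤ om / 2 := by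
    intro x hx
    obtain ⟨k1, k2⟩ := abs_le.1 hx
    constructor <;> nlinarith
  have Tb0 : (0 : ℝ) ≤ d.Tb := Nat.cast_nonneg _
  have lo : ∀ i c, τ i - om / 2 ≤
      τ i + η * (((d.key c (gs i) / (d.Tb : ℤ) : ℤ) : ℝ) * d.Tb - 1 / 4) := by
    intro i c
    obtain ⟨k1, k2⟩ := slot (k := d.key c (gs i)) d.Tb_pos
    have k3 := hkey c (gs i)
    have k4 := le_abs_self (d.key c (gs i) : ℝ)
    have k5 := neg_abs_le (d.key c (gs i) : ℝ)
    have := (sm (((d.key c (gs i) / (d.Tb : ℤ) : ℤ) : ℝ) * d.Tb - 1 / 4)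
      (abs_le.2 ⟨by linarith, by linarith⟩)).1
    linarith
  have hi : ∀ i c, τ i + η * (((d.key c (gs i) / (d.Tb : ℤ) : ℤ) : ℝ) * d.Tb + d.Tb - 1 / 4) ≤
      τ i + om / 2 := by
    intro i c
    obtain ⟨k1, k2⟩ := slot (k := d.key c (gs i)) d.Tb_pos
    have k3 := hkey c (gs i)
    have k4 := le_abs_self (d.key c (gs i) : ℝ)
    have k5 := neg_abs_le (d.key c (gs i) : ℝ)
    have := (sm (((d.key c (gs i) / (d.Tb : ℤ) : ℤ) : ℝ) * d.Tb + d.Tb - 1 / 4)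
      (abs_le.2 ⟨by linarith, by linarith⟩)).2
    linarith
  have pw : ∀ m n : ℕ, m ≤ n → (2 * δ) ^ n ≤ (2 * δ) ^ m := fun m n h =>
    pow_le_pow_of_le_one μ0.le μ1 h
  have th : ∀ (j : Fin T) (t w : ℝ), (2 * δ) ^ (2 * (j : ℕ) + 1) * |w| < |t| + 1 →
      thk ((2 * δ) ^ (2 * T + 1) * δ) t w ≤ 2 * δ * (|t| + 1) := fun j t w h =>
    thk_le δ0 (pow_le_one₀ μ0.le μ1)
      (mul_le_mul_of_nonneg_right (pw _ _ (by have := j.2; omega)) δ0.le) h
  have sep : ∀ i i' : Fin T, gs i = gs i' → i < i' → τ i + om / 2 ≤ τ i' - om / 2 := by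
    intro i i' h1 h2
    have : ((i : ℕ) : ℝ) + 1 ≤ (i' : ℕ) := by exact_mod_cast h2
    simp only [τ, h1]
    nlinarith
  have sep2 : ∀ i i' : Fin T, d.tm (gs i) < d.tm (gs i') → τ i + om / 2 ≤ τ i' - om / 2 := by
    intro i i' h
    have : (d.tm (gs i) : ℝ) + 1 ≤ d.tm (gs i') := by exact_mod_cast h
    linarith [τ1 i', τ2 i]
  refine ⟨⟨gs, τ, η, 2 * δ, (2 * δ) ^ (2 * T + 1) * δ, η0, μ0, by positivity, fun g => ?_,
    fun i c t w h => ?_, fun j i c t w hji hc h => ?_, fun j g t w h1 h2 h => ?_,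
    fun i c _ => ⟨(τ1 i).trans (lo i c), (hi i c).trans (τ2 i)⟩, fun i i' c c' _ _ hne => ?_⟩⟩
  · refine (Finset.card_le_card_of_injOn (t := Finset.univ)
      (fun i => (finProdFinEquiv.symm i).2) (fun _ _ => Finset.mem_univ _) ?_).trans (by simp)
    intro i hi i' hi' e
    have k1 := (Finset.mem_filter.1 hi).2
    have k2 := (Finset.mem_filter.1 hi').2
    exact finProdFinEquiv.symm.injective
      (Prod.ext ((Fintype.equivFin G).symm.injective (k1.trans k2.symm)) e)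
  · have m0 : 0 < (2 * δ) ^ (2 * (i : ℕ)) := by positivity
    have m1 : (2 * δ) ^ (2 * (i : ℕ)) ≤ 1 := pow_le_one₀ μ0.le μ1
    have m2 := pw (2 * (i : ℕ)) (2 * T + 1) (by have := i.2; omega)
    have m3 : 0 < (2 * δ) ^ (2 * T + 1) := by positivity
    have k := early (A := A) (η := η) (μ := 2 * δ) (γ := (2 * δ) ^ (2 * T + 1) * δ) (τ := τ i)
      (a := d.a c) (b := d.b c) (t := t) (w := w) hA η0 (by linarith) (by linarith) m0
      (by nlinarith) (by positivity) (by nlinarith)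
      (inS (gs i) _ (by linarith [τ1 i]) (by linarith [τ2 i])) (ha c) (hb c)
      (by rw [← pow_succ]; exact h)
    have k1 := le_abs_self (t - τ i - η * (d.a c + d.b c * t))
    have k2 := neg_abs_le (t - τ i - η * (d.a c + d.b c * t))
    unfold Gad.L
    constructor
    · intro hw
      rw [abs_of_nonneg hw] at k
      linarith
    · intro hw
      rw [abs_of_nonpos hw] at k
      linarith
  · obtain ⟨x, hx, y, hy, hc⟩ := hc
    have ln := d.line x hx y hy c hc (gs i)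
    have k0 := th j t w h
    have k1 : |(2 * δ) ^ (2 * (i : ℕ)) * w| ≤ 2 * δ * (|t| + 1) := by
      rw [abs_mul, abs_of_pos (by positivity)]
      have e := pw (2 * (j : ℕ) + 1 + 1) (2 * (i : ℕ)) (by have : (j : ℕ) < i := hji; omega)
      rw [pow_succ] at e
      have e1 := mul_le_mul_of_nonneg_right e (abs_nonneg w)
      have e2 := mul_le_mul_of_nonneg_left h.le μ0.le
      nlinarith
    obtain ⟨k2, k3⟩ := abs_le.1 k1
    have eb : |η * d.b c| ≤ 1 / 4 := by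
      rw [abs_mul, abs_of_pos η0]
      nlinarith [mul_le_mul_of_nonneg_left (hb c) η0.le]
    have k4 := hkey c (gs i)
    have k5 := le_abs_self (d.key c (gs i) : ℝ)
    have k6 := neg_abs_le (d.key c (gs i) : ℝ)
    unfold Gad.L
    constructor
    · intro hL
      obtain ⟨s1, s2⟩ := sm ((d.key c (gs i) : ℝ) - 1 / 4) (abs_le.2 ⟨by linarith, by linarith⟩)
      have a1 : (d.tm (gs i) : ℝ) ≤ τ i + η * ((d.key c (gs i) : ℝ) - 1 / 4) := by
        linarith [τ1 i]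
      have a2 : τ i + η * ((d.key c (gs i) : ℝ) - 1 / 4) ≤ d.tm (gs i) + d.tol := by
        linarith [τ2 i]
      exact late1 η0 δ0 δ1 hδ eb rfl (inS _ _ a1 a2) (ln _ a1 a2).1 k0 k3 hL
    · intro hL
      obtain ⟨s1, s2⟩ := sm ((d.key c (gs i) : ℝ) + 3 / 4) (abs_le.2 ⟨by linarith, by linarith⟩)
      have a1 : (d.tm (gs i) : ℝ) ≤ τ i + η * ((d.key c (gs i) : ℝ) + 3 / 4) := by
        linarith [τ1 i]
      have a2 : τ i + η * ((d.key c (gs i) : ℝ) + 3 / 4) ≤ d.tm (gs i) + d.tol := by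
        linarith [τ2 i]
      exact late2 η0 δ0 δ1 hδ eb rfl (inS _ _ a1 a2) (ln _ a1 a2).2 k0 k2 hL
  · have k0 := th j t w h
    have k1 := mul_le_mul_of_nonneg_left (inS g t h1 h2) δ0.le
    linarith
  · have key : τ i + om / 2 ≤ τ i' - om / 2 ∨ τ i' + om / 2 ≤ τ i - om / 2 := by
      rcases lt_trichotomy (d.tm (gs i)) (d.tm (gs i')) with h | h | h
      · exact Or.inl (sep2 i i' h)
      · rcases lt_or_gt_of_ne hne with h' | h'
        · exact Or.inl (sep i i' (d.tm_inj h) h')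
        · exact Or.inr (sep i' i (d.tm_inj h).symm h')
      · exact Or.inr (sep2 i' i h)
    exact key.imp (fun h => (hi i c).trans (h.trans (lo i' c')))
      fun h => (hi i' c').trans (h.trans (lo i c))

end Pool.Agent.Fur
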