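import Pool.Agent.P.MP_358d01_co.Fur.Base

set_option autoImplicit false

namespace Pool.Agent.Fur

open Classical

namespace PLAYA

variable {Γ : Type} [AddCommGroup Γ] [Fintype Γ] (s : Sys Γ)

theorem card_U_le {ρ β : ℕ} (hβ : β / s.Tb = ρ) (hT : 0 < s.Tb) (ζ : Γ) (g : s.Tm) :
    (Finset.univ.filter fun ω : s.Coin => s.U ω β ζ g).card ≤
      ∑ j ∈ Finset.range s.Tb, s.np (ρ * s.Tb + j) 0 := by
  have hsub : (Finset.univ.filter fun ω : s.Coin => s.U ω β ζ g) ⊆
      (Finset.range s.Tb).biUnion fun j => Finset.univ.filter fun ω : s.Coin =>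
        s.play ω (ρ * s.Tb + j) (ζ - s.sh (ρ * s.Tb + j) g) := by
    intro ω hω
    obtain ⟨β', -, h2, h3⟩ := (s.U_iff ω β ζ g).1 (Finset.mem_filter.1 hω).2
    have e : ρ * s.Tb + β' % s.Tb = β' := by
      rw [← hβ, ← h2]
      exact Nat.div_add_mod' _ _
    refine Finset.mem_biUnion.2 ⟨β' % s.Tb, Finset.mem_range.2 (Nat.mod_lt _ hT), ?_⟩
    rw [e]
    exact Finset.mem_filter.2 ⟨Finset.mem_univ _, h3⟩
  refine (Finset.card_le_card hsub).trans (Finset.card_biUnion_le.trans ?_)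
  refine Finset.sum_le_sum fun j _ => le_of_eq ?_
  rw [← s.np_eq _ (ζ - s.sh (ρ * s.Tb + j) g), Sys.np, ncard_eq_filter]

theorem card_bad_le (hMOM : S_MOM) (hG : s.Good) (hφ : (s.D : ℝ) * s.R ≤ s.φ ^ 2) {β : ℕ}
    (hβ : β ≤ s.B) (ζ : Γ) (g : s.Tm) :
    4 * (Finset.univ.filter fun ω : s.Coin =>
      ¬ ∀ r, r < s.D → |s.S ω β ζ r g| ≤ s.φ).card ≤ Nat.card s.Coin := by
  have hsub : (Finset.univ.filter fun ω : s.Coin => ¬ ∀ r, r < s.D → |s.S ω β ζ r g| ≤ s.φ) ⊆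
      (Finset.range s.D).biUnion fun r => Finset.univ.filter fun ω : s.Coin =>
        s.φ < |s.S ω β ζ r g| := by
    intro ω hω
    have h := (Finset.mem_filter.1 hω).2
    push Not at h
    obtain ⟨r, h1, h2⟩ := h
    exact Finset.mem_biUnion.2 ⟨r, Finset.mem_range.2 h1,
      Finset.mem_filter.2 ⟨Finset.mem_univ _, h2⟩⟩
  have h1 := (Finset.card_le_card hsub).trans Finset.card_biUnion_le
  have hp := hG.φ_pos
  have h2 : ∀ r ∈ Finset.range s.D, s.φ ^ 2 * ((Finset.univ.filter fun ω : s.Coin =>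
      s.φ < |s.S ω β ζ r g|).card : ℝ) ≤ (s.R : ℝ) / 4 * (Nat.card s.Coin : ℝ) := by
    intro r hr
    refine le_trans ?_ (hMOM Γ s hG β hβ ζ r g (Finset.mem_range.1 hr))
    refine le_trans ?_ (Finset.sum_le_sum_of_subset_of_nonneg
      (Finset.filter_subset (fun ω : s.Coin => s.φ < |s.S ω β ζ r g|) Finset.univ)
      (fun _ _ _ => sq_nonneg _))
    rw [mul_comm, ← nsmul_eq_mul]
    refine Finset.card_nsmul_le_sum _ _ _ fun ω hω => ?_
    have := (Finset.mem_filter.1 hω).2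
    rw [← sq_abs (s.S ω β ζ r g)]
    exact pow_le_pow_left₀ hp.le this.le 2
  have h3 := Finset.sum_le_sum h2
  rw [← Finset.mul_sum, Finset.sum_const, Finset.card_range, nsmul_eq_mul] at h3
  have h4 : ((Finset.univ.filter fun ω : s.Coin =>
      ¬ ∀ r, r < s.D → |s.S ω β ζ r g| ≤ s.φ).card : ℝ) ≤
      ∑ r ∈ Finset.range s.D, ((Finset.univ.filter fun ω : s.Coin =>
        s.φ < |s.S ω β ζ r g|).card : ℝ) := by exact_mod_cast h1
  have h5 : (0 : ℝ) < s.φ ^ 2 := by positivity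
  have h6 : (0 : ℝ) ≤ (Nat.card s.Coin : ℝ) := Nat.cast_nonneg _
  have h7 := mul_le_mul_of_nonneg_left h4 h5.le
  have h8 := mul_le_mul_of_nonneg_right hφ h6
  have h9 : s.φ ^ 2 * (4 * ((Finset.univ.filter fun ω : s.Coin =>
      ¬ ∀ r, r < s.D → |s.S ω β ζ r g| ≤ s.φ).card : ℝ)) ≤ s.φ ^ 2 * (Nat.card s.Coin : ℝ) := by
    nlinarith
  exact_mod_cast le_of_mul_le_mul_left h9 h5

theorem one (hMOM : S_MOM) (hIND : S_IND) (hG : s.Good) (hφ : (s.D : ℝ) * s.R ≤ s.φ ^ 2)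
    {ρ β : ℕ} (hβ : β / s.Tb = ρ) (hB : β < s.B)
    (hc : 4 * ∑ j ∈ Finset.range s.Tb, s.np (ρ * s.Tb + j) 0 < Nat.card s.Coin) :
    Nat.card s.Coin ≤ 2 ^ (s.D ^ s.R) * s.np β 0 := by
  have hD : 0 < s.D := by have := hG.D3; omega
  let trunc : s.Tm → s.Tm := fun g i => if (i : ℕ) < ρ then g i else ⟨0, hD⟩
  have t1 : ∀ g, trunc (trunc g) = trunc g := by
    intro g
    funext i
    simp only [trunc]
    split_ifs <;> rfl
  have t2 : ∀ g, s.agree ρ (trunc g) g := by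
    intro g i hi
    simp only [trunc]
    rw [if_pos hi]
  have t3 : ∀ g g', s.agree ρ g g' → trunc g = trunc g' := by
    intro g g' h
    funext i
    simp only [trunc]
    split_ifs with hi
    · exact h i hi
    · rfl
  let E : s.Tm → s.Coin → Prop := fun g ω => trunc g = g →
    (¬ s.U ω β (s.sh β g) g ∧ ∀ r, r < s.D → |s.S ω β (s.sh β g) r g| ≤ s.φ)
  let A : s.Tm → Set s.Cand := fun g => {c | trunc g = g ∧ s.bl c - s.sh β g ∈ s.H β}
  have key := hIND s.Cand s.Tm A E ?_ ?_ ?_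
  · have e : Nat.card s.Tm = s.D ^ s.R := by
      simp [Nat.card_eq_fintype_card]
    rw [e] at key
    refine key.trans (Nat.mul_le_mul_left _ ?_)
    refine Set.ncard_le_ncard (fun ω hω => ?_) (Set.toFinite _)
    change s.play ω β 0
    rw [Sys.play_iff]
    intro g
    obtain ⟨h1, h2⟩ := hω (trunc g) (t1 g)
    have ha : s.agree (β / s.Tb) (trunc g) g := by rw [hβ]; exact t2 g
    rw [hG.sh_agree β _ _ ha] at h1 h2
    rw [zero_add]
    obtain ⟨i1, -, i3⟩ := s.inv hG ω β (s.sh β g) (trunc g) g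
    refine ⟨fun h => h1 ((i1 ha).2 h), fun r hr => ?_⟩
    rw [← i3 ha h1 r]
    exact h2 r hr
  · intro g g' hne
    rw [Set.disjoint_left]
    rintro c ⟨h1, h2⟩ ⟨h3, h4⟩
    have h5 := (s.H β).sub_mem h4 h2
    have e : s.bl c - s.sh β g' - (s.bl c - s.sh β g) = s.sh β g - s.sh β g' := by abel
    rw [e] at h5
    have h6 := hG.sh_sep β g g' hB h5
    rw [hβ] at h6
    exact hne (by rw [← h1, ← h3]; exact t3 g g' h6)
  · intro g ω ω' h hE ht
    obtain ⟨h1, h2⟩ := hE ht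
    obtain ⟨l1, l2⟩ := s.loc (s.H β) (s.sh β g) ω ω' β
      (fun β' hb g' => hG.sh_mem β' β g' hb hB)
      (fun β' hb ζ' hζ => by
        rw [s.cn_mk _ (hb.trans hB), s.cn_mk _ (hb.trans hB)]
        exact h _ ⟨ht, hζ⟩)
      (s.sh β g) (by rw [sub_self]; exact (s.H β).zero_mem)
    refine ⟨fun t => h1 ((l2 g).2 t), fun r hr => ?_⟩
    rw [← l1 r g]
    exact h2 r hr
  · intro g
    have c1 := card_U_le s hβ hG.Tb_pos (s.sh β g) g
    have c2 := card_bad_le s hMOM hG hφ hB.le (s.sh β g) g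
    have hsub : (Finset.univ : Finset s.Coin) ⊆ (Finset.univ.filter fun ω : s.Coin => E g ω) ∪
        ((Finset.univ.filter fun ω : s.Coin => s.U ω β (s.sh β g) g) ∪
          (Finset.univ.filter fun ω : s.Coin =>
            ¬ ∀ r, r < s.D → |s.S ω β (s.sh β g) r g| ≤ s.φ)) := by
      intro ω _
      simp only [Finset.mem_union, Finset.mem_filter, Finset.mem_univ, true_and]
      by_cases h1 : s.U ω β (s.sh β g) g
      · exact Or.inr (Or.inl h1)
      · by_cases h2 : ∀ r, r < s.D → |s.S ω β (s.sh β g) r g| ≤ s.φ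
        · exact Or.inl fun _ => ⟨h1, h2⟩
        · exact Or.inr (Or.inr h2)
    have c3 := (Finset.card_le_card hsub).trans
      ((Finset.card_union_le _ _).trans (Nat.add_le_add_left (Finset.card_union_le _ _) _))
    rw [Finset.card_univ, ← Nat.card_eq_fintype_card] at c3
    have c4 : Set.ncard {ω : s.Coin | E g ω} =
        (Finset.univ.filter fun ω : s.Coin => E g ω).card := ncard_eq_filter _
    change Nat.card s.Coin ≤ 2 * Set.ncard {ω : s.Coin | E g ω}
    omega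

end PLAYA

theorem p_PLAY (hMOM : S_MOM) (hIND : S_IND) : S_PLAY := by
  intro Γ _ _ s hG hT hφ ρ hρ
  by_contra hc
  have hc' := not_le.1 hc
  have h1 : ∀ j ∈ Finset.range s.Tb, Nat.card s.Coin ≤ s.Tb * s.np (ρ * s.Tb + j) 0 := by
    intro j hj
    have hj' := Finset.mem_range.1 hj
    have e : (ρ * s.Tb + j) / s.Tb = ρ := by
      rw [Nat.add_comm, Nat.add_mul_div_right _ _ hG.Tb_pos, Nat.div_eq_of_lt hj', zero_add]
    have hB : ρ * s.Tb + j < s.B := by
      have : (ρ + 1) * s.Tb ≤ s.R * s.Tb := Nat.mul_le_mul_right _ hρ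
      change ρ * s.Tb + j < s.R * s.Tb
      nlinarith
    exact (PLAYA.one s hMOM hIND hG hφ e hB hc').trans (Nat.mul_le_mul_right _ hT)
  have h2 := Finset.card_nsmul_le_sum _ _ _ h1
  rw [← Finset.mul_sum, Finset.card_range, smul_eq_mul] at h2
  have h3 := Nat.le_of_mul_le_mul_left h2 hG.Tb_pos
  omega

end Pool.Agent.Fur
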