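import Pool.Agent.P.MP_358d01_co.Fur.Base

set_option autoImplicit false

namespace Pool.Agent.Fur

open Classical

namespace PRNA

variable {Γ : Type} [AddCommGroup Γ] [Fintype Γ] (s : Sys Γ)

theorem sum_eq (x : s.Coin) (ζ : Γ) (r : ℕ) (g : s.Tm) :
    ∑ c : s.Cand, (if s.play x (s.bt c) (s.bl c) ∧ s.blk c g = ζ then
      sg (x c) * step s.D r (s.yv g (s.bt c / s.Tb)) else 0) = s.S x s.B ζ r g := by
  rw [s.S_eq_sum, ← Fin.sum_univ_eq_sum_range (fun β' => if s.play x β' (ζ - s.sh β' g) then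
      sg (s.cn x β' (ζ - s.sh β' g)) * step s.D r (s.yv g (β' / s.Tb)) else 0),
    ← Equiv.sum_comp (toLex : Fin s.B × Γ ≃ Lex (Fin s.B × Γ)), Fintype.sum_prod_type]
  refine Finset.sum_congr rfl fun β _ => ?_
  rw [Finset.sum_eq_single (ζ - s.sh β g)]
  · rw [s.cn_mk x β.2]
    simp [Sys.blk]
  · intro ζ' _ hne
    refine if_neg fun h => hne ?_
    rw [← h.2]
    simp [Sys.blk]
  · simp

theorem count_le (x : s.Coin) (ζ : Γ) (r : ℕ) (g : s.Tm) :
    (Finset.univ.filter fun c : s.Cand => (s.play x (s.bt c) (s.bl c) ∧ s.blk c g = ζ) ∧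
      s.yv g (s.bt c / s.Tb) = r).card ≤
      (Finset.univ.filter fun i : Fin s.R => (g i : ℕ) = r).card := by
  refine Finset.card_le_card_of_injOn (fun c => ⟨s.bt c / s.Tb, s.run_lt (s.bt_lt c)⟩)
    (fun c hc => ?_) fun c hc c' hc' h => ?_
  · have h := (Finset.mem_filter.1 hc).2.2
    refine Finset.mem_filter.2 ⟨Finset.mem_univ _, ?_⟩
    rw [← s.yv_fin g ⟨s.bt c / s.Tb, s.run_lt (s.bt_lt c)⟩]
    exact h
  · have h1 := (Finset.mem_filter.1 hc).2.1
    have h2 := (Finset.mem_filter.1 hc').2.1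
    exact s.eq_of_blk (congrArg Fin.val h).symm h1.1 h2.1 (h1.2.trans h2.2.symm)

end PRNA

theorem p_PRN : S_PRN := by
  intro Γ _ _ s hG x o ζ r g hr
  have hφ := hG.φ_pos
  unfold Sys.price Sys.res
  by_cases h : r = 0 ∨ r + 1 = s.D
  · have e : ∑ c : s.Cand, (if s.play x (s.bt c) (s.bl c) ∧ s.blk c g = ζ then
        dec o (x c) s.D r (s.yv g (s.bt c / s.Tb)) else 0) =
        ((Finset.univ.filter fun c : s.Cand => (s.play x (s.bt c) (s.bl c) ∧ s.blk c g = ζ) ∧
          s.yv g (s.bt c / s.Tb) = r).card : ℝ) := by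
      rw [Finset.card_filter, Nat.cast_sum]
      refine Finset.sum_congr rfl fun c _ => ?_
      by_cases a : s.play x (s.bt c) (s.bl c) ∧ s.blk c g = ζ <;>
        by_cases b : s.yv g (s.bt c / s.Tb) = r <;> simp [dec, h, a, b]
    have e2 : ((Finset.univ.filter fun c : s.Cand => (s.play x (s.bt c) (s.bl c) ∧ s.blk c g = ζ) ∧
        s.yv g (s.bt c / s.Tb) = r).card : ℝ) ≤
        ((Finset.univ.filter fun i : Fin s.R => (g i : ℕ) = r).card : ℝ) := by
      exact_mod_cast PRNA.count_le s x ζ r g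
    rw [if_pos h, e]
    linarith
  · have e : ∑ c : s.Cand, (if s.play x (s.bt c) (s.bl c) ∧ s.blk c g = ζ then
        dec o (x c) s.D r (s.yv g (s.bt c / s.Tb)) else 0) = sg o * s.S x s.B ζ r g := by
      rw [← PRNA.sum_eq, Finset.mul_sum]
      refine Finset.sum_congr rfl fun c _ => ?_
      split_ifs
      · rw [dec, if_neg h, mul_assoc]
      · rw [mul_zero]
    have e2 := le_abs_self (sg o * s.S x s.B ζ r g)
    rw [abs_mul, abs_sg, one_mul] at e2
    have e3 := s.abs_S_le hφ x s.B ζ hr g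
    rw [if_neg h, e]
    linarith

end Pool.Agent.Fur
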