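import Pool.Agent.P.MP_358d01_co.Fur.Base0

set_option autoImplicit false

namespace Pool.Agent.Fur

open Classical

namespace SETA

end SETA

theorem p_SET (hPAR : S_PAR) (hALL : S_ALL) (hTHK : S_THK) (hGEN : S_GEN) (hEXP : S_EXP) : S_SET := by
  intro ι G _ _ _ _ d T' hT'
  obtain ⟨p⟩ := hPAR ι G d T' hT'
  generalize Fintype.card G * T' = T at p ⊢
  obtain ⟨P, δ, hδ, hP⟩ := hTHK (Lex (Fin T × ι)) (fun e => ![-1 + p.η * d.b (ofLex e).2,
    -p.τ (ofLex e).1 - p.η * d.a (ofLex e).2, p.μ ^ (2 * ((ofLex e).1 : ℕ))]) p.γ p.γ_pos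
  obtain ⟨P', h1, h2, h3⟩ := hGEN {z : Lex (Fin T × ι) → Bool // ∀ i, stage z i ∈ d.X}
    (fun z => P z.1) δ hδ
  have hQ := hP (fun z i => if h : ∀ i, stage z i ∈ d.X then P' ⟨z, h⟩ i else P z i) (by
    intro z i
    split_ifs with h
    · exact h1 ⟨z, h⟩ i
    · simpa using hδ.le)
  refine ⟨Finset.univ.image P', fun T0 hT0 hc => h3 T0 (fun q hq => by simpa using hT0 hq) hc,
    ?_, fun T0 hT0 hc => ?_⟩
  · rw [Finset.card_image_of_injective _ h2, Finset.card_univ]
    have := Fintype.card_le_of_injective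
      (fun x : Fin T → d.X => (⟨fun e => (x (ofLex e).1).1 (ofLex e).2, fun i => (x i).2⟩ :
        {z : Lex (Fin T × ι) → Bool // ∀ i, stage z i ∈ d.X})) fun x y e =>
        funext fun i => Subtype.ext (congrArg (fun z => stage z i) (congrArg Subtype.val e))
    rw [Fintype.card_fun, Fintype.card_coe, Fintype.card_fin] at this
    rw [pow_mul]
    exact (Nat.pow_le_pow_left d.card_ge T).trans this
  · have hθ : ∀ z : Lex (Fin T × ι) → Bool, ∃ θ : Fin 3 → ℝ, (θ 1 = 1 ∨ θ 1 = -1) ∧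
        ∀ h : ∀ i, stage z i ∈ d.X, P' ⟨z, h⟩ ∈ T0 → ∀ q ∈ T0, q ≠ P' ⟨z, h⟩ →
          0 < ∑ i, θ i * (P' ⟨z, h⟩ i - q i) := by
      intro z
      by_cases h : ∃ h : ∀ i, stage z i ∈ d.X, P' ⟨z, h⟩ ∈ T0
      · obtain ⟨h, h'⟩ := h
        obtain ⟨θ, a1, a2⟩ := hEXP T0 _ (hc _ h')
        exact ⟨θ, a1, fun _ _ => a2⟩
      · exact ⟨fun _ => 1, Or.inl rfl, fun a b => absurd ⟨a, b⟩ h⟩
    choose θ hθ1 hθ2 using hθ
    let Y0 := Finset.univ.filter fun z => P' z ∈ T0
    have hcard : T0.card = (Y0.image Subtype.val).card := by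
      rw [Finset.card_image_of_injective _ Subtype.val_injective,
        ← Finset.card_image_of_injective Y0 h2]
      congr 1
      ext q
      simp only [Y0, Finset.mem_image, Finset.mem_filter, Finset.mem_univ, true_and]
      constructor
      · intro hq
        obtain ⟨z, -, rfl⟩ := Finset.mem_image.1 (hT0 hq)
        exact ⟨z, hq, rfl⟩
      · rintro ⟨z, hz, rfl⟩
        exact hz
    rw [hcard]
    refine hALL ι G d T T' p _ (fun z => decide (θ z 1 = 1)) (fun z => -θ z 0 * θ z 1)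
      (fun z => θ z 2 * θ z 1) (fun z hz => ?_) fun z hz z' hz' i c hfd => ?_
    · obtain ⟨z, -, rfl⟩ := Finset.mem_image.1 hz
      exact z.2
    · obtain ⟨⟨z, a1⟩, a2, rfl⟩ := Finset.mem_image.1 hz
      obtain ⟨⟨z', b1⟩, b2, rfl⟩ := Finset.mem_image.1 hz'
      have := hQ z z' _ (θ z) hfd (by
        simp only [dif_pos a1, dif_pos b1]
        exact hθ2 z a1 (Finset.mem_filter.1 a2).2 _ (Finset.mem_filter.1 b2).2
          fun e => hfd.ne (congrArg Subtype.val (h2 e)).symm)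
      simp only [Fin.sum_univ_three, ofLex_toLex, Matrix.cons_val_zero, Matrix.cons_val_one,
        Matrix.cons_val] at this
      obtain ⟨c1, c2⟩ := this
      have hn : ¬ ((-1 : ℝ) = 1) := by norm_num
      change (z (toLex (i, c)) = _ → _) ∧ (z (toLex (i, c)) ≠ _ → _)
      rcases hθ1 z with e | e
      · simp only [e, decide_true, thk, Gad.L, mul_one, abs_neg, abs_one, ne_eq,
          Bool.not_eq_true] at c1 c2 ⊢
        exact ⟨fun h => by linarith [c1 h], fun h => by linarith [c2 h]⟩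
      · simp only [e, hn, decide_false, thk, Gad.L, mul_neg, mul_one, neg_neg, neg_mul, abs_neg,
          abs_one, ne_eq, Bool.not_eq_false] at c1 c2 ⊢
        exact ⟨fun h => by linarith [c2 h], fun h => by linarith [c1 h]⟩

end Pool.Agent.Fur
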