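import Pool.Agent.P.MP_358d01_co.Fur.Base

set_option autoImplicit false

namespace Pool.Agent.Fur

open Classical

namespace SKIPA

variable {Γ : Type} [AddCommGroup Γ] [Fintype Γ] [LinearOrder Γ] (s : Sys Γ)

omit [Fintype Γ] in
theorem price_insert (x : s.Coin) (o : Bool) (A : Finset s.Cand) (c : s.Cand) (hc : c ∉ A)
    (ζ : Γ) (r : ℕ) (g : s.Tm) :
    s.price x o (insert c A) ζ r g = s.price x o A ζ r g -
      if s.play x (s.bt c) (s.bl c) ∧ s.blk c g = ζ then
        dec o (x c) s.D r (s.yv g (s.bt c / s.Tb)) else 0 := by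
  unfold Sys.price
  rw [Finset.sum_insert hc]
  by_cases h : s.play x (s.bt c) (s.bl c) ∧ s.blk c g = ζ
  · rw [if_pos h, if_pos h]; ring
  · rw [if_neg h, if_neg h]; ring

/-- Summing a function that lives on the zones of `c`. -/
theorem sum_zone (x : s.Coin) (o : Bool) (K : Finset s.Cand) (c : s.Cand) (F : ℕ → ℕ → ℝ) :
    (∑ ζ : Γ, ∑ r ∈ Finset.range s.D, ∑ g : s.Tm, if s.In x o K ζ r g then
      (if s.blk c g = ζ then F r (s.yv g (s.bt c / s.Tb)) else 0) else 0) =
    ∑ r ∈ Finset.range s.D, ∑ g : s.Tm,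
      (if s.In x o K (s.blk c g) r g then (1 : ℝ) else 0) * F r (s.yv g (s.bt c / s.Tb)) := by
  rw [Finset.sum_comm]
  refine Finset.sum_congr rfl fun r _ => ?_
  rw [Finset.sum_comm]
  refine Finset.sum_congr rfl fun g _ => ?_
  rw [Finset.sum_eq_single (s.blk c g)]
  · split_ifs <;> simp_all
  · intro ζ _ hζ
    rw [if_neg (Ne.symm hζ), ite_self]
  · intro h
    exact (h (Finset.mem_univ _)).elim

theorem sum_out (hAON : S_AON) (hG : s.Good) (x : s.Coin) (o : Bool) (K : Finset s.Cand)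
    (c : s.Cand) (hc : s.play x (s.bt c) (s.bl c))
    (hK : ∀ c' ∈ K, c' < c ∧ s.play x (s.bt c') (s.bl c')) {r : ℕ} (hr : r < s.D) (F : ℕ → ℝ) :
    (s.D : ℝ) * ∑ g : s.Tm, (if s.In x o K (s.blk c g) r g then (1 : ℝ) else 0) *
        F (s.yv g (s.bt c / s.Tb)) =
      (∑ y ∈ Finset.range s.D, F y) *
        ∑ g : s.Tm, (if s.In x o K (s.blk c g) r g then (1 : ℝ) else 0) := by
  let i : Fin s.R := ⟨s.bt c / s.Tb, s.run_lt (s.bt_lt c)⟩
  have e : ∀ g : s.Tm, s.yv g (s.bt c / s.Tb) = g i := fun g => s.yv_fin g i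
  simp only [e]
  refine sum_digit i (fun g => if s.In x o K (s.blk c g) r g then (1 : ℝ) else 0) ?_ F
  intro g y
  simp only [hAON Γ s hG x o K c i rfl hc hK r g y hr]

end SKIPA

theorem p_SKIP (hAON : S_AON) : S_SKIP := by
  intro Γ _ _ _ s hG x o A K c hc hK
  by_cases hp : s.play x (s.bt c) (s.bl c)
  · have hD : (0 : ℝ) < s.D := by have := hG.D3; exact_mod_cast (by omega : 0 < s.D)
    have e : s.pot x o (insert c A) K = s.pot x o A K -
        ∑ ζ : Γ, ∑ r ∈ Finset.range s.D, ∑ g : s.Tm, if s.In x o K ζ r g then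
          (if s.blk c g = ζ then dec o (x c) s.D r (s.yv g (s.bt c / s.Tb)) else 0) else 0 := by
      unfold Sys.pot
      simp only [← Finset.sum_sub_distrib]
      refine Finset.sum_congr rfl fun ζ _ => Finset.sum_congr rfl fun r _ =>
        Finset.sum_congr rfl fun g _ => ?_
      rw [SKIPA.price_insert s x o A c hc]
      simp only [hp, true_and]
      split_ifs <;> simp
    rw [e, SKIPA.sum_zone s x o K c (fun r y => dec o (x c) s.D r y), sub_le_self_iff]
    refine Finset.sum_nonneg fun r hr => ?_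
    have h1 := SKIPA.sum_out s hAON hG x o K c hp hK (Finset.mem_range.1 hr)
      (fun y => dec o (x c) s.D r y)
    have h2 : 0 ≤ (∑ y ∈ Finset.range s.D, dec o (x c) s.D r y) *
        ∑ g : s.Tm, (if s.In x o K (s.blk c g) r g then (1 : ℝ) else 0) :=
      mul_nonneg (sum_dec_nonneg _ _ _ _)
        (Finset.sum_nonneg fun g _ => by split_ifs <;> norm_num)
    rw [← h1] at h2
    exact nonneg_of_mul_nonneg_right h2 hD
  · refine le_of_eq ?_
    unfold Sys.pot
    refine Finset.sum_congr rfl fun ζ _ => Finset.sum_congr rfl fun r _ =>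
      Finset.sum_congr rfl fun g _ => ?_
    rw [SKIPA.price_insert s x o A c hc]
    simp [hp]

end Pool.Agent.Fur
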