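import Pool.Agent.P.MP_358d01_co.Fur.Base

set_option autoImplicit false

namespace Pool.Agent.Fur

open Classical

namespace SLOA

variable {Γ : Type} [AddCommGroup Γ] (s : Sys Γ)

theorem key_div (hT : 0 < s.Tb) (c : s.Cand) (g : s.Tm) :
    s.key c g / (s.Tb : ℤ) = ((s.zh c g * s.R + s.bt c / s.Tb : ℕ) : ℤ) := by
  unfold Sys.key
  rw [← Int.natCast_div]
  have : s.zh c g * s.B + s.bt c = s.bt c + s.Tb * (s.zh c g * s.R) := by
    unfold Sys.B; ring
  rw [this, Nat.add_mul_div_left _ _ hT, add_comm]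

end SLOA

theorem p_SLO : S_SLO := by
  intro Γ _ _ _ s hG
  have hD : 0 < s.D := by have := hG.D3; omega
  refine ⟨fun g => ⟨(Finset.univ : Finset (Γ × Fin s.R)).image
    fun p => (((s.D * s.ht p.1 + s.yv g p.2) * s.R + p.2 : ℕ) : ℤ), ?_, fun c => ?_⟩, ?_⟩
  · refine Finset.card_image_le.trans ?_
    rw [Finset.card_univ, Fintype.card_prod, Fintype.card_fin, Nat.card_eq_fintype_card, mul_comm]
  · rw [SLOA.key_div s hG.Tb_pos]
    exact Finset.mem_image.2 ⟨(s.blk c g, ⟨s.bt c / s.Tb, s.run_lt (s.bt_lt c)⟩),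
      Finset.mem_univ _, rfl⟩
  · intro x g c c' hc hc' hne e
    rw [SLOA.key_div s hG.Tb_pos, SLOA.key_div s hG.Tb_pos] at e
    have e' : s.zh c g * s.R + s.bt c / s.Tb = s.zh c' g * s.R + s.bt c' / s.Tb := by
      exact_mod_cast e
    have h1 := s.run_lt (s.bt_lt c)
    have h2 := s.run_lt (s.bt_lt c')
    have hr : s.bt c / s.Tb = s.bt c' / s.Tb := by
      have := congrArg (· % s.R) e'
      simp only [Nat.mul_add_mod_self_right, Nat.mod_eq_of_lt h1, Nat.mod_eq_of_lt h2] at this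
      exact this
    have hz : s.zh c g = s.zh c' g := by
      rw [hr] at e'
      exact Nat.eq_of_mul_eq_mul_right (Nat.zero_lt_of_lt h2) (Nat.add_right_cancel e')
    unfold Sys.zh at hz
    rw [hr] at hz
    have hh := Nat.eq_of_mul_eq_mul_left hD (Nat.add_right_cancel hz)
    exact hne (s.eq_of_blk hr.symm hc hc' (hG.ht_inj hh))

end Pool.Agent.Fur
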